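import Mathlib

set_option autoImplicit false

open MeasureTheory Set
open scoped ENNReal

namespace Pool.Agent.H.MP_31d543_pr

lemma tail_sum {α : Type*} [MeasurableSpace α] (μ : Measure α) [IsProbabilityMeasure μ]
    {h : α → ℝ} (hm : Measurable h) {C β : ℝ} (hC : 1 ≤ C) (hβ : 0 ≤ β)
    (ht : ∀ t, 0 ≤ t → μ {x | t < h x} ≤ ENNReal.ofReal (C * (1 + t) ^ β * Real.exp (-t)))
    {A s r : ℝ} (hA : 0 ≤ A) (hr : 1 < r) :
    ∫⁻ x, ENNReal.ofReal (min A (A * Real.exp ((h x - s) * r))) ∂μ ≤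
      ENNReal.ofReal (A * C * (1 + max s 0) ^ β * Real.exp (1 - s) *
        (1 - Real.exp (-(r - 1)))⁻¹) := by
  set ρ : ℝ := Real.exp (-(r - 1)) with hρ
  have hρ0 : 0 ≤ ρ := (Real.exp_pos _).le
  have hρ1 : ρ < 1 := by rw [hρ, Real.exp_lt_one_iff]; linarith
  set K : ℝ := A * C * (1 + max s 0) ^ β * Real.exp (1 - s) with hK
  have hK0 : 0 ≤ K := by positivity
  have hpt : ∀ x, ENNReal.ofReal (min A (A * Real.exp ((h x - s) * r))) ≤
      ∑' j : ℕ, ENNReal.ofReal (A * Real.exp (-(j * r))) *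
        {y | s - j - 1 < h y}.indicator (fun _ => (1:ℝ≥0∞)) x := by
    intro x
    refine le_trans ?_ (ENNReal.le_tsum ⌊s - h x⌋₊)
    have h1 : s - h x < ⌊s - h x⌋₊ + 1 := Nat.lt_floor_add_one _
    rw [Set.indicator_of_mem (show x ∈ {y | s - (⌊s - h x⌋₊ : ℝ) - 1 < h y} from by
      show s - (⌊s - h x⌋₊ : ℝ) - 1 < h x
      linarith), mul_one]
    apply ENNReal.ofReal_le_ofReal
    rcases le_or_gt 0 (s - h x) with h2 | h2
    · refine (min_le_right _ _).trans ?_
      apply mul_le_mul_of_nonneg_left _ hA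
      apply Real.exp_le_exp.2
      have h3 := Nat.floor_le h2
      nlinarith
    · refine (min_le_left _ _).trans ?_
      rw [Nat.floor_of_nonpos h2.le]
      simp
  have hmeas : ∀ j : ℕ, MeasurableSet {y | s - (j:ℝ) - 1 < h y} := fun j =>
    measurableSet_lt measurable_const hm
  have hterm : ∀ j : ℕ, ∫⁻ x, ENNReal.ofReal (A * Real.exp (-(j * r))) *
      {y | s - (j:ℝ) - 1 < h y}.indicator (fun _ => (1:ℝ≥0∞)) x ∂μ ≤
      ENNReal.ofReal K * ENNReal.ofReal (ρ ^ j) := by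
    intro j
    rw [lintegral_const_mul _ (measurable_const.indicator (hmeas j)),
      lintegral_indicator_const (hmeas j), one_mul]
    have h1 : μ {y | s - (j:ℝ) - 1 < h y} ≤
        ENNReal.ofReal (C * (1 + max s 0) ^ β * Real.exp (-(s - j - 1))) := by
      rcases le_or_gt 0 (s - (j:ℝ) - 1) with h2 | h2
      · refine (ht _ h2).trans (ENNReal.ofReal_le_ofReal ?_)
        have h3 : (1 + (s - (j:ℝ) - 1)) ^ β ≤ (1 + max s 0) ^ β := by
          apply Real.rpow_le_rpow (by linarith) _ hβ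
          have := le_max_left s 0
          have : (0:ℝ) ≤ j := Nat.cast_nonneg j
          linarith
        exact mul_le_mul_of_nonneg_right (mul_le_mul_of_nonneg_left h3 (by linarith))
          (Real.exp_pos _).le
      · refine prob_le_one.trans ?_
        rw [ENNReal.one_le_ofReal]
        have h3 : 1 ≤ (1 + max s 0) ^ β :=
          Real.one_le_rpow (by have := le_max_right s 0; linarith) hβ
        have h4 : 1 ≤ Real.exp (-(s - j - 1)) := Real.one_le_exp (by linarith)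
        nlinarith [mul_le_mul hC h3 zero_le_one (by linarith), Real.exp_pos (-(s - j - 1))]
    refine (mul_le_mul' le_rfl h1).trans ?_
    rw [← ENNReal.ofReal_mul (by positivity), ← ENNReal.ofReal_mul hK0]
    apply ENNReal.ofReal_le_ofReal
    apply le_of_eq
    have e1 : Real.exp (-(j * r)) * Real.exp (-(s - j - 1)) = Real.exp (1 - s) * ρ ^ j := by
      rw [hρ, ← Real.exp_nat_mul, ← Real.exp_add, ← Real.exp_add]
      congr 1
      ring
    calc A * Real.exp (-(j * r)) * (C * (1 + max s 0) ^ β * Real.exp (-(s - j - 1)))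
        = A * C * (1 + max s 0) ^ β * (Real.exp (-(j * r)) * Real.exp (-(s - j - 1))) := by ring
      _ = K * ρ ^ j := by rw [e1, hK]; ring
  calc ∫⁻ x, ENNReal.ofReal (min A (A * Real.exp ((h x - s) * r))) ∂μ
      ≤ ∫⁻ x, ∑' j : ℕ, ENNReal.ofReal (A * Real.exp (-(j * r))) *
        {y | s - j - 1 < h y}.indicator (fun _ => (1:ℝ≥0∞)) x ∂μ := lintegral_mono hpt
    _ = ∑' j : ℕ, ∫⁻ x, ENNReal.ofReal (A * Real.exp (-(j * r))) *
        {y | s - (j:ℝ) - 1 < h y}.indicator (fun _ => (1:ℝ≥0∞)) x ∂μ :=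
        lintegral_tsum (fun j => ((measurable_const.indicator (hmeas j)).const_mul _).aemeasurable)
    _ ≤ ∑' j : ℕ, ENNReal.ofReal K * ENNReal.ofReal (ρ ^ j) := ENNReal.tsum_le_tsum hterm
    _ = ENNReal.ofReal K * ENNReal.ofReal (∑' j : ℕ, ρ ^ j) := by
        rw [ENNReal.tsum_mul_left, ENNReal.ofReal_tsum_of_nonneg (fun j => pow_nonneg hρ0 j)
          (summable_geometric_of_lt_one hρ0 hρ1)]
    _ = ENNReal.ofReal (K * (1 - ρ)⁻¹) := by
        rw [tsum_geometric_of_lt_one hρ0 hρ1, ENNReal.ofReal_mul hK0]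

end Pool.Agent.H.MP_31d543_pr
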