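import Pool.Agent.H.MP_31d543_pr.Count
import Pool.Agent.H.MP_31d543_pr.TailSum

set_option autoImplicit false

open MeasureTheory ProbabilityTheory Set
open scoped ENNReal

namespace Pool.Agent.H.MP_31d543_pr

variable {d : ℕ} [NeZero d]

lemma sig0_pos : 0 < sig0 := by
  unfold sig0 scale
  have := Iso_mid_pos (a := 0) (l := 1) le_rfl one_pos (by norm_num)
  positivity

lemma C1_pos (d : ℕ) : 0 < C1 d := by
  unfold C1
  have := sig0_pos
  have := cI_pos
  positivity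

/-- The level-dependent amplitude. -/
noncomputable def lvA (d : ℕ) (p : ℝ) (n : ℕ) : ℝ := (C1 d / (n + 1)) ^ (p / 2)

/-- The level-dependent radius. -/
noncomputable def lvS (d : ℕ) (n : ℕ) : ℝ :=
  Real.log ((C1 d / (n + 1)) ^ ((d:ℝ) / 2) * 2 ^ n / C0 d)

lemma exp_lvS (d n : ℕ) :
    Real.exp (lvS d n) = (C1 d / (n + 1)) ^ ((d:ℝ) / 2) * 2 ^ n / C0 d := by
  have h1 := C1_pos d
  have h0 := C0_pos d
  unfold lvS
  rw [Real.exp_log (by positivity)]

lemma sig_le_min {p : ℝ} (hp : 0 < p) {n : ℕ} {w : Cell d} (hw : w.Good n)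
    {u : Fin d → ℝ} (hu : u ∈ w.box) (hu' : ∀ i, u i ∈ Ioo (0:ℝ) 1) :
    w.sig ^ p ≤ min (lvA d p n)
      (lvA d p n * Real.exp ((‖S u‖ ^ 2 / 2 - lvS d n) * (p / d))) := by
  have h1 := C1_pos d
  have h0 := C0_pos d
  have hn : (0:ℝ) < (n:ℝ) + 1 := by positivity
  have hd : (0:ℝ) < d := by exact_mod_cast Nat.pos_of_ne_zero (NeZero.ne d)
  apply le_min
  · have h2 : w.sig ^ 2 ≤ C1 d / (n + 1) := by
      rw [le_div_iff₀ hn]
      linarith [sig_bound1 hw]
    have h3 : w.sig ^ p = (w.sig ^ 2) ^ (p / 2) := by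
      rw [← Real.rpow_natCast, ← Real.rpow_mul w.sig_nonneg]
      congr 1
      push_cast
      ring
    rw [h3]
    exact Real.rpow_le_rpow (sq_nonneg _) h2 (by positivity)
  · have h2 := sig_bound2 hw hu hu'
    have h3 : w.sig ^ p = (w.sig ^ d) ^ (p / d) := by
      rw [← Real.rpow_natCast, ← Real.rpow_mul w.sig_nonneg]
      congr 1
      field_simp
    have h4 : C0 d * ((2:ℝ) ^ n)⁻¹ * Real.exp (‖S u‖ ^ 2 / 2) =
        (C1 d / (n + 1)) ^ ((d:ℝ) / 2) * Real.exp (‖S u‖ ^ 2 / 2 - lvS d n) := by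
      rw [Real.exp_sub, exp_lvS]
      have : 0 < (C1 d / ((n:ℝ) + 1)) ^ ((d:ℝ) / 2) := by positivity
      field_simp
    rw [h4] at h2
    rw [h3]
    calc (w.sig ^ d) ^ (p / d)
        ≤ ((C1 d / (n + 1)) ^ ((d:ℝ) / 2) * Real.exp (‖S u‖ ^ 2 / 2 - lvS d n)) ^ (p / d) :=
          Real.rpow_le_rpow (pow_nonneg w.sig_nonneg _) h2 (by positivity)
      _ = _ := by
          rw [Real.mul_rpow (by positivity) (Real.exp_pos _).le, ← Real.rpow_mul (by positivity),
            ← Real.exp_mul, lvA]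
          congr 2
          field_simp

/-- The sum of the `p`-th powers of the scales of the cells at level `n`. -/
theorem sum_sig_bound (hd : 2 ≤ d) {p : ℝ} (hp : (d:ℝ) < p) : ∃ C : ℝ, 0 < C ∧ ∀ n : ℕ,
    ∑ m ∈ Finset.range (2 ^ n), ENNReal.ofReal ((tree n m : Cell d).sig) ^ p ≤
      ENNReal.ofReal (C * ((n:ℝ) + 1) ^ ((d:ℝ) - 1 - p / 2)) := by
  obtain ⟨CT, hCT, hT⟩ := stdGaussian_tail d hd
  have hC1 := C1_pos d
  have hC0 := C0_pos d
  have hd2 : (2:ℝ) ≤ d := by exact_mod_cast hd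
  have hp0 : 0 < p := by linarith
  set C' : ℝ := max CT 1 with hC'
  have hC'1 : 1 ≤ C' := le_max_right _ _
  set β : ℝ := (d:ℝ) / 2 - 1 with hβ
  have hβ0 : 0 ≤ β := by rw [hβ]; linarith
  set r : ℝ := p / d with hr
  have hr1 : 1 < r := by rw [hr, one_lt_div (by linarith)]; exact hp
  set B : ℝ := 1 + (d:ℝ) / 2 * |Real.log (C1 d)| + |Real.log (C0 d)| with hB
  have hB0 : 0 < B := by positivity
  set R : ℝ := (1 - Real.exp (-(r - 1)))⁻¹ with hR
  have hR0 : 0 < R := by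
    rw [hR]
    apply inv_pos.2
    have : Real.exp (-(r - 1)) < 1 := by rw [Real.exp_lt_one_iff]; linarith
    linarith
  have hT' : ∀ t, 0 ≤ t → stdGaussian (EuclideanSpace ℝ (Fin d)) {x | t < ‖x‖ ^ 2 / 2} ≤
      ENNReal.ofReal (C' * (1 + t) ^ β * Real.exp (-t)) := by
    intro t ht
    refine (hT t ht).trans (ENNReal.ofReal_le_ofReal ?_)
    have h1 : CT ≤ C' := le_max_left _ _
    have h2 : 0 ≤ (1 + t) ^ β := Real.rpow_nonneg (by linarith) _
    exact mul_le_mul_of_nonneg_right (mul_le_mul_of_nonneg_right h1 h2) (Real.exp_pos _).le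
  refine ⟨C1 d ^ (p / 2) * C' * B ^ β * Real.exp 1 * C0 d * (C1 d ^ ((d:ℝ) / 2))⁻¹ * R,
    by positivity, ?_⟩
  intro n
  have hn : (0:ℝ) < (n:ℝ) + 1 := by positivity
  have hA0 : 0 ≤ lvA d p n := by unfold lvA; positivity
  set g : EuclideanSpace ℝ (Fin d) → ℝ≥0∞ := fun x =>
    ENNReal.ofReal (min (lvA d p n)
      (lvA d p n * Real.exp ((‖x‖ ^ 2 / 2 - lvS d n) * (p / d)))) with hg
  have hgm : Measurable g := by
    rw [hg]
    apply Measurable.ennreal_ofReal
    apply Measurable.min measurable_const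
    apply Measurable.const_mul
    apply Measurable.exp
    fun_prop
  have h2n : (0:ℝ) < 2 ^ n := by positivity
  have hstep1 : ∑ m ∈ Finset.range (2 ^ n), ENNReal.ofReal ((tree n m : Cell d).sig) ^ p ≤
      ENNReal.ofReal (2 ^ n) * ∫⁻ u, g (S u) ∂(lam d) := by
    calc ∑ m ∈ Finset.range (2 ^ n), ENNReal.ofReal ((tree n m : Cell d).sig) ^ p
        = ∑ m ∈ Finset.range (2 ^ n), ENNReal.ofReal (2 ^ n) *
          ∫⁻ _u in (tree n m : Cell d).box, ENNReal.ofReal ((tree n m : Cell d).sig) ^ p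
            ∂(lam d) := by
          apply Finset.sum_congr rfl
          intro m _
          rw [setLIntegral_const, lam_cell (tree_good n m), mul_comm, mul_assoc,
            ← ENNReal.ofReal_mul (by positivity), inv_mul_cancel₀ h2n.ne', ENNReal.ofReal_one,
            mul_one]
      _ ≤ ∑ m ∈ Finset.range (2 ^ n), ENNReal.ofReal (2 ^ n) *
          ∫⁻ u in (tree n m : Cell d).box, g (S u) ∂(lam d) := by
          apply Finset.sum_le_sum
          intro m _
          refine mul_le_mul' le_rfl ?_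
          apply lintegral_mono_ae
          filter_upwards [ae_restrict_mem (tree n m : Cell d).measurableSet_box,
            ae_restrict_of_ae ae_lam_mem] with u hu hu'
          rw [ENNReal.ofReal_rpow_of_nonneg (Cell.sig_nonneg _) hp0.le]
          exact ENNReal.ofReal_le_ofReal (sig_le_min hp0 (tree_good n m) hu hu')
      _ = ENNReal.ofReal (2 ^ n) * ∑ m ∈ Finset.range (2 ^ n),
          ∫⁻ u in (tree n m : Cell d).box, g (S u) ∂(lam d) := by rw [Finset.mul_sum]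
      _ ≤ _ := by
          gcongr
          exact sum_lintegral_box (lam d) n (fun u => g (S u))
  have hstep2 : ∫⁻ u, g (S u) ∂(lam d) =
      ∫⁻ x, g x ∂(stdGaussian (EuclideanSpace ℝ (Fin d))) := by
    rw [← map_S_lam, lintegral_map hgm measurable_S]
  have hstep3 : ∫⁻ x, g x ∂(stdGaussian (EuclideanSpace ℝ (Fin d))) ≤
      ENNReal.ofReal (lvA d p n * C' * (1 + max (lvS d n) 0) ^ β *
        Real.exp (1 - lvS d n) * R) :=
    tail_sum (stdGaussian (EuclideanSpace ℝ (Fin d))) (h := fun x => ‖x‖ ^ 2 / 2)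
      (by fun_prop) hC'1 hβ0 hT' hA0 hr1
  rw [hstep2] at hstep1
  refine hstep1.trans ((mul_le_mul' le_rfl hstep3).trans ?_)
  rw [← ENNReal.ofReal_mul h2n.le]
  apply ENNReal.ofReal_le_ofReal
  -- the numerical estimate
  have hs : lvS d n ≤ (d:ℝ) / 2 * |Real.log (C1 d)| + |Real.log (C0 d)| + n := by
    unfold lvS
    rw [Real.log_div (by positivity) hC0.ne', Real.log_mul (by positivity) (by positivity),
      Real.log_rpow (by positivity), Real.log_div hC1.ne' hn.ne', Real.log_pow]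
    have h1 : 0 ≤ Real.log ((n:ℝ) + 1) := Real.log_nonneg (by
      have : (0:ℝ) ≤ n := Nat.cast_nonneg n
      linarith)
    have h2 : Real.log (C1 d) ≤ |Real.log (C1 d)| := le_abs_self _
    have h3 : -Real.log (C0 d) ≤ |Real.log (C0 d)| := neg_le_abs _
    have h4 : Real.log 2 ≤ 1 := by
      have := Real.log_two_lt_d9
      linarith
    have h5 : (n:ℝ) * Real.log 2 ≤ n * 1 := mul_le_mul_of_nonneg_left h4 (Nat.cast_nonneg n)
    have h6 : (d:ℝ) / 2 * (Real.log (C1 d) - Real.log ((n:ℝ) + 1)) ≤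
        (d:ℝ) / 2 * |Real.log (C1 d)| :=
      mul_le_mul_of_nonneg_left (by linarith) (by linarith)
    linarith
  have hs1 : 1 + max (lvS d n) 0 ≤ B * ((n:ℝ) + 1) := by
    have hn0 : (0:ℝ) ≤ n := Nat.cast_nonneg n
    have hb1 : 0 ≤ (d:ℝ) / 2 * |Real.log (C1 d)| := by positivity
    have hb2 : 0 ≤ |Real.log (C0 d)| := abs_nonneg _
    rcases max_choice (lvS d n) 0 with h | h
    · rw [h, hB]; nlinarith
    · rw [h, hB]; nlinarith
  have hs2 : (1 + max (lvS d n) 0) ^ β ≤ B ^ β * ((n:ℝ) + 1) ^ β := by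
    rw [← Real.mul_rpow hB0.le hn.le]
    apply Real.rpow_le_rpow _ hs1 hβ0
    have := le_max_right (lvS d n) 0
    linarith
  have hexp : (2:ℝ) ^ n * Real.exp (1 - lvS d n) =
      Real.exp 1 * C0 d * (C1 d ^ ((d:ℝ) / 2))⁻¹ * ((n:ℝ) + 1) ^ ((d:ℝ) / 2) := by
    rw [Real.exp_sub, exp_lvS, Real.div_rpow hC1.le hn.le]
    have h1 : 0 < C1 d ^ ((d:ℝ) / 2) := by positivity
    have h2 : 0 < ((n:ℝ) + 1) ^ ((d:ℝ) / 2) := by positivity
    field_simp
  have hAe : lvA d p n = C1 d ^ (p / 2) * ((n:ℝ) + 1) ^ (-(p / 2)) := by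
    unfold lvA
    rw [Real.div_rpow hC1.le hn.le, Real.rpow_neg hn.le, div_eq_mul_inv]
  calc (2:ℝ) ^ n * (lvA d p n * C' * (1 + max (lvS d n) 0) ^ β * Real.exp (1 - lvS d n) * R)
      = lvA d p n * C' * (1 + max (lvS d n) 0) ^ β * ((2:ℝ) ^ n * Real.exp (1 - lvS d n)) * R := by
        ring
    _ ≤ lvA d p n * C' * (B ^ β * ((n:ℝ) + 1) ^ β) * ((2:ℝ) ^ n * Real.exp (1 - lvS d n)) * R := by
        gcongr
    _ = (C1 d ^ (p / 2) * C' * B ^ β * Real.exp 1 * C0 d * (C1 d ^ ((d:ℝ) / 2))⁻¹ * R) *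
        (((n:ℝ) + 1) ^ (-(p / 2)) * ((n:ℝ) + 1) ^ β * ((n:ℝ) + 1) ^ ((d:ℝ) / 2)) := by
        rw [hexp, hAe]; ring
    _ = _ := by
        rw [← Real.rpow_add hn, ← Real.rpow_add hn]
        congr 2
        rw [hβ]; ring

end Pool.Agent.H.MP_31d543_pr
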