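import Pool.Agent.H.MP_31d543_pr.Expect
import Pool.Agent.H.MP_31d543_pr.CountSum

set_option autoImplicit false

open MeasureTheory ProbabilityTheory Set
open scoped ENNReal

namespace Pool.Agent.H.MP_31d543_pr

lemma map_finsetSum' {α β ι : Type*} [MeasurableSpace α] [MeasurableSpace β] (s : Finset ι)
    (μ : ι → Measure α) {f : α → β} (hf : Measurable f) :
    (∑ i ∈ s, μ i).map f = ∑ i ∈ s, (μ i).map f := by
  classical
  induction s using Finset.induction_on with
  | empty => simp
  | insert i s hi ih => rw [Finset.sum_insert hi, Finset.sum_insert hi,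
      Measure.map_add _ _ hf, ih]

/-- Minkowski inequality for finite sums. -/
lemma minkowski_sum {α ι : Type*} [MeasurableSpace α] (μ : Measure α) {p : ℝ} (hp : 1 ≤ p)
    (s : Finset ι) (f : ι → α → ℝ≥0∞) (hf : ∀ i, Measurable (f i)) :
    (∫⁻ a, (∑ i ∈ s, f i a) ^ p ∂μ) ^ (1 / p) ≤ ∑ i ∈ s, (∫⁻ a, f i a ^ p ∂μ) ^ (1 / p) := by
  classical
  have hp0 : 0 < p := by linarith
  induction s using Finset.induction_on with
  | empty => simp [ENNReal.zero_rpow_of_pos hp0, ENNReal.zero_rpow_of_pos (inv_pos.2 hp0)]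
  | insert i s hi ih =>
    rw [Finset.sum_insert hi]
    have e : ∀ a, ∑ j ∈ insert i s, f j a = f i a + ∑ j ∈ s, f j a := fun a =>
      Finset.sum_insert hi
    simp only [e]
    refine (ENNReal.lintegral_Lp_add_le (hf i).aemeasurable
      (Finset.measurable_sum s (fun j _ => hf j)).aemeasurable hp).trans ?_
    gcongr

variable {d : ℕ} [NeZero d] {n : ℕ}

/-- The intermediate measures of the hierarchical transport. -/
noncomputable def Mk (k : ℕ) (ω : Fin n → (Fin d → ℝ)) : Measure (Fin d → ℝ) :=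
  ∑ m ∈ Finset.range (2 ^ k), ENNReal.ofReal (cnt (tree k m : Cell d).box ω / n) •
    cm (tree k m : Cell d).a (tree k m : Cell d).l

/-- Bound for one level. -/
noncomputable def Alevel (p : ℝ) (k : ℕ) (ω : Fin n → (Fin d → ℝ)) : ℝ≥0∞ :=
  ∑ m ∈ Finset.range (2 ^ k), stepCell p k (tree k m : Cell d) ω

/-- Cost function inside a cell. -/
noncomputable def hcell (p : ℝ) (w : Cell d) (u' : Fin d → ℝ) : ℝ≥0∞ :=
  ∫⁻ u, edist (S u) (S u') ^ p ∂(cm w.a w.l)

/-- Bound for the last step. -/
noncomputable def Rlevel (p : ℝ) (k : ℕ) (ω : Fin n → (Fin d → ℝ)) : ℝ≥0∞ :=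
  ∑ m ∈ Finset.range (2 ^ k), ∫⁻ u', (tree k m : Cell d).box.indicator
    (hcell p (tree k m : Cell d)) u' ∂(empirical ω)

omit [NeZero d] in
lemma measurable_hcell (p : ℝ) (w : Cell d) : Measurable (hcell p w) := by
  unfold hcell
  have hc : Measurable (fun z : (Fin d → ℝ) × (Fin d → ℝ) => edist (S z.2) (S z.1) ^ p) :=
    ((measurable_S.comp measurable_snd).edist (measurable_S.comp measurable_fst)).pow_const p
  exact hc.lintegral_prod_right'

lemma measurable_Alevel (p : ℝ) (k : ℕ) :
    Measurable (fun ω : Fin n → (Fin d → ℝ) => Alevel p k ω) := by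
  unfold Alevel
  exact Finset.measurable_sum _ (fun m _ => measurable_stepCell p k _)

lemma measurable_Rlevel (p : ℝ) (k : ℕ) :
    Measurable (fun ω : Fin n → (Fin d → ℝ) => Rlevel p k ω) := by
  unfold Rlevel
  exact Finset.measurable_sum _ (fun m _ => measurable_empirical_lintegral
    ((measurable_hcell p _).indicator (Cell.measurableSet_box _)))

instance finite_Mk (k : ℕ) (ω : Fin n → (Fin d → ℝ)) : IsFiniteMeasure (Mk k ω) := by
  unfold Mk
  have : ∀ m : ℕ, IsFiniteMeasure (ENNReal.ofReal (cnt (tree k m : Cell d).box ω / n) •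
    cm (tree k m : Cell d).a (tree k m : Cell d).l) := fun m =>
      Measure.smul_finite _ ENNReal.ofReal_ne_top
  constructor
  rw [Measure.finsetSum_apply]
  exact ENNReal.sum_lt_top.2 (fun m _ => measure_lt_top _ _)

lemma Wpp_level {p : ℝ} (hp : 1 ≤ p) (hn : 0 < n) (k : ℕ) (ω : Fin n → (Fin d → ℝ)) :
    Wpp p ((Mk k ω).map S) ((Mk (k + 1) ω).map S) ≤ Alevel p k ω := by
  have hp0 : 0 < p := by linarith
  unfold Mk Alevel
  rw [sum_tree_succ k (fun w : Cell d => ENNReal.ofReal (cnt w.box ω / n) • cm w.a w.l),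
    map_finsetSum' _ _ measurable_S, map_finsetSum' _ _ measurable_S]
  refine (Wpp_sum_le hp0 _ _ _).trans ?_
  exact Finset.sum_le_sum (fun m _ => Wpp_step_cell hp hn (tree_good k m) ω)

lemma Wpp_leaf {p : ℝ} (hp : 1 ≤ p) (k : ℕ) (ω : Fin n → (Fin d → ℝ))
    (hω : ∀ i, ω i ∈ (root d).box) :
    Wpp p ((Mk k ω).map S) ((empirical ω).map S) ≤ Rlevel p k ω := by
  have hp0 : 0 < p := by linarith
  have hfin : IsFiniteMeasure (empirical ω) := by
    constructor
    rw [empirical_apply MeasurableSet.univ]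
    exact ENNReal.ofReal_lt_top
  have e1 : empirical ω = (empirical ω).restrict (root d).box := by
    symm
    apply Measure.restrict_eq_self_of_ae_mem
    rw [ae_iff]
    have hm : MeasurableSet ((root d).box)ᶜ := (root d).measurableSet_box.compl
    have : {a | a ∉ (root d).box} = ((root d).box)ᶜ := rfl
    rw [this, empirical_apply hm]
    have : cnt ((root d).box)ᶜ ω = 0 := by
      unfold cnt
      apply Finset.sum_eq_zero
      intro i _
      have hni : ω i ∉ ((root d).box)ᶜ := by simpa using hω i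
      exact Set.indicator_of_notMem hni _
    rw [this]; simp
  rw [e1, ← sum_restrict (empirical ω) k]
  unfold Mk Rlevel
  rw [map_finsetSum' _ _ measurable_S, map_finsetSum' _ _ measurable_S]
  refine (Wpp_sum_le hp0 _ _ _).trans ?_
  apply Finset.sum_le_sum
  intro m _
  set w : Cell d := tree k m with hw
  have hmb := w.measurableSet_box
  have hP : IsProbabilityMeasure ((cm w.a w.l).map S) :=
    Measure.isProbabilityMeasure_map measurable_S.aemeasurable
  have hmass : (((empirical ω).restrict w.box).map S) Set.univ =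
      ENNReal.ofReal (cnt w.box ω / n) := by
    rw [Measure.map_apply measurable_S MeasurableSet.univ, Set.preimage_univ,
      Measure.restrict_apply_univ, empirical_apply hmb]
  have h := Wpp_prod_le (p := p) ((cm w.a w.l).map S) (((empirical ω).restrict w.box).map S)
  rw [hmass, ← Measure.map_smul] at h
  refine h.trans (le_of_eq ?_)
  have hc : Measurable (fun z : EuclideanSpace ℝ (Fin d) × EuclideanSpace ℝ (Fin d) =>
      edist z.2 z.1 ^ p) := (measurable_snd.edist measurable_fst).pow_const p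
  rw [lintegral_map hc.lintegral_prod_right' measurable_S]
  rw [lintegral_indicator hmb]
  congr 1
  funext u'
  show ∫⁻ x, edist x (S u') ^ p ∂((cm w.a w.l).map S) = _
  have hc' : Measurable (fun x : EuclideanSpace ℝ (Fin d) => edist x (S u') ^ p) :=
    (measurable_id.edist measurable_const).pow_const p
  rw [lintegral_map hc' measurable_S]
  rfl

lemma Mk_zero (hn : 0 < n) (ω : Fin n → (Fin d → ℝ)) (hω : ∀ i, ω i ∈ (root d).box) :
    Mk 0 ω = lam d := by
  unfold Mk
  have hn' : (n:ℝ) ≠ 0 := by exact_mod_cast hn.ne'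
  simp only [pow_zero, Finset.range_one, Finset.sum_singleton, tree]
  rw [cnt_all hω, div_self hn', ENNReal.ofReal_one, one_smul, cm]
  have : aff (root d).a (root d).l = id := by
    funext v i
    simp [aff, root, Cell.l]
  rw [this, Measure.map_id]

/-- The random bound. -/
noncomputable def Fbound (p : ℝ) (K : ℕ) (ω : Fin n → (Fin d → ℝ)) : ℝ≥0∞ :=
  (∑ k ∈ Finset.range K, Alevel p k ω ^ (1 / p) + Rlevel p K ω ^ (1 / p)) ^ p

lemma measurable_Fbound (p : ℝ) (K : ℕ) :
    Measurable (fun ω : Fin n → (Fin d → ℝ) => Fbound p K ω) := by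
  unfold Fbound
  exact ((Finset.measurable_sum _ (fun k _ => (measurable_Alevel p k).pow_const _)).add
    ((measurable_Rlevel p K).pow_const _)).pow_const p

lemma Wpp_le_Fbound {p : ℝ} (hp : 1 ≤ p) (hn : 0 < n) (K : ℕ) (ω : Fin n → (Fin d → ℝ))
    (hω : ∀ i, ω i ∈ (root d).box) :
    Wpp p ((empirical ω).map S) ((lam d).map S) ≤ Fbound p K ω := by
  have hp0 : 0 < p := by linarith
  have hq : 0 < 1 / p := by positivity
  rw [Wpp_comm]
  have h1 : Wpp p ((lam d).map S) ((empirical ω).map S) ^ (1 / p) ≤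
      ∑ k ∈ Finset.range K, Alevel p k ω ^ (1 / p) + Rlevel p K ω ^ (1 / p) := by
    rw [← Mk_zero hn ω hω]
    refine (Wpp_triangle hp _ ((Mk K ω).map S) _).trans ?_
    apply add_le_add
    · refine (Wpp_chain hp (fun k => (Mk k ω).map S) (fun k => inferInstance) K).trans ?_
      apply Finset.sum_le_sum
      intro k _
      exact ENNReal.rpow_le_rpow (Wpp_level hp hn k ω) hq.le
    · exact ENNReal.rpow_le_rpow (Wpp_leaf hp K ω hω) hq.le
  have h2 := ENNReal.rpow_le_rpow h1 hp0.le
  rw [← ENNReal.rpow_mul, one_div, inv_mul_cancel₀ hp0.ne', ENNReal.rpow_one] at h2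
  simpa [Fbound, one_div] using h2

lemma expect_Fbound {p : ℝ} (hp : 1 ≤ p) (K : ℕ) :
    (∫⁻ ω, Fbound p K ω ∂(Measure.pi (fun _ : Fin n => lam d))) ^ (1 / p) ≤
      ∑ k ∈ Finset.range K, (∫⁻ ω, Alevel p k ω ∂(Measure.pi (fun _ : Fin n => lam d))) ^ (1 / p) +
        (∫⁻ ω, Rlevel p K ω ∂(Measure.pi (fun _ : Fin n => lam d))) ^ (1 / p) := by
  have hp0 : 0 < p := by linarith
  have e : ∀ x : ℝ≥0∞, (x ^ (1 / p)) ^ p = x := fun x => by
    rw [← ENNReal.rpow_mul, one_div, inv_mul_cancel₀ hp0.ne', ENNReal.rpow_one]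
  unfold Fbound
  refine (ENNReal.lintegral_Lp_add_le
    (Finset.measurable_sum _ (fun k _ => (measurable_Alevel p k).pow_const _)).aemeasurable
    ((measurable_Rlevel p K).pow_const _).aemeasurable hp).trans ?_
  apply add_le_add
  · refine (minkowski_sum _ hp (Finset.range K) (fun k ω => Alevel p k ω ^ (1 / p))
      (fun k => (measurable_Alevel p k).pow_const _)).trans ?_
    simp only [e]
    exact le_rfl
  · simp only [e]
    exact le_rfl

end Pool.Agent.H.MP_31d543_pr
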