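import Pool.Agent.H.MP_31d543_pr.Logit

set_option autoImplicit false

open MeasureTheory Set
open scoped ENNReal

namespace Pool.Agent.H.MP_31d543_pr

variable {d : ℕ}

/-- The uniform distribution on the unit cube. -/
noncomputable def lam (d : ℕ) : Measure (Fin d → ℝ) := Measure.pi (fun _ => lam1)

instance : IsProbabilityMeasure (lam d) := by unfold lam; infer_instance

/-- Affine map onto the box with lower corner `a` and side lengths `l`. -/
def aff (a l : Fin d → ℝ) (v : Fin d → ℝ) : Fin d → ℝ := fun i => a i + l i * v i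

lemma measurable_aff (a l : Fin d → ℝ) : Measurable (aff a l) := by
  unfold aff; fun_prop

/-- Uniform distribution on the box with lower corner `a` and side lengths `l`. -/
noncomputable def cm (a l : Fin d → ℝ) : Measure (Fin d → ℝ) := (lam d).map (aff a l)

instance (a l : Fin d → ℝ) : IsProbabilityMeasure (cm a l) :=
  Measure.isProbabilityMeasure_map (measurable_aff a l).aemeasurable

/-- The half-open box with lower corner `a` and side lengths `l`. -/
def box (a l : Fin d → ℝ) : Set (Fin d → ℝ) := Set.pi univ (fun i => Ico (a i) (a i + l i))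

lemma measurableSet_box (a l : Fin d → ℝ) : MeasurableSet (box a l) :=
  MeasurableSet.univ_pi (fun _ => measurableSet_Ico)

lemma sf_map (f : ℝ → ℝ) (hf : Measurable f) : IsProbabilityMeasure (lam1.map f) :=
  Measure.isProbabilityMeasure_map hf.aemeasurable

lemma map_coord (f : Fin d → ℝ → ℝ) (hf : ∀ i, Measurable (f i)) :
    (lam d).map (fun v i => f i (v i)) = Measure.pi (fun i => lam1.map (f i)) := by
  have : ∀ i, IsProbabilityMeasure (lam1.map (f i)) := fun i => sf_map _ (hf i)
  exact Measure.pi_map_pi (fun i => (hf i).aemeasurable)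

lemma cm_eq (a l : Fin d → ℝ) : cm a l = Measure.pi (fun i => lam1.map (fun v => a i + l i * v)) :=
  map_coord (fun i v => a i + l i * v) (fun i => by fun_prop)

lemma restrict_Ico {a l : ℝ} (ha : 0 ≤ a) (hl : 0 < l) (hal : a + l ≤ 1) :
    lam1.restrict (Ico a (a + l)) = ENNReal.ofReal l • lam1.map (fun v => a + l * v) := by
  have h := map_affine 0 1 l a hl
  rw [mul_zero, add_zero, mul_one] at h
  have h' : lam1.map (fun v => a + l * v) =
    ENNReal.ofReal l⁻¹ • volume.restrict (Ioo a (a + l)) := h
  rw [h', smul_smul, ← ENNReal.ofReal_mul hl.le, mul_inv_cancel₀ hl.ne', ENNReal.ofReal_one,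
    one_smul]
  have e1 : lam1.restrict (Ico a (a + l)) = lam1.restrict (Ioo a (a + l)) := by
    apply Measure.restrict_congr_set
    have : (Ico a (a + l) : Set ℝ) =ᵐ[volume] Ioo a (a + l) := Ioo_ae_eq_Ico.symm
    exact Filter.EventuallyEq.filter_mono this (ae_mono Measure.restrict_le_self)
  rw [e1, lam1, Measure.restrict_restrict measurableSet_Ioo, Ioo_inter_Ioo]
  congr 1
  rw [max_eq_left ha, min_eq_left hal]

lemma pi_smul' (c : Fin d → ℝ≥0∞) (μ : Fin d → Measure ℝ) [∀ i, IsProbabilityMeasure (μ i)]
    (hc : ∀ i, c i ≠ ∞) : Measure.pi (fun i => c i • μ i) = (∏ i, c i) • Measure.pi μ := by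
  have : ∀ i, IsFiniteMeasure (c i • μ i) := fun i => Measure.smul_finite _ (hc i)
  apply Measure.pi_eq
  intro s hs
  simp only [Measure.smul_apply, smul_eq_mul, Measure.pi_pi, Finset.prod_mul_distrib]

lemma restrict_box {a l : Fin d → ℝ} (ha : ∀ i, 0 ≤ a i) (hl : ∀ i, 0 < l i)
    (hal : ∀ i, a i + l i ≤ 1) :
    (lam d).restrict (box a l) = ENNReal.ofReal (∏ i, l i) • cm a l := by
  have hp : ∀ i, IsProbabilityMeasure (lam1.map (fun v => a i + l i * v)) :=
    fun i => sf_map _ (by fun_prop)
  rw [lam, box, Measure.restrict_pi_pi, cm_eq]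
  have : (fun i => lam1.restrict (Ico (a i) (a i + l i))) =
      fun i => ENNReal.ofReal (l i) • lam1.map (fun v => a i + l i * v) := by
    funext i; exact restrict_Ico (ha i) (hl i) (hal i)
  rw [this, pi_smul' _ _ (fun i => ENNReal.ofReal_ne_top),
    ENNReal.ofReal_prod_of_nonneg (fun i _ => (hl i).le)]

lemma lam_box {a l : Fin d → ℝ} (ha : ∀ i, 0 ≤ a i) (hl : ∀ i, 0 < l i)
    (hal : ∀ i, a i + l i ≤ 1) : lam d (box a l) = ENNReal.ofReal (∏ i, l i) := by
  have := congrArg (fun m => m univ) (restrict_box ha hl hal)
  simpa using this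

/-- lower half of a box in direction `i`: same corner, side `i` halved. -/
noncomputable def halfL (l : Fin d → ℝ) (i : Fin d) : Fin d → ℝ := Function.update l i (l i / 2)

/-- corner of the upper half of a box in direction `i`. -/
noncomputable def upA (a l : Fin d → ℝ) (i : Fin d) : Fin d → ℝ :=
  Function.update a i (a i + l i / 2)

/-- The map moving mass between the two halves of a box, in the coordinates of the cube. -/
noncomputable def tauC (θ : ℝ) (i : Fin d) (v : Fin d → ℝ) : Fin d → ℝ :=
  Function.update v i (tau θ (v i))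

lemma measurable_tauC (θ : ℝ) (i : Fin d) : Measurable (tauC θ i) := by
  rw [measurable_pi_iff]
  intro j
  by_cases h : j = i
  · subst h
    have := (measurable_tau θ).comp (measurable_pi_apply (X := fun _ : Fin d => ℝ) j)
    simpa [tauC, Function.comp_def] using this
  · simpa [tauC, h] using measurable_pi_apply j

lemma map_split (a l : Fin d → ℝ) (i : Fin d) {θ : ℝ} (h0 : 0 ≤ θ) (h1 : θ ≤ 1) :
    (lam d).map (fun v => aff a l (tauC θ i v)) =
      ENNReal.ofReal θ • cm a (halfL l i) +
        ENNReal.ofReal (1 - θ) • cm (upA a l i) (halfL l i) := by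
  classical
  let f : Fin d → ℝ → ℝ := fun j v => a j + l j * (if j = i then tau θ v else v)
  have hf : ∀ j, Measurable (f j) := by
    intro j
    by_cases h : j = i
    · simp only [f, h, if_true]
      exact ((measurable_tau θ).const_mul _).const_add _
    · simp only [f, h, if_false]
      fun_prop
  have e0 : (fun v => aff a l (tauC θ i v)) = fun v j => f j (v j) := by
    funext v j
    by_cases h : j = i
    · subst h; simp [aff, tauC, f]
    · simp [aff, tauC, f, h]
  have hfi : lam1.map (f i) = ENNReal.ofReal θ • lam1.map (fun v => a i + l i / 2 * v) +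
      ENNReal.ofReal (1 - θ) • lam1.map (fun v => a i + l i / 2 + l i / 2 * v) := by
    have e1 : f i = (fun v => a i + l i * v) ∘ tau θ := by
      funext v; simp [f]
    have e2 : (fun v => a i + l i * v) ∘ (fun v => v / 2) = fun v => a i + l i / 2 * v := by
      funext v; simp only [Function.comp]; ring
    have e3 : (fun v => a i + l i * v) ∘ (fun v => 1 / 2 + v / 2) =
        fun v => a i + l i / 2 + l i / 2 * v := by
      funext v; simp only [Function.comp]; ring
    rw [e1, ← Measure.map_map (by fun_prop) (measurable_tau θ), map_tau h0 h1,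
      Measure.map_add _ _ (by fun_prop), Measure.map_smul, Measure.map_smul,
      Measure.map_map (by fun_prop) (by fun_prop), Measure.map_map (by fun_prop) (by fun_prop),
      e2, e3]
  rw [e0, map_coord f hf, cm_eq, cm_eq]
  have hp1 : ∀ j, IsProbabilityMeasure (lam1.map (fun v => a j + halfL l i j * v)) :=
    fun j => sf_map _ (by fun_prop)
  have hp2 : ∀ j, IsProbabilityMeasure (lam1.map (fun v => upA a l i j + halfL l i j * v)) :=
    fun j => sf_map _ (by fun_prop)
  have hp3 : ∀ j, IsProbabilityMeasure (lam1.map (f j)) := fun j => sf_map _ (hf j)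
  apply Measure.pi_eq
  intro s hs
  simp only [Measure.add_apply, Measure.smul_apply, smul_eq_mul, Measure.pi_pi]
  rw [← Finset.mul_prod_erase Finset.univ _ (Finset.mem_univ i),
    ← Finset.mul_prod_erase Finset.univ _ (Finset.mem_univ i),
    ← Finset.mul_prod_erase Finset.univ (fun j => (lam1.map (f j)) (s j)) (Finset.mem_univ i)]
  have e1 : ∀ j ∈ Finset.univ.erase i,
      (lam1.map (fun v => a j + halfL l i j * v)) (s j) = (lam1.map (f j)) (s j) := by
    intro j hj
    have hji : j ≠ i := Finset.ne_of_mem_erase hj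
    simp [f, halfL, hji]
  have e2 : ∀ j ∈ Finset.univ.erase i,
      (lam1.map (fun v => upA a l i j + halfL l i j * v)) (s j) = (lam1.map (f j)) (s j) := by
    intro j hj
    have hji : j ≠ i := Finset.ne_of_mem_erase hj
    simp [f, halfL, upA, hji]
  rw [Finset.prod_congr rfl e1, Finset.prod_congr rfl e2, hfi]
  simp only [Measure.add_apply, Measure.smul_apply, smul_eq_mul, halfL, upA,
    Function.update_self]
  ring

end Pool.Agent.H.MP_31d543_pr
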