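import Pool.Agent.H.MP_31d543_pr.QuantileDefs
set_option autoImplicit false
open MeasureTheory ProbabilityTheory Set Filter Topology
namespace Pool.Agent.H.MP_31d543_pr

lemma pdf_eq (x : ℝ) :
    gaussianPDFReal 0 1 x = (Real.sqrt (2 * Real.pi))⁻¹ * Real.exp (-x^2/2) := by
  simp [gaussianPDFReal_def]

lemma pdf_pos (x : ℝ) : 0 < gaussianPDFReal 0 1 x := gaussianPDFReal_pos 0 1 x one_ne_zero

lemma pdf_hasDerivAt (x : ℝ) :
    HasDerivAt (gaussianPDFReal 0 1) (-x * gaussianPDFReal 0 1 x) x := by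
  have h : gaussianPDFReal 0 1 = fun x : ℝ => (Real.sqrt (2 * Real.pi))⁻¹ * Real.exp (-x^2/2) := by
    funext y; exact pdf_eq y
  rw [h]
  have h1 : HasDerivAt (fun y : ℝ => -y^2/2) (-x) x := by
    have := ((hasDerivAt_pow 2 x).neg).div_const 2
    refine this.congr_deriv ?_
    norm_num
    ring
  have h2 := (h1.exp).const_mul ((Real.sqrt (2 * Real.pi))⁻¹)
  refine h2.congr_deriv ?_
  ring

lemma pdf_continuous : Continuous (gaussianPDFReal 0 1) :=
  continuous_iff_continuousAt.2 fun x => (pdf_hasDerivAt x).continuousAt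

lemma pdf_neg (x : ℝ) : gaussianPDFReal 0 1 (-x) = gaussianPDFReal 0 1 x := by
  simp [pdf_eq]

lemma Phi_eq_integral (x : ℝ) : Phi x = ∫ t in Iic x, gaussianPDFReal 0 1 t := by
  unfold Phi
  rw [cdf_eq_real, measureReal_def, gaussianReal_apply_eq_integral 0 one_ne_zero,
    ENNReal.toReal_ofReal]
  exact integral_nonneg fun t => gaussianPDFReal_nonneg _ _ _

lemma Phi_hasDerivAt (x : ℝ) : HasDerivAt Phi (gaussianPDFReal 0 1 x) x := by
  have hi := integrable_gaussianPDFReal 0 1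
  have h : Phi = fun y => Phi x + ∫ t in x..y, gaussianPDFReal 0 1 t := by
    funext y
    rw [Phi_eq_integral, Phi_eq_integral, ← intervalIntegral.integral_Iic_sub_Iic hi.integrableOn
      hi.integrableOn]
    ring
  rw [h]
  have := intervalIntegral.integral_hasDerivAt_right (a := x) (b := x)
    (f := gaussianPDFReal 0 1) (hi.intervalIntegrable)
    (pdf_continuous.stronglyMeasurableAtFilter _ _) pdf_continuous.continuousAt
  exact this.const_add (Phi x)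

lemma Phi_continuous : Continuous Phi :=
  continuous_iff_continuousAt.2 fun x => (Phi_hasDerivAt x).continuousAt

lemma Phi_strictMono : StrictMono Phi := by
  apply strictMono_of_deriv_pos
  intro x
  rw [(Phi_hasDerivAt x).deriv]
  exact pdf_pos x

lemma Phi_tendsto_atBot : Tendsto Phi atBot (𝓝 0) := tendsto_cdf_atBot _

lemma Phi_tendsto_atTop : Tendsto Phi atTop (𝓝 1) := tendsto_cdf_atTop _

lemma Phi_mem (x : ℝ) : Phi x ∈ Ioo (0:ℝ) 1 := by
  constructor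
  · have h : 0 ≤ Phi (x - 1) := cdf_nonneg _ _
    exact lt_of_le_of_lt h (Phi_strictMono (by linarith))
  · have h : Phi (x + 1) ≤ 1 := cdf_le_one _ _
    exact lt_of_lt_of_le (Phi_strictMono (by linarith)) h

lemma Phi_surj {u : ℝ} (hu : u ∈ Ioo (0:ℝ) 1) : ∃ x, Phi x = u := by
  obtain ⟨a, ha⟩ := ((Phi_tendsto_atBot.eventually (gt_mem_nhds hu.1)).exists)
  obtain ⟨b, hb⟩ := ((Phi_tendsto_atTop.eventually (lt_mem_nhds hu.2)).exists)
  have := mem_range_of_exists_le_of_exists_ge Phi_continuous ⟨a, ha.le⟩ ⟨b, hb.le⟩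
  exact this

lemma Phi_Q {u : ℝ} (hu : u ∈ Ioo (0:ℝ) 1) : Phi (Q u) = u := by
  have h := Phi_surj hu
  unfold Q
  rw [dif_pos h]
  exact Classical.choose_spec h

lemma Q_Phi (x : ℝ) : Q (Phi x) = x := Phi_strictMono.injective (Phi_Q (Phi_mem x))

lemma Q_of_not_mem {u : ℝ} (hu : u ∉ Ioo (0:ℝ) 1) : Q u = 0 := by
  unfold Q
  rw [dif_neg]
  rintro ⟨x, rfl⟩
  exact hu (Phi_mem x)

/-- `Q u ≤ x ↔ u ≤ Phi x` on `(0,1)`. -/
lemma Q_le_iff {u : ℝ} (hu : u ∈ Ioo (0:ℝ) 1) (x : ℝ) : Q u ≤ x ↔ u ≤ Phi x := by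
  rw [← Phi_strictMono.le_iff_le, Phi_Q hu]

lemma Q_lt_iff {u : ℝ} (hu : u ∈ Ioo (0:ℝ) 1) (x : ℝ) : Q u < x ↔ u < Phi x := by
  rw [← Phi_strictMono.lt_iff_lt, Phi_Q hu]

lemma Q_strictMonoOn : StrictMonoOn Q (Ioo 0 1) := by
  intro u hu v hv huv
  rw [Q_lt_iff hu, Phi_Q hv]
  exact huv

lemma Q_mono {u v : ℝ} (hu : 0 < u) (huv : u ≤ v) (hv : v < 1) : Q u ≤ Q v := by
  exact Q_strictMonoOn.monotoneOn ⟨hu, lt_of_le_of_lt huv hv⟩ ⟨lt_of_lt_of_le hu huv, hv⟩ huv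

lemma Q_measurable : Measurable Q := by
  apply measurable_of_Iic
  intro x
  have h : Q ⁻¹' Iic x = (Ioo (0:ℝ) 1 ∩ Iic (Phi x)) ∪ ((Ioo (0:ℝ) 1)ᶜ ∩ {_u | (0:ℝ) ≤ x}) := by
    ext u
    by_cases hu : u ∈ Ioo (0:ℝ) 1
    · simp [hu, Q_le_iff hu]
    · simp [hu, Q_of_not_mem hu]
  rw [h]
  exact (measurableSet_Ioo.inter measurableSet_Iic).union
    (measurableSet_Ioo.compl.inter (MeasurableSet.const _))

lemma map_Q : (volume.restrict (Ioo (0:ℝ) 1)).map Q = gaussianReal 0 1 := by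
  have : IsProbabilityMeasure (volume.restrict (Ioo (0:ℝ) 1)) := ⟨by simp⟩
  have : IsProbabilityMeasure ((volume.restrict (Ioo (0:ℝ) 1)).map Q) :=
    Measure.isProbabilityMeasure_map Q_measurable.aemeasurable
  apply Measure.ext_of_Iic
  intro x
  rw [Measure.map_apply Q_measurable measurableSet_Iic,
    Measure.restrict_apply (Q_measurable measurableSet_Iic), ← ofReal_cdf]
  have h : Q ⁻¹' Iic x ∩ Ioo (0:ℝ) 1 = Ioc 0 (Phi x) := by
    ext u
    constructor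
    · rintro ⟨h1, h2⟩
      exact ⟨h2.1, (Q_le_iff h2 x).1 h1⟩
    · rintro ⟨h1, h2⟩
      have h3 : u ∈ Ioo (0:ℝ) 1 := ⟨h1, lt_of_le_of_lt h2 (Phi_mem x).2⟩
      exact ⟨(Q_le_iff h3 x).2 h2, h3⟩
  rw [h, Real.volume_Ioc, sub_zero]
  rfl

lemma Phi_measurable : Measurable Phi := Phi_continuous.measurable

lemma map_Phi : (gaussianReal 0 1).map Phi = volume.restrict (Ioo (0:ℝ) 1) := by
  rw [← map_Q, Measure.map_map Phi_measurable Q_measurable]
  have h : (Phi ∘ Q) =ᵐ[volume.restrict (Ioo (0:ℝ) 1)] id := by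
    filter_upwards [ae_restrict_mem measurableSet_Ioo] with u hu
    simp [Phi_Q hu]
  rw [Measure.map_congr h, Measure.map_id]

lemma Iso_eq {u : ℝ} (hu : u ∈ Ioo (0:ℝ) 1) : Iso u = gaussianPDFReal 0 1 (Q u) := by
  unfold Iso
  exact if_pos hu

lemma Iso_of_not_mem {u : ℝ} (hu : u ∉ Ioo (0:ℝ) 1) : Iso u = 0 := by
  unfold Iso
  exact if_neg hu

lemma Iso_nonneg (u : ℝ) : 0 ≤ Iso u := by
  by_cases hu : u ∈ Ioo (0:ℝ) 1
  · rw [Iso_eq hu]; exact (pdf_pos _).le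
  · rw [Iso_of_not_mem hu]

lemma Iso_pos {u : ℝ} (hu : u ∈ Ioo (0:ℝ) 1) : 0 < Iso u := by
  rw [Iso_eq hu]; exact pdf_pos _

lemma Phi_neg (x : ℝ) : Phi (-x) = 1 - Phi x := by
  have hd : ∀ y : ℝ, HasDerivAt (fun y => Phi (-y) + Phi y) 0 y := by
    intro y
    have h1 := (Phi_hasDerivAt (-y)).comp y (hasDerivAt_neg y)
    have h2 := h1.add (Phi_hasDerivAt y)
    refine h2.congr_deriv ?_
    rw [pdf_neg]; ring
  have hc : ∀ y, Phi (-y) + Phi y = Phi (-x) + Phi x := fun y =>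
    is_const_of_deriv_eq_zero (f := fun y => Phi (-y) + Phi y)
      (fun y => (hd y).differentiableAt) (fun y => (hd y).deriv) y x
  have ht : Tendsto (fun y => Phi (-y) + Phi y) atTop (𝓝 (0 + 1)) :=
    (Phi_tendsto_atBot.comp tendsto_neg_atTop_atBot).add Phi_tendsto_atTop
  have ht2 : Tendsto (fun y => Phi (-y) + Phi y) atTop (𝓝 (Phi (-x) + Phi x)) := by
    simp_rw [hc]
    exact tendsto_const_nhds
  have := tendsto_nhds_unique ht ht2
  linarith

lemma Q_symm (u : ℝ) : Q (1 - u) = - Q u := by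
  by_cases hu : u ∈ Ioo (0:ℝ) 1
  · have h1 : (1 - u) ∈ Ioo (0:ℝ) 1 := ⟨by linarith [hu.2], by linarith [hu.1]⟩
    apply Phi_strictMono.injective
    rw [Phi_Q h1, Phi_neg, Phi_Q hu]
  · have h1 : (1 - u) ∉ Ioo (0:ℝ) 1 := fun h => hu ⟨by linarith [h.2], by linarith [h.1]⟩
    rw [Q_of_not_mem hu, Q_of_not_mem h1, neg_zero]

lemma Iso_symm (u : ℝ) : Iso (1 - u) = Iso u := by
  by_cases hu : u ∈ Ioo (0:ℝ) 1
  · have h1 : (1 - u) ∈ Ioo (0:ℝ) 1 := ⟨by linarith [hu.2], by linarith [hu.1]⟩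
    rw [Iso_eq hu, Iso_eq h1, Q_symm, pdf_neg]
  · have h1 : (1 - u) ∉ Ioo (0:ℝ) 1 := fun h => hu ⟨by linarith [h.2], by linarith [h.1]⟩
    rw [Iso_of_not_mem hu, Iso_of_not_mem h1]

lemma Q_surj (x : ℝ) : ∃ u ∈ Ioo (0:ℝ) 1, Q u = x := ⟨Phi x, Phi_mem x, Q_Phi x⟩

lemma Q_continuousAt {u : ℝ} (hu : u ∈ Ioo (0:ℝ) 1) : ContinuousAt Q u := by
  apply Q_strictMonoOn.continuousAt_of_image_mem_nhds (isOpen_Ioo.mem_nhds hu)
  have : Q '' Ioo (0:ℝ) 1 = univ := by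
    ext x
    simp only [mem_image, mem_univ, iff_true]
    exact Q_surj x
  rw [this]
  exact univ_mem

lemma Q_hasDerivAt {u : ℝ} (hu : u ∈ Ioo (0:ℝ) 1) :
    HasDerivAt Q (Iso u)⁻¹ u := by
  rw [Iso_eq hu]
  apply HasDerivAt.of_local_left_inverse (Q_continuousAt hu) (Phi_hasDerivAt (Q u)) (pdf_pos _).ne'
  filter_upwards [isOpen_Ioo.mem_nhds hu] with v hv
  exact Phi_Q hv

lemma Iso_hasDerivAt {u : ℝ} (hu : u ∈ Ioo (0:ℝ) 1) : HasDerivAt Iso (-Q u) u := by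
  have h1 := (pdf_hasDerivAt (Q u)).comp u (Q_hasDerivAt hu)
  have h2 : Iso =ᶠ[𝓝 u] (gaussianPDFReal 0 1 ∘ Q) := by
    filter_upwards [isOpen_Ioo.mem_nhds hu] with v hv
    exact Iso_eq hv
  refine (h1.congr_of_eventuallyEq h2).congr_deriv ?_
  rw [Iso_eq hu, mul_assoc, mul_inv_cancel₀ (pdf_pos _).ne', mul_one]

lemma pdf_tendsto_atTop : Tendsto (gaussianPDFReal 0 1) atTop (𝓝 0) := by
  have h : gaussianPDFReal 0 1 = fun x : ℝ => (Real.sqrt (2 * Real.pi))⁻¹ * Real.exp (-(x^2/2)) := by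
    funext y; rw [pdf_eq y, neg_div]
  rw [h]
  have h1 : Tendsto (fun x : ℝ => x^2/2) atTop atTop :=
    (tendsto_pow_atTop two_ne_zero).atTop_div_const two_pos
  have h2 := (Real.tendsto_exp_neg_atTop_nhds_zero.comp h1).const_mul (Real.sqrt (2 * Real.pi))⁻¹
  simpa using h2

lemma pdf_anti {x y : ℝ} (hx : 0 ≤ x) (hxy : x ≤ y) :
    gaussianPDFReal 0 1 y ≤ gaussianPDFReal 0 1 x := by
  rw [pdf_eq, pdf_eq]
  gcongr

lemma Q_half : Q (1/2) = 0 := by
  have h := Q_symm (1/2)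
  norm_num at h
  norm_num
  linarith

lemma Iso_tendsto_zero : Tendsto Iso (𝓝 0) (𝓝 0) := by
  rw [Metric.tendsto_nhds]
  intro ε hε
  obtain ⟨x, hx0, hx⟩ := ((eventually_ge_atTop (0:ℝ)).and
    (pdf_tendsto_atTop.eventually (gt_mem_nhds hε))).exists
  have h1 : (0:ℝ) < Phi (-x) := (Phi_mem _).1
  filter_upwards [gt_mem_nhds h1] with u hu
  rw [Real.dist_eq, sub_zero, abs_of_nonneg (Iso_nonneg u)]
  by_cases hu0 : u ∈ Ioo (0:ℝ) 1
  · rw [Iso_eq hu0, ← pdf_neg]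
    refine lt_of_le_of_lt (pdf_anti hx0 ?_) hx
    have := (Q_lt_iff hu0 (-x)).2 hu
    linarith
  · rw [Iso_of_not_mem hu0]; exact hε

lemma Iso_zero : Iso 0 = 0 := Iso_of_not_mem (by simp)
lemma Iso_one : Iso 1 = 0 := Iso_of_not_mem (by simp)

lemma Iso_continuous : Continuous Iso := by
  have h0 : ContinuousAt Iso 0 := by
    unfold ContinuousAt
    rw [Iso_zero]
    exact Iso_tendsto_zero
  rw [continuous_iff_continuousAt]
  intro u
  rcases lt_trichotomy u 0 with hu | hu | hu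
  · have : Iso =ᶠ[𝓝 u] fun _ => 0 := by
      filter_upwards [gt_mem_nhds hu] with v hv
      exact Iso_of_not_mem (fun h => absurd h.1 (not_lt.2 (le_of_lt hv)))
    exact continuousAt_const.congr this.symm
  · rw [hu]; exact h0
  · rcases lt_trichotomy u 1 with hu1 | hu1 | hu1
    · exact (Iso_hasDerivAt ⟨hu, hu1⟩).continuousAt
    · have h2 : ContinuousAt (fun v => Iso (1 - v)) u := by
        have h3 : ContinuousAt (fun v : ℝ => 1 - v) u := by fun_prop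
        refine ContinuousAt.comp (g := Iso) ?_ h3
        rw [hu1, sub_self]
        exact h0
      have h4 : (fun v => Iso (1 - v)) = Iso := by
        funext v; exact Iso_symm v
      rwa [h4] at h2
    · have : Iso =ᶠ[𝓝 u] fun _ => 0 := by
        filter_upwards [lt_mem_nhds hu1] with v hv
        exact Iso_of_not_mem (fun h => absurd h.2 (not_lt.2 (le_of_lt hv)))
      exact continuousAt_const.congr this.symm

lemma Iso_concave : ConcaveOn ℝ (Icc (0:ℝ) 1) Iso := by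
  apply AntitoneOn.concaveOn_of_deriv (convex_Icc 0 1) Iso_continuous.continuousOn
  · rw [interior_Icc]
    intro u hu
    exact (Iso_hasDerivAt hu).differentiableAt.differentiableWithinAt
  · rw [interior_Icc]
    intro u hu v hv huv
    rw [(Iso_hasDerivAt hu).deriv, (Iso_hasDerivAt hv).deriv]
    exact neg_le_neg (Q_strictMonoOn.monotoneOn hu hv huv)

/-- Mills ratio bound, in the quantile variable. -/
lemma Iso_ge_mul {u : ℝ} (hu : u ∈ Ioo (0:ℝ) 1) : (-Q u) * u ≤ Iso u := by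
  obtain ⟨c, hc, hc'⟩ := exists_hasDerivAt_eq_slope Iso (fun v => -Q v) hu.1
    Iso_continuous.continuousOn (fun v hv => Iso_hasDerivAt ⟨hv.1, hv.2.trans hu.2⟩)
  rw [Iso_zero, sub_zero, sub_zero] at hc'
  have h1 : Iso u = (-Q c) * u := by
    rw [hc']; field_simp [hu.1.ne']
  rw [h1]
  have h2 : Q c ≤ Q u := Q_mono hc.1 hc.2.le hu.2
  exact mul_le_mul_of_nonneg_right (neg_le_neg h2) hu.1.le

lemma Phi_neg_ge {x : ℝ} (hx : 0 ≤ x) : gaussianPDFReal 0 1 (x + 1) ≤ Phi (-x) := by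
  obtain ⟨c, hc, hc'⟩ := exists_hasDerivAt_eq_slope Phi (gaussianPDFReal 0 1)
    (show -x - 1 < -x by linarith) Phi_continuous.continuousOn (fun v _ => Phi_hasDerivAt v)
  have h1 : -x - (-x - 1) = 1 := by ring
  rw [h1, div_one] at hc'
  have h2 : gaussianPDFReal 0 1 (x + 1) ≤ gaussianPDFReal 0 1 c := by
    rw [← pdf_neg c]
    exact pdf_anti (by linarith [hc.2]) (by linarith [hc.1])
  have h3 := (Phi_mem (-x - 1)).1
  linarith

lemma Iso_growth_aux : ∃ c : ℝ, 0 < c ∧ ∀ k : ℕ,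
    c * ((2:ℝ)^k)⁻¹ * Real.sqrt (k+1) ≤ Iso (((2:ℝ)^(k+1))⁻¹) := by
  set c0 : ℝ := min (gaussianPDFReal 0 1 1) (1/2) with hc0
  have hc0pos : 0 < c0 := lt_min (pdf_pos 1) (by norm_num)
  set A : ℝ := (1/2 + |Real.log (Real.sqrt (2 * Real.pi))|) / Real.log 2 with hA
  have hlog2 : 0 < Real.log 2 := Real.log_pos (by norm_num)
  have hApos : 0 < A := by positivity
  refine ⟨c0 / (2 * Real.sqrt A), by positivity, fun k => ?_⟩
  set u : ℝ := ((2:ℝ)^(k+1))⁻¹ with hu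
  have hu0 : 0 < u := by positivity
  have hu12 : u ≤ 1/2 := by
    rw [hu, pow_succ, mul_inv, one_div]
    have : ((2:ℝ)^k)⁻¹ ≤ 1 := inv_le_one_of_one_le₀ (one_le_pow₀ (by norm_num))
    nlinarith
  have hu1 : u ∈ Ioo (0:ℝ) 1 := ⟨hu0, by linarith⟩
  have h2u : ((2:ℝ)^k)⁻¹ = 2 * u := by
    rw [hu, pow_succ, mul_inv]; ring
  set x : ℝ := -Q u with hx
  have hx0 : 0 ≤ x := by
    have := Q_mono hu0 hu12 (by norm_num)
    rw [Q_half] at this
    linarith
  -- the bound Iso u ≥ c0 (1 + x) u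
  have hI : c0 * (1 + x) * u ≤ Iso u := by
    rcases le_total x 1 with h | h
    · have h1 : gaussianPDFReal 0 1 1 ≤ Iso u := by
        rw [Iso_eq hu1, ← pdf_neg (Q u)]
        exact pdf_anti hx0 h
      have h2 : c0 ≤ gaussianPDFReal 0 1 1 := min_le_left _ _
      have h3 : (1 + x) * u ≤ 1 := by nlinarith
      calc c0 * (1 + x) * u = c0 * ((1 + x) * u) := by ring
        _ ≤ c0 * 1 := by gcongr
        _ ≤ Iso u := by linarith
    · have h1 := Iso_ge_mul hu1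
      have h2 : c0 ≤ 1/2 := min_le_right _ _
      calc c0 * (1 + x) * u ≤ (1/2) * (x + x) * u := by gcongr
        _ = (-Q u) * u := by rw [hx]; ring
        _ ≤ Iso u := h1
  -- the bound (k+1) ≤ A (1+x)^2
  have hk : ((k:ℝ) + 1) ≤ A * (1 + x)^2 := by
    have h1 : gaussianPDFReal 0 1 (x + 1) ≤ u := by
      have := Phi_neg_ge hx0
      rwa [hx, neg_neg, Phi_Q hu1] at this
    have h2 := Real.log_le_log (pdf_pos _) h1
    rw [pdf_eq, Real.log_mul (by positivity) (Real.exp_pos _).ne', Real.log_exp, Real.log_inv, hu,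
      Real.log_inv, Real.log_pow] at h2
    push_cast at h2
    have h3 : ((k:ℝ) + 1) * Real.log 2 ≤ (1/2) * (1 + x)^2 + |Real.log (Real.sqrt (2 * Real.pi))| := by
      have := le_abs_self (Real.log (Real.sqrt (2 * Real.pi)))
      nlinarith
    have h4 : (1:ℝ) ≤ (1 + x)^2 := by nlinarith
    have h5 : (1/2) * (1 + x)^2 + |Real.log (Real.sqrt (2 * Real.pi))| ≤
        (1/2 + |Real.log (Real.sqrt (2 * Real.pi))|) * (1 + x)^2 := by
      have := abs_nonneg (Real.log (Real.sqrt (2 * Real.pi)))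
      nlinarith
    rw [hA, div_mul_eq_mul_div, le_div_iff₀ hlog2]
    linarith
  have hs : Real.sqrt ((k:ℝ) + 1) ≤ Real.sqrt A * (1 + x) := by
    calc Real.sqrt ((k:ℝ) + 1) ≤ Real.sqrt (A * (1 + x)^2) := Real.sqrt_le_sqrt hk
      _ = Real.sqrt A * (1 + x) := by
        rw [Real.sqrt_mul hApos.le, Real.sqrt_sq (by linarith)]
  have hsA : 0 < Real.sqrt A := Real.sqrt_pos.2 hApos
  calc c0 / (2 * Real.sqrt A) * ((2:ℝ)^k)⁻¹ * Real.sqrt ((k:ℝ) + 1)
      ≤ c0 / (2 * Real.sqrt A) * ((2:ℝ)^k)⁻¹ * (Real.sqrt A * (1 + x)) := by gcongr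
    _ = c0 * (1 + x) * u := by rw [h2u]; field_simp
    _ ≤ Iso u := hI

/-- growth of the profile: `I(m) ≥ c 2^{-k} sqrt(k+1)` for `m ∈ [2^{-(k+1)}, 1 - 2^{-(k+1)}]` -/
lemma Iso_growth : ∃ c : ℝ, 0 < c ∧ ∀ k : ℕ, ∀ m ∈ Icc (((2:ℝ)^(k+1))⁻¹) (1 - ((2:ℝ)^(k+1))⁻¹),
    c * ((2:ℝ)^k)⁻¹ * Real.sqrt (k+1) ≤ Iso m := by
  obtain ⟨c, hc, h⟩ := Iso_growth_aux
  refine ⟨c, hc, fun k m hm => (h k).trans ?_⟩
  have hu0 : 0 < ((2:ℝ)^(k+1))⁻¹ := by positivity
  have hu1 : ((2:ℝ)^(k+1))⁻¹ ≤ 1 := inv_le_one_of_one_le₀ (one_le_pow₀ (by norm_num))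
  have := Iso_concave.min_le_of_mem_Icc (x := ((2:ℝ)^(k+1))⁻¹) (y := 1 - ((2:ℝ)^(k+1))⁻¹) (z := m)
    ⟨hu0.le, hu1⟩ ⟨by linarith, by linarith⟩ hm
  rwa [Iso_symm, min_self] at this

lemma Iso_interval {α l v : ℝ} (hα : 0 ≤ α) (hl : 0 < l) (hαl : α + l ≤ 1) (hv0 : 0 < v)
    (hv1 : v < 1) : 2 * Iso (α + l / 2) * (v * (1 - v)) ≤ Iso (α + l * v) := by
  have hm := Iso_nonneg (α + l / 2)
  rcases le_total v (1/2) with h | h
  · have h1 := Iso_concave.2 (show α ∈ Icc (0:ℝ) 1 from ⟨hα, by linarith⟩)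
      (show α + l / 2 ∈ Icc (0:ℝ) 1 from ⟨by linarith, by linarith⟩)
      (show 0 ≤ 1 - 2 * v by linarith) (show 0 ≤ 2 * v by linarith) (by ring)
    simp only [smul_eq_mul] at h1
    have h2 : (1 - 2 * v) * α + 2 * v * (α + l / 2) = α + l * v := by ring
    rw [h2] at h1
    have h3 := mul_nonneg (show 0 ≤ 1 - 2 * v by linarith) (Iso_nonneg α)
    have h4 : 2 * Iso (α + l / 2) * (v * (1 - v)) ≤ 2 * v * Iso (α + l / 2) := by
      have : 0 ≤ Iso (α + l / 2) * (v * v) := by positivity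
      nlinarith
    linarith
  · have h1 := Iso_concave.2 (show α + l ∈ Icc (0:ℝ) 1 from ⟨by linarith, by linarith⟩)
      (show α + l / 2 ∈ Icc (0:ℝ) 1 from ⟨by linarith, by linarith⟩)
      (show 0 ≤ 2 * v - 1 by linarith) (show 0 ≤ 2 * (1 - v) by linarith)
      (by ring)
    simp only [smul_eq_mul] at h1
    have h2 : (2 * v - 1) * (α + l) + 2 * (1 - v) * (α + l / 2) = α + l * v := by ring
    rw [h2] at h1
    have h3 := mul_nonneg (show 0 ≤ 2 * v - 1 by linarith) (Iso_nonneg (α + l))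
    have h4 : 2 * Iso (α + l / 2) * (v * (1 - v)) ≤ 2 * (1 - v) * Iso (α + l / 2) := by
      have : 0 ≤ Iso (α + l / 2) * ((1 - v) * (1 - v)) := by
        have : 0 ≤ 1 - v := by linarith
        positivity
      nlinarith
    linarith

lemma Q_sub_le {α l v w : ℝ} (hα : 0 ≤ α) (hl : 0 < l) (hαl : α + l ≤ 1) (hw : 0 < w)
    (hwv : w ≤ v) (hv : v < 1) : Q (α + l * v) - Q (α + l * w) ≤
      scale α l * (Real.log (v / (1 - v)) - Real.log (w / (1 - w))) := by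
  have hm : 0 < Iso (α + l / 2) := Iso_pos ⟨by linarith, by linarith⟩
  have hmem : ∀ y ∈ Ioo (0:ℝ) 1, α + l * y ∈ Ioo (0:ℝ) 1 := by
    intro y hy
    have h1 : 0 < l * y := mul_pos hl hy.1
    have h2 : l * y < l := by nlinarith [hy.2]
    exact ⟨by linarith, by linarith⟩
  have hd : ∀ y ∈ Ioo (0:ℝ) 1, HasDerivAt
      (fun y => scale α l * Real.log (y / (1 - y)) - Q (α + l * y))
      (scale α l * (1 / (y * (1 - y))) - (Iso (α + l * y))⁻¹ * l) y := by
    intro y hy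
    have hy1 : (1 - y) ≠ 0 := by linarith [hy.2]
    have h1 : HasDerivAt (fun y : ℝ => y / (1 - y)) (1 / (1 - y)^2) y := by
      have := (hasDerivAt_id y).div ((hasDerivAt_id y).const_sub 1) hy1
      refine this.congr_deriv ?_
      simp only [id]
      congr 1
      ring
    have h2 := h1.log (div_pos hy.1 (by linarith [hy.2])).ne'
    have h3 : HasDerivAt (fun y : ℝ => α + l * y) l y := by
      have := ((hasDerivAt_id y).const_mul l).const_add α
      simpa using this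
    have h4 := (Q_hasDerivAt (hmem y hy)).comp y h3
    refine ((h2.const_mul (scale α l)).sub h4).congr_deriv ?_
    have hy0 : y ≠ 0 := hy.1.ne'
    congr 2
    field_simp
  have hmono : MonotoneOn (fun y => scale α l * Real.log (y / (1 - y)) - Q (α + l * y))
      (Ioo 0 1) := by
    apply monotoneOn_of_deriv_nonneg (convex_Ioo 0 1)
    · intro y hy; exact (hd y hy).continuousAt.continuousWithinAt
    · rw [interior_Ioo]; intro y hy; exact (hd y hy).differentiableAt.differentiableWithinAt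
    · rw [interior_Ioo]; intro y hy
      rw [(hd y hy).deriv]
      have h1 := Iso_interval hα hl hαl hy.1 hy.2
      have h2 : 0 < y * (1 - y) := mul_pos hy.1 (by linarith [hy.2])
      have h3 : (Iso (α + l * y))⁻¹ ≤ (2 * Iso (α + l / 2) * (y * (1 - y)))⁻¹ :=
        inv_anti₀ (by positivity) h1
      have h4 : scale α l * (1 / (y * (1 - y))) = (2 * Iso (α + l / 2) * (y * (1 - y)))⁻¹ * l := by
        unfold scale
        field_simp
      rw [h4]
      nlinarith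
  have := hmono ⟨hw, lt_of_le_of_lt hwv hv⟩ ⟨lt_of_lt_of_le hw hwv, hv⟩ hwv
  simp only at this
  linarith

end Pool.Agent.H.MP_31d543_pr
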