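import Pool.Agent.H.MP_31d543_pr.Defs

set_option autoImplicit false

open MeasureTheory ProbabilityTheory
open scoped ENNReal

namespace Pool.Agent.H.MP_31d543_pr

section Basic

variable {E : Type*} [MeasurableSpace E] [PseudoEMetricSpace E] {p : ℝ}

lemma Wpp_le_of_coupling {μ ν : Measure E} (π : Measure (E × E)) (h1 : π.map Prod.fst = μ)
    (h2 : π.map Prod.snd = ν) : Wpp p μ ν ≤ ∫⁻ z, edist z.1 z.2 ^ p ∂π :=
  iInf₂_le_of_le π h1 (iInf_le _ h2)

lemma Wpp_map_le {α : Type*} [MeasurableSpace α] (m : Measure α) {f g : α → E}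
    (hf : Measurable f) (hg : Measurable g) :
    Wpp p (m.map f) (m.map g) ≤ ∫⁻ a, edist (f a) (g a) ^ p ∂m := by
  have hfg : Measurable (fun a => (f a, g a)) := hf.prodMk hg
  refine (Wpp_le_of_coupling (m.map (fun a => (f a, g a))) ?_ ?_).trans (lintegral_map_le _ _)
  · rw [Measure.map_map measurable_fst hfg]; rfl
  · rw [Measure.map_map measurable_snd hfg]; rfl

lemma Wpp_self (hp : 0 < p) (μ : Measure E) : Wpp p μ μ = 0 := by
  have h := Wpp_map_le (p := p) μ (f := id) (g := id) measurable_id measurable_id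
  simp only [Measure.map_id, id, edist_self, ENNReal.zero_rpow_of_pos hp, lintegral_zero] at h
  exact le_antisymm h bot_le

lemma Wpp_add_le (μ₁ μ₂ ν₁ ν₂ : Measure E) :
    Wpp p (μ₁ + μ₂) (ν₁ + ν₂) ≤ Wpp p μ₁ ν₁ + Wpp p μ₂ ν₂ := by
  conv_rhs => unfold Wpp
  simp only [ENNReal.iInf_add, ENNReal.add_iInf]
  refine le_iInf fun π₁ => le_iInf fun h₁ => le_iInf fun h₁' => ?_
  refine le_iInf fun π₂ => le_iInf fun h₂ => le_iInf fun h₂' => ?_
  refine (Wpp_le_of_coupling (π₂ + π₁) ?_ ?_).trans ?_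
  · rw [Measure.map_add _ _ measurable_fst, h₁, h₂]
  · rw [Measure.map_add _ _ measurable_snd, h₁', h₂']
  · rw [lintegral_add_measure]

lemma Wpp_sum_le {ι : Type*} (hp : 0 < p) (s : Finset ι) (μ ν : ι → Measure E) :
    Wpp p (∑ i ∈ s, μ i) (∑ i ∈ s, ν i) ≤ ∑ i ∈ s, Wpp p (μ i) (ν i) := by
  classical
  induction s using Finset.induction_on with
  | empty => simp [Wpp_self hp]
  | insert i s hi ih =>
    rw [Finset.sum_insert hi, Finset.sum_insert hi, Finset.sum_insert hi]
    exact (Wpp_add_le _ _ _ _).trans (by gcongr)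

end Basic

section Polish

variable {E : Type*} [MeasurableSpace E] [PseudoEMetricSpace E] [OpensMeasurableSpace E]
  [SecondCountableTopology E] {p : ℝ}

lemma measurable_cost : Measurable (fun z : E × E => edist z.1 z.2 ^ p) :=
  (measurable_fst.edist measurable_snd).pow_const p

lemma Wpp_prod_le (P ν : Measure E) [IsProbabilityMeasure P] [SFinite ν] :
    Wpp p (ν Set.univ • P) ν ≤ ∫⁻ y, ∫⁻ x, edist x y ^ p ∂P ∂ν := by
  refine (Wpp_le_of_coupling (P.prod ν) ?_ ?_).trans ?_
  · rw [Measure.map_fst_prod]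
  · rw [Measure.map_snd_prod]; simp
  · rw [lintegral_prod_symm _ measurable_cost.aemeasurable]

variable [StandardBorelSpace E] [Nonempty E]

lemma cost_triangle (hp : 1 ≤ p) (π₁ π₂ : Measure (E × E)) [IsFiniteMeasure π₁]
    [IsFiniteMeasure π₂] (h : π₁.map Prod.snd = π₂.map Prod.fst) :
    Wpp p (π₁.map Prod.fst) (π₂.map Prod.snd) ^ (1 / p) ≤
      (∫⁻ z, edist z.1 z.2 ^ p ∂π₁) ^ (1 / p) + (∫⁻ z, edist z.1 z.2 ^ p ∂π₂) ^ (1 / p) := by
  have hp0 : 0 < p := by linarith
  let κ : Kernel E E := π₂.condKernel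
  let M : Measure ((E × E) × E) := π₁ ⊗ₘ (κ.comap Prod.snd measurable_snd)
  have hM1 : M.map Prod.fst = π₁ := Measure.fst_compProd _ _
  have hM2 : M.map (fun w => (w.1.2, w.2)) = π₂ := by
    have hmeas : Measurable (fun w : (E × E) × E => (w.1.2, w.2)) :=
      (measurable_snd.comp measurable_fst).prodMk measurable_snd
    conv_rhs => rw [← π₂.disintegrate π₂.condKernel]
    ext s hs
    rw [Measure.map_apply hmeas hs, Measure.compProd_apply (hmeas hs),
      Measure.compProd_apply hs]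
    have : π₂.fst = π₁.map Prod.snd := h.symm
    rw [this, lintegral_map (Kernel.measurable_kernel_prodMk_left hs) measurable_snd]
    rfl
  have hm13 : Measurable (fun w : (E × E) × E => (w.1.1, w.2)) :=
    (measurable_fst.comp measurable_fst).prodMk measurable_snd
  have hm23 : Measurable (fun w : (E × E) × E => (w.1.2, w.2)) :=
    (measurable_snd.comp measurable_fst).prodMk measurable_snd
  have hc1 : (M.map (fun w : (E × E) × E => (w.1.1, w.2))).map Prod.fst = π₁.map Prod.fst := by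
    rw [Measure.map_map measurable_fst hm13]
    conv_rhs => rw [← hM1]
    rw [Measure.map_map measurable_fst measurable_fst]
    rfl
  have hc2 : (M.map (fun w : (E × E) × E => (w.1.1, w.2))).map Prod.snd = π₂.map Prod.snd := by
    rw [Measure.map_map measurable_snd hm13]
    conv_rhs => rw [← hM2]
    rw [Measure.map_map measurable_snd hm23]
    rfl
  have h1 : ∫⁻ z, edist z.1 z.2 ^ p ∂π₁ = ∫⁻ w, edist w.1.1 w.1.2 ^ p ∂M := by
    conv_lhs => rw [← hM1]
    rw [lintegral_map measurable_cost measurable_fst]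
  have h2 : ∫⁻ z, edist z.1 z.2 ^ p ∂π₂ = ∫⁻ w, edist w.1.2 w.2 ^ p ∂M := by
    conv_lhs => rw [← hM2]
    rw [lintegral_map measurable_cost hm23]
  have m12 : Measurable (fun w : (E × E) × E => edist w.1.1 w.1.2) :=
    (measurable_fst.comp measurable_fst).edist (measurable_snd.comp measurable_fst)
  have m23 : Measurable (fun w : (E × E) × E => edist w.1.2 w.2) :=
    (measurable_snd.comp measurable_fst).edist measurable_snd
  calc Wpp p (π₁.map Prod.fst) (π₂.map Prod.snd) ^ (1 / p)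
      ≤ (∫⁻ w, edist w.1.1 w.2 ^ p ∂M) ^ (1 / p) := by
        apply ENNReal.rpow_le_rpow _ (by positivity)
        exact (Wpp_le_of_coupling _ hc1 hc2).trans (lintegral_map_le _ _)
    _ ≤ (∫⁻ w, (edist w.1.1 w.1.2 + edist w.1.2 w.2) ^ p ∂M) ^ (1 / p) := by
        apply ENNReal.rpow_le_rpow _ (by positivity)
        apply lintegral_mono
        intro w
        exact ENNReal.rpow_le_rpow (edist_triangle _ _ _) hp0.le
    _ ≤ (∫⁻ w, edist w.1.1 w.1.2 ^ p ∂M) ^ (1 / p) + (∫⁻ w, edist w.1.2 w.2 ^ p ∂M) ^ (1 / p) :=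
        ENNReal.lintegral_Lp_add_le m12.aemeasurable m23.aemeasurable hp
    _ = _ := by rw [h1, h2]

omit [OpensMeasurableSpace E] [SecondCountableTopology E] [StandardBorelSpace E] [Nonempty E] in
lemma iInf_rpow {ι : Sort*} {q : ℝ} (hq : 0 < q) (f : ι → ℝ≥0∞) :
    (⨅ i, f i) ^ q = ⨅ i, f i ^ q :=
  (ENNReal.orderIsoRpow q hq).map_iInf f

lemma Wpp_triangle (hp : 1 ≤ p) (μ ν ρ : Measure E) [IsFiniteMeasure μ] [IsFiniteMeasure ν] :
    Wpp p μ ρ ^ (1 / p) ≤ Wpp p μ ν ^ (1 / p) + Wpp p ν ρ ^ (1 / p) := by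
  have hp0 : 0 < p := by linarith
  have hq : 0 < 1 / p := by positivity
  conv_rhs => unfold Wpp
  simp only [iInf_rpow hq, ENNReal.iInf_add, ENNReal.add_iInf]
  refine le_iInf fun π₁ => le_iInf fun h₁ => le_iInf fun h₁' => ?_
  refine le_iInf fun π₂ => le_iInf fun h₂ => le_iInf fun h₂' => ?_
  have hf1 : IsFiniteMeasure π₁ := by
    constructor
    have : π₁.map Prod.fst Set.univ < ∞ := by rw [h₁]; exact measure_lt_top _ _
    rwa [Measure.map_apply measurable_fst MeasurableSet.univ, Set.preimage_univ] at this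
  have hf2 : IsFiniteMeasure π₂ := by
    constructor
    have : π₂.map Prod.fst Set.univ < ∞ := by rw [h₂]; exact measure_lt_top _ _
    rwa [Measure.map_apply measurable_fst MeasurableSet.univ, Set.preimage_univ] at this
  have := cost_triangle hp π₂ π₁ (by rw [h₁, h₂'])
  rwa [h₂, h₁'] at this

lemma Wpp_chain (hp : 1 ≤ p) (m : ℕ → Measure E) (hm : ∀ k, IsFiniteMeasure (m k)) (K : ℕ) :
    Wpp p (m 0) (m K) ^ (1 / p) ≤ ∑ k ∈ Finset.range K, Wpp p (m k) (m (k + 1)) ^ (1 / p) := by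
  have hp0 : 0 < p := by linarith
  induction K with
  | zero => simp [Wpp_self hp0, ENNReal.zero_rpow_of_pos (inv_pos.2 hp0)]
  | succ K ih =>
    rw [Finset.sum_range_succ]
    exact (Wpp_triangle hp (m 0) (m K) (m (K + 1))).trans (by gcongr)

end Polish

end Pool.Agent.H.MP_31d543_pr
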