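import Pool.Agent.H.MP_31d543_pr.Box
import Pool.Agent.H.MP_31d543_pr.Wass
import Pool.Agent.H.MP_31d543_pr.Quantile

set_option autoImplicit false

open MeasureTheory ProbabilityTheory Set
open scoped ENNReal

namespace Pool.Agent.H.MP_31d543_pr

variable {d : ℕ}

/-- The coordinatewise quantile map from the cube to Euclidean space. -/
noncomputable def S (u : Fin d → ℝ) : EuclideanSpace ℝ (Fin d) :=
  WithLp.toLp 2 (fun i => Q (u i))

lemma measurable_S : Measurable (S : (Fin d → ℝ) → EuclideanSpace ℝ (Fin d)) := by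
  unfold S
  have h : Measurable (fun u : Fin d → ℝ => (fun i => Q (u i))) :=
    measurable_pi_lambda _ (fun i => Q_measurable.comp (measurable_pi_apply i))
  exact (WithLp.measurable_toLp 2 (Fin d → ℝ)).comp h

lemma map_S_lam : (lam d).map S = stdGaussian (EuclideanSpace ℝ (Fin d)) := by
  rw [← map_pi_eq_stdGaussian]
  have h : Measurable (fun u : Fin d → ℝ => (fun i => Q (u i))) :=
    measurable_pi_lambda _ (fun i => Q_measurable.comp (measurable_pi_apply i))
  have e : (S : (Fin d → ℝ) → EuclideanSpace ℝ (Fin d)) =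
      (WithLp.toLp 2) ∘ (fun u i => Q (u i)) := rfl
  rw [e, ← Measure.map_map (WithLp.measurable_toLp 2 (Fin d → ℝ)) h]
  congr 1
  rw [map_coord (fun _ => Q) (fun _ => Q_measurable)]
  congr 1
  funext i
  exact map_Q

lemma scale_nonneg (α l : ℝ) (hl : 0 ≤ l) : 0 ≤ scale α l :=
  div_nonneg hl (mul_nonneg (by norm_num) (Iso_nonneg _))

lemma abs_Q_sub_le {α l v w : ℝ} (hα : 0 ≤ α) (hl : 0 < l) (hαl : α + l ≤ 1)
    (hv : v ∈ Ioo (0:ℝ) 1) (hw : w ∈ Ioo (0:ℝ) 1) :
    |Q (α + l * v) - Q (α + l * w)| ≤ scale α l * |logit v - logit w| := by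
  wlog h : w ≤ v generalizing v w with H
  · have := H hw hv (le_of_not_ge h)
    rw [abs_sub_comm, abs_sub_comm (logit v)]
    exact this
  · have h1 := Q_sub_le hα hl hαl hw.1 h hv.2
    have h2 : Q (α + l * w) ≤ Q (α + l * v) := by
      apply Q_mono
      · nlinarith [mul_pos hl hw.1]
      · nlinarith
      · nlinarith [mul_lt_mul_of_pos_left hv.2 hl]
    rw [abs_of_nonneg (by linarith)]
    refine h1.trans ?_
    exact mul_le_mul_of_nonneg_left (le_abs_self _) (scale_nonneg α l hl.le)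

/-- The universal constant coming from the logit integral. -/
noncomputable def Psi (v : ℝ) : ℝ := 2 - Real.log v - Real.log (1 - v)

lemma measurable_Psi : Measurable Psi := by unfold Psi; fun_prop

noncomputable def CP (p : ℝ) : ℝ≥0∞ := ∫⁻ v, ENNReal.ofReal (Psi v) ^ p ∂lam1

lemma CP_lt_top {p : ℝ} (hp : 0 < p) : CP p < ∞ := psi_finite hp

lemma Psi_nonneg {v : ℝ} (hv : v ∈ Ioo (0:ℝ) 1) : 0 ≤ Psi v :=
  (abs_nonneg _).trans (abs_logit_le hv)

lemma ae_lam_mem : ∀ᵐ v ∂(lam d), ∀ i, v i ∈ Ioo (0:ℝ) 1 := by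
  rw [ae_all_iff]
  intro i
  have h1 : ∀ᵐ x ∂lam1, x ∈ Ioo (0:ℝ) 1 := ae_restrict_mem measurableSet_Ioo
  have h2 := (measurePreserving_eval (fun _ : Fin d => lam1) i).quasiMeasurePreserving.ae h1
  exact h2

lemma lintegral_lam_eval (i : Fin d) {f : ℝ → ℝ≥0∞} (hf : Measurable f) :
    ∫⁻ v, f (v i) ∂(lam d) = ∫⁻ x, f x ∂lam1 :=
  (measurePreserving_eval (fun _ : Fin d => lam1) i).lintegral_comp hf

/-- One step of the hierarchical transport: cost of moving mass between the two halves. -/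
lemma Wpp_cell_split {p : ℝ} (hp : 0 < p) {a l : Fin d → ℝ} (ha : ∀ i, 0 ≤ a i)
    (hl : ∀ i, 0 < l i) (hal : ∀ i, a i + l i ≤ 1) (i : Fin d) {θ : ℝ} (h0 : 0 ≤ θ)
    (h1 : θ ≤ 1) :
    Wpp p ((cm a l).map S) ((ENNReal.ofReal θ • cm a (halfL l i) +
        ENNReal.ofReal (1 - θ) • cm (upA a l i) (halfL l i)).map S) ≤
      ENNReal.ofReal (2 * scale (a i) (l i) * |2 * θ - 1|) ^ p * CP p := by
  have hm : Measurable (fun v => aff a l (tauC θ i v)) :=
    (measurable_aff a l).comp (measurable_tauC θ i)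
  rw [← map_split a l i h0 h1, cm, Measure.map_map measurable_S (measurable_aff a l),
    Measure.map_map measurable_S hm]
  refine (Wpp_map_le (lam d) (measurable_S.comp (measurable_aff a l))
    (measurable_S.comp hm)).trans ?_
  have hb : ∀ᵐ v ∂(lam d), edist ((S ∘ aff a l) v)
      ((S ∘ fun v => aff a l (tauC θ i v)) v) ^ p ≤
      ENNReal.ofReal (2 * scale (a i) (l i) * |2 * θ - 1|) ^ p *
        ENNReal.ofReal (Psi (v i)) ^ p := by
    filter_upwards [ae_lam_mem] with v hv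
    have hvi := hv i
    have hτ := tau_mem h0 h1 hvi
    have h2 : dist (S (aff a l v)) (S (aff a l (tauC θ i v))) =
        |Q (a i + l i * v i) - Q (a i + l i * tau θ (v i))| := by
      rw [EuclideanSpace.dist_eq, Finset.sum_eq_single i]
      · rw [Real.sqrt_sq dist_nonneg, Real.dist_eq]
        simp [S, aff, tauC]
      · intro j _ hj
        simp [S, aff, tauC, hj]
      · simp
    rw [Function.comp, Function.comp, edist_dist, h2, ← ENNReal.mul_rpow_of_nonneg _ _ hp.le,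
      ← ENNReal.ofReal_mul (by positivity [scale_nonneg (a i) (l i) (hl i).le])]
    apply ENNReal.rpow_le_rpow _ hp.le
    apply ENNReal.ofReal_le_ofReal
    refine (abs_Q_sub_le (ha i) (hl i) (hal i) hvi hτ).trans ?_
    have h3 := logit_tau h0 h1 hvi
    rw [abs_sub_comm] at h3
    have hs := scale_nonneg (a i) (l i) (hl i).le
    calc scale (a i) (l i) * |logit (v i) - logit (tau θ (v i))|
        ≤ scale (a i) (l i) * (2 * |2 * θ - 1| * (2 - Real.log (v i) - Real.log (1 - v i))) :=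
          mul_le_mul_of_nonneg_left h3 hs
      _ = 2 * scale (a i) (l i) * |2 * θ - 1| * Psi (v i) := by unfold Psi; ring
  refine (lintegral_mono_ae hb).trans ?_
  rw [lintegral_const_mul _ (by
    exact ((measurable_Psi.comp (measurable_pi_apply i)).ennreal_ofReal).pow_const p)]
  gcongr
  have := lintegral_lam_eval (d := d) i (f := fun x => ENNReal.ofReal (Psi x) ^ p)
    (measurable_Psi.ennreal_ofReal.pow_const p)
  exact this.le

/-- Constant for the diameter bound. -/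
noncomputable def CD (d : ℕ) (p : ℝ) : ℝ≥0∞ := 2 ^ (p - 1) * (d : ℝ≥0∞) ^ (p - 1) * (2 * (d * CP p))

lemma CD_lt_top {p : ℝ} (hp : 1 ≤ p) : CD d p < ∞ := by
  unfold CD
  have h1 : CP p < ∞ := CP_lt_top (by linarith)
  have h2 : (2:ℝ≥0∞) ^ (p - 1) < ∞ := ENNReal.rpow_lt_top_of_nonneg (by linarith) (by simp)
  have h3 : (d:ℝ≥0∞) ^ (p - 1) < ∞ := ENNReal.rpow_lt_top_of_nonneg (by linarith) (by simp)
  exact ENNReal.mul_lt_top (ENNReal.mul_lt_top h2 h3)
    (ENNReal.mul_lt_top (by simp) (ENNReal.mul_lt_top (by simp) h1))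

lemma edist_S_le {a l : Fin d → ℝ} (ha : ∀ i, 0 ≤ a i)
    (hl : ∀ i, 0 < l i) (hal : ∀ i, a i + l i ≤ 1) {M : ℝ} (hM : ∀ i, scale (a i) (l i) ≤ M)
    {v w : Fin d → ℝ} (hv : ∀ i, v i ∈ Ioo (0:ℝ) 1) (hw : ∀ i, w i ∈ Ioo (0:ℝ) 1) :
    edist (S (aff a l v)) (S (aff a l w)) ≤
      ENNReal.ofReal M * (∑ i, ENNReal.ofReal (Psi (v i)) + ∑ i, ENNReal.ofReal (Psi (w i))) := by
  rcases Nat.eq_zero_or_pos d with rfl | hd
  · simp [Subsingleton.elim (S (aff a l v)) (S (aff a l w))]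
  have hM0 : 0 ≤ M := (scale_nonneg _ _ (hl ⟨0, hd⟩).le).trans (hM ⟨0, hd⟩)
  rw [← Finset.sum_add_distrib]
  have e : ∀ i : Fin d, ENNReal.ofReal (Psi (v i)) + ENNReal.ofReal (Psi (w i)) =
      ENNReal.ofReal (Psi (v i) + Psi (w i)) := fun i =>
    (ENNReal.ofReal_add (Psi_nonneg (hv i)) (Psi_nonneg (hw i))).symm
  simp only [e]
  rw [← ENNReal.ofReal_sum_of_nonneg (fun i _ => add_nonneg (Psi_nonneg (hv i))
    (Psi_nonneg (hw i))), ← ENNReal.ofReal_mul hM0, edist_dist]
  apply ENNReal.ofReal_le_ofReal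
  rw [EuclideanSpace.dist_eq]
  have h1 : ∀ i, dist ((S (aff a l v)) i) ((S (aff a l w)) i) ≤ M * (Psi (v i) + Psi (w i)) := by
    intro i
    have h2 : dist ((S (aff a l v)) i) ((S (aff a l w)) i) =
        |Q (a i + l i * v i) - Q (a i + l i * w i)| := by
      rw [Real.dist_eq]; simp [S, aff]
    rw [h2]
    refine (abs_Q_sub_le (ha i) (hl i) (hal i) (hv i) (hw i)).trans ?_
    have h3 : |logit (v i) - logit (w i)| ≤ Psi (v i) + Psi (w i) :=
      (abs_sub _ _).trans (add_le_add (abs_logit_le (hv i)) (abs_logit_le (hw i)))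
    calc scale (a i) (l i) * |logit (v i) - logit (w i)|
        ≤ M * |logit (v i) - logit (w i)| := mul_le_mul_of_nonneg_right (hM i) (abs_nonneg _)
      _ ≤ M * (Psi (v i) + Psi (w i)) := mul_le_mul_of_nonneg_left h3 hM0
  have hnn : ∀ i, 0 ≤ M * (Psi (v i) + Psi (w i)) := fun i =>
    mul_nonneg hM0 (add_nonneg (Psi_nonneg (hv i)) (Psi_nonneg (hw i)))
  rw [Finset.mul_sum]
  apply Real.sqrt_le_iff.2
  refine ⟨Finset.sum_nonneg (fun i _ => hnn i), ?_⟩
  calc ∑ i, dist ((S (aff a l v)) i) ((S (aff a l w)) i) ^ 2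
      ≤ ∑ i, (M * (Psi (v i) + Psi (w i))) ^ 2 := by
        apply Finset.sum_le_sum
        intro i _
        exact pow_le_pow_left₀ dist_nonneg (h1 i) 2
    _ ≤ (∑ i, M * (Psi (v i) + Psi (w i))) ^ 2 :=
        Finset.sum_sq_le_sq_sum_of_nonneg (fun i _ => hnn i)

lemma cell_diam {p : ℝ} (hp : 1 ≤ p) {a l : Fin d → ℝ} (ha : ∀ i, 0 ≤ a i)
    (hl : ∀ i, 0 < l i) (hal : ∀ i, a i + l i ≤ 1) {M : ℝ} (hM : ∀ i, scale (a i) (l i) ≤ M) :
    ∫⁻ u', ∫⁻ u, edist (S u) (S u') ^ p ∂(cm a l) ∂(cm a l) ≤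
      ENNReal.ofReal M ^ p * CD d p := by
  have hp0 : 0 < p := by linarith
  have hc : Measurable (fun z : (Fin d → ℝ) × (Fin d → ℝ) => edist (S z.2) (S z.1) ^ p) :=
    ((measurable_S.comp measurable_snd).edist (measurable_S.comp measurable_fst)).pow_const p
  have hmP : ∀ i : Fin d, Measurable (fun v : Fin d → ℝ => ENNReal.ofReal (Psi (v i))) :=
    fun i => (measurable_Psi.comp (measurable_pi_apply i)).ennreal_ofReal
  have hsumP : Measurable (fun v : Fin d → ℝ => ∑ i, ENNReal.ofReal (Psi (v i)) ^ p) :=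
    Finset.measurable_sum _ (fun i _ => (hmP i).pow_const p)
  have hint : ∫⁻ v, ∑ i, ENNReal.ofReal (Psi (v i)) ^ p ∂(lam d) = d * CP p := by
    rw [lintegral_finsetSum _ (fun i _ => (hmP i).pow_const p)]
    have : ∀ i : Fin d, ∫⁻ v, ENNReal.ofReal (Psi (v i)) ^ p ∂(lam d) = CP p := fun i =>
      lintegral_lam_eval (d := d) i (f := fun x => ENNReal.ofReal (Psi x) ^ p)
        (measurable_Psi.ennreal_ofReal.pow_const p)
    simp [this]
  have e1 : ∫⁻ u', ∫⁻ u, edist (S u) (S u') ^ p ∂(cm a l) ∂(cm a l) =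
      ∫⁻ w, ∫⁻ v, edist (S (aff a l v)) (S (aff a l w)) ^ p ∂(lam d) ∂(lam d) := by
    rw [cm, lintegral_map hc.lintegral_prod_right' (measurable_aff a l)]
    congr 1
    funext w
    have hc' : Measurable (fun u : Fin d → ℝ => edist (S u) (S (aff a l w)) ^ p) :=
      (measurable_S.edist measurable_const).pow_const p
    show ∫⁻ u, edist (S u) (S (aff a l w)) ^ p ∂((lam d).map (aff a l)) = _
    rw [lintegral_map hc' (measurable_aff a l)]
  rw [e1]
  calc ∫⁻ w, ∫⁻ v, edist (S (aff a l v)) (S (aff a l w)) ^ p ∂(lam d) ∂(lam d)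
      ≤ ∫⁻ w, ∫⁻ v, ENNReal.ofReal M ^ p * (2 ^ (p - 1) * (d : ℝ≥0∞) ^ (p - 1)) *
          (∑ i, ENNReal.ofReal (Psi (v i)) ^ p + ∑ i, ENNReal.ofReal (Psi (w i)) ^ p)
            ∂(lam d) ∂(lam d) := by
        apply lintegral_mono_ae
        filter_upwards [ae_lam_mem] with w hw
        apply lintegral_mono_ae
        filter_upwards [ae_lam_mem] with v hv
        refine (ENNReal.rpow_le_rpow (edist_S_le ha hl hal hM hv hw) hp0.le).trans ?_
        rw [ENNReal.mul_rpow_of_nonneg _ _ hp0.le, mul_assoc]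
        gcongr
        refine (ENNReal.rpow_add_le_mul_rpow_add_rpow _ _ hp).trans ?_
        rw [mul_assoc]
        gcongr
        rw [mul_add]
        have h1 := ENNReal.rpow_sum_le_const_mul_sum_rpow (Finset.univ : Finset (Fin d))
          (fun i => ENNReal.ofReal (Psi (v i))) hp
        have h2 := ENNReal.rpow_sum_le_const_mul_sum_rpow (Finset.univ : Finset (Fin d))
          (fun i => ENNReal.ofReal (Psi (w i))) hp
        rw [Finset.card_univ, Fintype.card_fin] at h1 h2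
        exact add_le_add h1 h2
    _ = ENNReal.ofReal M ^ p * (2 ^ (p - 1) * (d : ℝ≥0∞) ^ (p - 1)) * (d * CP p + d * CP p) := by
        have : ∀ w : Fin d → ℝ, ∫⁻ v, ENNReal.ofReal M ^ p *
            (2 ^ (p - 1) * (d : ℝ≥0∞) ^ (p - 1)) *
            (∑ i, ENNReal.ofReal (Psi (v i)) ^ p + ∑ i, ENNReal.ofReal (Psi (w i)) ^ p) ∂(lam d) =
            ENNReal.ofReal M ^ p * (2 ^ (p - 1) * (d : ℝ≥0∞) ^ (p - 1)) *
              (d * CP p + ∑ i, ENNReal.ofReal (Psi (w i)) ^ p) := by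
          intro w
          rw [lintegral_const_mul _ (hsumP.add_const _), lintegral_add_left hsumP, hint]
          simp
        simp only [this]
        rw [lintegral_const_mul _ (hsumP.const_add _), lintegral_add_right _ hsumP, hint]
        simp
    _ = ENNReal.ofReal M ^ p * CD d p := by
        unfold CD
        ring

end Pool.Agent.H.MP_31d543_pr
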