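import Pool.Agent.H.MP_31d543_pr.Density
set_option autoImplicit false
open MeasureTheory ProbabilityTheory Set
open scoped ENNReal
namespace Pool.Agent.H.MP_31d543_pr

theorem density_integrable (d : ℕ) :
    Integrable (fun x : EuclideanSpace ℝ (Fin d) =>
      (Real.sqrt (2 * Real.pi))⁻¹ ^ d * Real.exp (-‖x‖^2/2)) volume := by
  refine ⟨by fun_prop, ?_⟩
  rw [hasFiniteIntegral_iff_ofReal (Filter.Eventually.of_forall fun x => by positivity)]
  have h : stdGaussian (EuclideanSpace ℝ (Fin d)) univ = 1 := measure_univ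
  rw [stdGaussian_density, withDensity_apply _ MeasurableSet.univ, Measure.restrict_univ] at h
  rw [h]; exact ENNReal.one_lt_top

/-- the moment integral `∫_0^∞ (1+u)^k e^{-u} du` is finite -/
theorem moment_finite (k : ℝ) (hk : 0 ≤ k) :
    ∫⁻ u in Ioi (0:ℝ), ENNReal.ofReal ((1 + u)^k * Real.exp (-u)) < ∞ := by
  have hint : IntegrableOn (fun u : ℝ => (2:ℝ)^k * (Real.exp (-u) * u ^ ((1:ℝ) - 1)) +
      (2:ℝ)^k * (Real.exp (-u) * u ^ ((k + 1) - 1))) (Ioi 0) volume :=
    ((Real.GammaIntegral_convergent one_pos).const_mul _).add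
      ((Real.GammaIntegral_convergent (by linarith : (0:ℝ) < k + 1)).const_mul _)
  have hlt := hint.lintegral_lt_top
  refine lt_of_le_of_lt ?_ hlt
  refine setLIntegral_mono' measurableSet_Ioi fun u hu => ?_
  have hu' : (0:ℝ) < u := hu
  refine ENNReal.ofReal_le_ofReal ?_
  have h1 : (1 + u)^k ≤ 2^k * (1 + u^k) := by
    have hmax : 1 + u ≤ 2 * max 1 u := by
      rcases le_total 1 u with h | h
      · rw [max_eq_right h]; linarith
      · rw [max_eq_left h]; linarith
    calc (1 + u)^k ≤ (2 * max 1 u)^k := Real.rpow_le_rpow (by positivity) hmax hk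
      _ = 2^k * (max 1 u)^k := Real.mul_rpow (by norm_num) (by positivity)
      _ ≤ 2^k * (1 + u^k) := by
        refine mul_le_mul_of_nonneg_left ?_ (by positivity)
        have hupos : 0 ≤ u^k := by positivity
        rcases le_total 1 u with h | h
        · rw [max_eq_right h]; linarith
        · rw [max_eq_left h, Real.one_rpow]; linarith
  have he : 0 ≤ Real.exp (-u) := (Real.exp_pos _).le
  calc (1 + u)^k * Real.exp (-u) ≤ (2^k * (1 + u^k)) * Real.exp (-u) :=
        mul_le_mul_of_nonneg_right h1 he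
    _ = _ := by
        rw [sub_self, Real.rpow_zero, add_sub_cancel_right]; ring

theorem radial_bound (d : ℕ) (hd : 2 ≤ d) (c s : ℝ) (hc : 0 ≤ c) (hs : 0 ≤ s) :
    ∫⁻ y in Ioi (0:ℝ), ENNReal.ofReal (y ^ (d - 1) *
      (({y : ℝ | s < y^2/2}).indicator (fun y => c * Real.exp (-y^2/2)) y)) ≤
    ENNReal.ofReal (c * 2 ^ (((d:ℝ) - 2)/2) * (1 + s) ^ ((d:ℝ)/2 - 1) * Real.exp (-s)) *
      ∫⁻ u in Ioi (0:ℝ), ENNReal.ofReal ((1 + u)^(((d:ℝ) - 2)/2) * Real.exp (-u)) := by
  set k : ℝ := ((d:ℝ) - 2)/2 with hk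
  have hk0 : 0 ≤ k := by
    have : (2:ℝ) ≤ d := by exact_mod_cast hd
    rw [hk]; linarith
  have hk' : (d:ℝ)/2 - 1 = k := by rw [hk]; ring
  rw [hk']
  set S : Set ℝ := Ioi (Real.sqrt (2 * s)) with hS
  set G : ℝ → ℝ≥0∞ := fun u => ENNReal.ofReal (c * (2 * (u + s)) ^ k * Real.exp (-(u + s))) with hG
  have step1 : ∫⁻ y in Ioi (0:ℝ), ENNReal.ofReal (y ^ (d - 1) *
      (({y : ℝ | s < y^2/2}).indicator (fun y => c * Real.exp (-y^2/2)) y)) ≤
      ∫⁻ y in S, ENNReal.ofReal |y| * G (y^2/2 - s) := by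
    rw [← lintegral_indicator measurableSet_Ioi, ← lintegral_indicator measurableSet_Ioi]
    refine lintegral_mono fun y => ?_
    by_cases hy : 0 < y
    · rw [indicator_of_mem (show y ∈ Ioi (0:ℝ) from hy)]
      by_cases hy2 : s < y^2/2
      · have hyS : y ∈ Ioi (Real.sqrt (2*s)) := by
          rw [mem_Ioi, Real.sqrt_lt' hy]; linarith
        rw [indicator_of_mem (show y ∈ {y : ℝ | s < y^2/2} from hy2), indicator_of_mem hyS]
        rw [hG]
        simp only
        rw [← ENNReal.ofReal_mul (abs_nonneg _), abs_of_pos hy]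
        refine ENNReal.ofReal_le_ofReal (le_of_eq ?_)
        have e1 : 2 * (y^2/2 - s + s) = y^2 := by ring
        have e2 : (y^2) ^ k = y ^ (d - 2) := by
          rw [← Real.rpow_natCast y 2, ← Real.rpow_mul hy.le, ← Real.rpow_natCast y (d-2),
            Nat.cast_sub hd, hk]
          congr 1
          push_cast; ring
        rw [e1, e2]
        have e3 : y ^ (d - 1) = y * y ^ (d - 2) := by
          rw [← pow_succ']; congr 1; omega
        rw [e3]
        have e4 : -(y^2/2 - s + s) = -y^2/2 := by ring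
        rw [e4]; ring
      · rw [indicator_of_notMem (show y ∉ {y : ℝ | s < y^2/2} from hy2)]
        simp
    · rw [indicator_of_notMem (show y ∉ Ioi (0:ℝ) from hy)]
      exact bot_le
  have step2 : ∫⁻ y in S, ENNReal.ofReal |y| * G (y^2/2 - s) =
      ∫⁻ u in (fun y : ℝ => y^2/2 - s) '' S, G u := by
    rw [lintegral_image_eq_lintegral_abs_deriv_mul measurableSet_Ioi (f' := fun y => y)]
    · intro y _
      have : HasDerivAt (fun y : ℝ => y^2/2 - s) y y := by
        have h := ((hasDerivAt_pow 2 y).div_const 2).sub_const s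
        have e : ((2:ℕ):ℝ) * y ^ (2 - 1) / 2 = y := by
          norm_num
        rw [e] at h
        exact h
      exact this.hasDerivWithinAt
    · intro a ha b hb hab
      have ha' : 0 < a := lt_of_le_of_lt (Real.sqrt_nonneg _) ha
      have hb' : 0 < b := lt_of_le_of_lt (Real.sqrt_nonneg _) hb
      simp only at hab
      have : a^2 = b^2 := by linarith
      exact (sq_eq_sq₀ ha'.le hb'.le).1 this
  have himg : (fun y : ℝ => y^2/2 - s) '' S ⊆ Ioi 0 := by
    rintro u ⟨y, hy, rfl⟩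
    have hy0 : 0 < y := lt_of_le_of_lt (Real.sqrt_nonneg _) hy
    have := (Real.sqrt_lt' hy0).1 hy
    simp only [mem_Ioi]
    linarith
  calc _ ≤ ∫⁻ y in S, ENNReal.ofReal |y| * G (y^2/2 - s) := step1
    _ = ∫⁻ u in (fun y : ℝ => y^2/2 - s) '' S, G u := step2
    _ ≤ ∫⁻ u in Ioi (0:ℝ), G u := lintegral_mono_set himg
    _ ≤ ∫⁻ u in Ioi (0:ℝ), ENNReal.ofReal (c * 2 ^ k * (1 + s) ^ k * Real.exp (-s)) *
          ENNReal.ofReal ((1 + u)^k * Real.exp (-u)) := by
        refine setLIntegral_mono' measurableSet_Ioi fun u hu => ?_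
        have hu' : (0:ℝ) < u := hu
        rw [← ENNReal.ofReal_mul (by positivity)]
        refine ENNReal.ofReal_le_ofReal ?_
        have h1 : (2 * (u + s)) ^ k ≤ 2 ^ k * (1 + s)^k * (1 + u)^k := by
          rw [← Real.mul_rpow (by norm_num) (by positivity),
            ← Real.mul_rpow (by positivity) (by positivity)]
          refine Real.rpow_le_rpow (by positivity) ?_ hk0
          nlinarith [mul_nonneg hs hu'.le]
        have h2 : Real.exp (-(u + s)) = Real.exp (-s) * Real.exp (-u) := by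
          rw [← Real.exp_add]; congr 1; ring
        rw [h2]
        calc c * (2 * (u + s)) ^ k * (Real.exp (-s) * Real.exp (-u))
            ≤ c * (2 ^ k * (1 + s)^k * (1 + u)^k) * (Real.exp (-s) * Real.exp (-u)) := by
              gcongr
          _ = _ := by ring
    _ = _ := by
        rw [lintegral_const_mul]
        fun_prop

theorem stdGaussian_tail (d : ℕ) (hd : 2 ≤ d) : ∃ C : ℝ, 0 < C ∧ ∀ s : ℝ, 0 ≤ s →
    stdGaussian (EuclideanSpace ℝ (Fin d)) {x | s < ‖x‖^2/2} ≤
      ENNReal.ofReal (C * (1 + s)^((d:ℝ)/2 - 1) * Real.exp (-s)) := by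
  have : Nonempty (Fin d) := ⟨⟨0, by omega⟩⟩
  have hk0 : 0 ≤ ((d:ℝ) - 2)/2 := by
    have : (2:ℝ) ≤ d := by exact_mod_cast hd
    linarith
  set M := ∫⁻ u in Ioi (0:ℝ), ENNReal.ofReal ((1 + u)^(((d:ℝ) - 2)/2) * Real.exp (-u)) with hM
  have hMfin : M < ∞ := moment_finite _ hk0
  set c : ℝ := (Real.sqrt (2 * Real.pi))⁻¹ ^ d with hc
  have hc0 : 0 ≤ c := by positivity
  set V : ℝ := (volume : Measure (EuclideanSpace ℝ (Fin d))).real (Metric.ball 0 1) with hV
  have hV0 : 0 ≤ V := measureReal_nonneg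
  refine ⟨(d:ℝ) * V * (c * 2 ^ (((d:ℝ) - 2)/2) * M.toReal) + 1, by positivity, fun s hs => ?_⟩
  set f : ℝ → ℝ := ({y : ℝ | s < y^2/2}).indicator (fun y => c * Real.exp (-y^2/2)) with hf
  have hS : MeasurableSet {x : EuclideanSpace ℝ (Fin d) | s < ‖x‖^2/2} :=
    measurableSet_lt measurable_const (by fun_prop)
  have hS' : MeasurableSet {y : ℝ | s < y^2/2} :=
    measurableSet_lt measurable_const (by fun_prop)
  have hfx : ∀ x : EuclideanSpace ℝ (Fin d), ({x : EuclideanSpace ℝ (Fin d) | s < ‖x‖^2/2}).indicator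
      (fun x => c * Real.exp (-‖x‖^2/2)) x = f ‖x‖ := by
    intro x
    rw [hf]
    by_cases hx : s < ‖x‖^2/2
    · rw [indicator_of_mem (show x ∈ {x : EuclideanSpace ℝ (Fin d) | s < ‖x‖^2/2} from hx),
        indicator_of_mem (show ‖x‖ ∈ {y : ℝ | s < y^2/2} from hx)]
    · rw [indicator_of_notMem (show x ∉ {x : EuclideanSpace ℝ (Fin d) | s < ‖x‖^2/2} from hx),
        indicator_of_notMem (show ‖x‖ ∉ {y : ℝ | s < y^2/2} from hx)]
  have hf0 : ∀ y, 0 ≤ f y := fun y => indicator_nonneg (fun y _ => by positivity) y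
  have hfint : Integrable (fun x : EuclideanSpace ℝ (Fin d) => f ‖x‖) volume := by
    have := (density_integrable d).indicator hS
    refine this.congr (Filter.Eventually.of_forall fun x => ?_)
    exact hfx x
  have h1 : stdGaussian (EuclideanSpace ℝ (Fin d)) {x | s < ‖x‖^2/2} =
      ENNReal.ofReal (∫ x : EuclideanSpace ℝ (Fin d), f ‖x‖) := by
    rw [ofReal_integral_eq_lintegral_ofReal hfint (Filter.Eventually.of_forall fun x => hf0 _),
      stdGaussian_density, withDensity_apply _ hS, ← lintegral_indicator hS]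
    refine lintegral_congr fun x => ?_
    rw [← hfx x]
    by_cases hx : x ∈ {x : EuclideanSpace ℝ (Fin d) | s < ‖x‖^2/2}
    · rw [indicator_of_mem hx, indicator_of_mem hx]
    · rw [indicator_of_notMem hx, indicator_of_notMem hx]; simp
  rw [h1, integral_fun_norm_addHaar volume f]
  refine ENNReal.ofReal_le_ofReal ?_
  rw [finrank_euclideanSpace, Fintype.card_fin, nsmul_eq_mul, smul_eq_mul]
  have hJ : ∫ y in Ioi (0:ℝ), y ^ (d - 1) • f y ≤
      (c * 2 ^ (((d:ℝ) - 2)/2) * (1 + s) ^ ((d:ℝ)/2 - 1) * Real.exp (-s)) * M.toReal := by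
    rw [integral_eq_lintegral_of_nonneg_ae]
    · refine ENNReal.toReal_le_of_le_ofReal (by positivity) ?_
      have := radial_bound d hd c s hc0 hs
      rw [ENNReal.ofReal_mul (by positivity), ENNReal.ofReal_toReal hMfin.ne]
      simpa only [smul_eq_mul] using this
    · refine (ae_restrict_iff' measurableSet_Ioi).2 (Filter.Eventually.of_forall fun y hy => ?_)
      have hy' : (0:ℝ) < y := hy
      exact mul_nonneg (by positivity) (hf0 y)
    · refine Measurable.aestronglyMeasurable ?_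
      have : Measurable f := (by fun_prop : Measurable fun y : ℝ =>
        c * Real.exp (-y^2/2)).indicator hS'
      exact (measurable_id.pow_const _).smul this
  have hpos : 0 ≤ (1 + s) ^ ((d:ℝ)/2 - 1) * Real.exp (-s) := by positivity
  calc (d:ℝ) * (V * ∫ y in Ioi (0:ℝ), y ^ (d - 1) • f y)
      ≤ (d:ℝ) * (V * ((c * 2 ^ (((d:ℝ) - 2)/2) * (1 + s) ^ ((d:ℝ)/2 - 1) * Real.exp (-s)) *
        M.toReal)) := by gcongr
    _ = ((d:ℝ) * V * (c * 2 ^ (((d:ℝ) - 2)/2) * M.toReal)) *
        ((1 + s) ^ ((d:ℝ)/2 - 1) * Real.exp (-s)) := by ring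
    _ ≤ ((d:ℝ) * V * (c * 2 ^ (((d:ℝ) - 2)/2) * M.toReal) + 1) *
        ((1 + s) ^ ((d:ℝ)/2 - 1) * Real.exp (-s)) := by gcongr; linarith
    _ = _ := by ring

end Pool.Agent.H.MP_31d543_pr
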