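import Pool.Agent.H.MP_31d543_pr.Tree
import Pool.Agent.H.MP_31d543_pr.Tail

set_option autoImplicit false

open MeasureTheory ProbabilityTheory Set
open scoped ENNReal

namespace Pool.Agent.H.MP_31d543_pr

/-! ### Boxes of cells -/

variable {d : ℕ}

/-- The half-open box of a cell. -/
def Cell.box (w : Cell d) : Set (Fin d → ℝ) := Pool.Agent.H.MP_31d543_pr.box w.a w.l

lemma Cell.mem_box (w : Cell d) (u : Fin d → ℝ) :
    u ∈ w.box ↔ ∀ i, w.a i ≤ u i ∧ u i < w.a i + w.l i := by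
  simp [Cell.box, Pool.Agent.H.MP_31d543_pr.box, Set.mem_pi]

lemma Cell.measurableSet_box (w : Cell d) : MeasurableSet w.box :=
  Pool.Agent.H.MP_31d543_pr.measurableSet_box _ _

variable [NeZero d]

lemma lo_a (w : Cell d) : w.lo.a = w.a := rfl

lemma mem_lo_box (w : Cell d) (u : Fin d → ℝ) :
    u ∈ w.lo.box ↔ u ∈ w.box ∧ u w.dir < w.a w.dir + w.l w.dir / 2 := by
  rw [Cell.mem_box, Cell.mem_box, w.l_lo, lo_a]
  have hpos := w.l_pos w.dir
  constructor
  · intro h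
    refine ⟨fun i => ?_, ?_⟩
    · by_cases hi : i = w.dir
      · subst hi
        have := h w.dir
        simp only [halfL, Function.update_self] at this
        exact ⟨this.1, by linarith [this.2]⟩
      · have := h i
        simpa [halfL, hi] using this
    · have := (h w.dir).2
      simpa [halfL] using this
  · rintro ⟨h1, h2⟩ i
    by_cases hi : i = w.dir
    · subst hi
      refine ⟨(h1 _).1, ?_⟩
      simpa [halfL] using h2
    · have := h1 i
      simpa [halfL, hi] using this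

lemma mem_hi_box (w : Cell d) (u : Fin d → ℝ) :
    u ∈ w.hi.box ↔ u ∈ w.box ∧ w.a w.dir + w.l w.dir / 2 ≤ u w.dir := by
  rw [Cell.mem_box, Cell.mem_box, w.l_hi]
  have hpos := w.l_pos w.dir
  constructor
  · intro h
    have hd := h w.dir
    simp only [Cell.hi, upA, halfL, Function.update_self] at hd
    refine ⟨fun i => ?_, hd.1⟩
    by_cases hi : i = w.dir
    · subst hi
      exact ⟨by linarith [hd.1], by linarith [hd.2]⟩
    · have := h i
      simpa [halfL, Cell.hi, upA, hi] using this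
  · rintro ⟨h1, h2⟩ i
    by_cases hi : i = w.dir
    · subst hi
      simp only [Cell.hi, upA, halfL, Function.update_self]
      exact ⟨h2, by linarith [(h1 w.dir).2]⟩
    · have := h1 i
      simpa [halfL, Cell.hi, upA, hi] using this

lemma box_union (w : Cell d) : w.box = w.lo.box ∪ w.hi.box := by
  ext u
  rw [mem_union, mem_lo_box, mem_hi_box]
  constructor
  · intro h
    rcases lt_or_ge (u w.dir) (w.a w.dir + w.l w.dir / 2) with h' | h'
    · exact Or.inl ⟨h, h'⟩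
    · exact Or.inr ⟨h, h'⟩
  · rintro (h | h) <;> exact h.1

lemma box_disjoint (w : Cell d) : Disjoint w.lo.box w.hi.box := by
  rw [Set.disjoint_left]
  intro u h1 h2
  rw [mem_lo_box] at h1
  rw [mem_hi_box] at h2
  exact absurd h1.2 (not_lt.2 h2.2)

lemma restrict_split (μ : Measure (Fin d → ℝ)) (w : Cell d) :
    μ.restrict w.box = μ.restrict w.lo.box + μ.restrict w.hi.box := by
  rw [box_union w, Measure.restrict_union (box_disjoint w) w.hi.measurableSet_box]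

lemma sum_restrict (μ : Measure (Fin d → ℝ)) (k : ℕ) :
    ∑ m ∈ Finset.range (2 ^ k), μ.restrict (tree k m : Cell d).box =
      μ.restrict (root d).box := by
  induction k with
  | zero => simp [tree]
  | succ k ih =>
    rw [sum_tree_succ k (fun w : Cell d => μ.restrict w.box), ← ih]
    apply Finset.sum_congr rfl
    intro m _
    rw [restrict_split μ (tree k m)]

lemma sum_lintegral_box (μ : Measure (Fin d → ℝ)) (k : ℕ) (f : (Fin d → ℝ) → ℝ≥0∞) :
    ∑ m ∈ Finset.range (2 ^ k), ∫⁻ u in (tree k m : Cell d).box, f u ∂μ ≤ ∫⁻ u, f u ∂μ := by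
  have : ∑ m ∈ Finset.range (2 ^ k), ∫⁻ u in (tree k m : Cell d).box, f u ∂μ =
      ∫⁻ u, f u ∂(∑ m ∈ Finset.range (2 ^ k), μ.restrict (tree k m : Cell d).box) := by
    rw [lintegral_finsetSum_measure]
  rw [this, sum_restrict]
  exact setLIntegral_le_lintegral _ _

omit [NeZero d] in
lemma prod_l (w : Cell d) : ∏ i, w.l i = ((2:ℝ) ^ (∑ i, w.k i))⁻¹ := by
  simp only [Cell.l]
  rw [Finset.prod_inv_distrib, Finset.prod_pow_eq_pow_sum]

lemma lam_cell {n : ℕ} {w : Cell d} (hw : w.Good n) :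
    lam d w.box = ENNReal.ofReal ((2:ℝ) ^ n)⁻¹ := by
  rw [Cell.box, lam_box hw.a0 w.l_pos hw.al, prod_l, hw.sumk]

lemma restrict_cell {n : ℕ} {w : Cell d} (hw : w.Good n) :
    (lam d).restrict w.box = ENNReal.ofReal ((2:ℝ) ^ n)⁻¹ • cm w.a w.l := by
  rw [Cell.box, restrict_box hw.a0 w.l_pos hw.al, prod_l, hw.sumk]

/-! ### Bounds for the scale -/

/-- First constant in the scale bounds. -/
noncomputable def C1 (d : ℕ) : ℝ := d / (4 * cI ^ 2) + sig0 ^ 2

lemma sig_bound1 {n : ℕ} {w : Cell d} (hw : w.Good n) : (n + 1) * w.sig ^ 2 ≤ C1 d := by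
  have h1 : (n:ℝ) * w.sig ^ 2 ≤ d / (4 * cI ^ 2) := by
    have e : (n:ℝ) = ∑ i, (w.k i : ℝ) := by rw [← hw.sumk]; push_cast; rfl
    rw [e, Finset.sum_mul]
    calc ∑ i, (w.k i : ℝ) * w.sig ^ 2 ≤ ∑ _i : Fin d, 1 / (4 * cI ^ 2) :=
          Finset.sum_le_sum (fun i _ => hw.inv2 i)
      _ = d / (4 * cI ^ 2) := by simp; ring
  have h2 : w.sig ^ 2 ≤ sig0 ^ 2 := pow_le_pow_left₀ w.sig_nonneg hw.sig_le 2
  unfold C1
  linarith

/-- Second constant in the scale bounds. -/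
noncomputable def C0 (d : ℕ) : ℝ := (2 * Real.sqrt (2 * Real.pi)) ^ d

lemma C0_pos (d : ℕ) : 0 < C0 d := by unfold C0; positivity

lemma sig_bound2 {n : ℕ} {w : Cell d} (hw : w.Good n) {u : Fin d → ℝ} (hu : u ∈ w.box)
    (hu' : ∀ i, u i ∈ Ioo (0:ℝ) 1) :
    w.sig ^ d ≤ C0 d * ((2:ℝ) ^ n)⁻¹ * Real.exp (‖S u‖ ^ 2 / 2) := by
  have h1 : ∀ i, w.sig * Iso (u i) ≤ 2 * w.l i := by
    intro i
    rw [Cell.mem_box] at hu
    exact hw.inv1 i (u i) ⟨(hu i).1, (hu i).2.le⟩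
  have h2 : ∏ i, (w.sig * Iso (u i)) ≤ ∏ i, (2 * w.l i) :=
    Finset.prod_le_prod (fun i _ => mul_nonneg w.sig_nonneg (Iso_nonneg _)) (fun i _ => h1 i)
  rw [Finset.prod_mul_distrib, Finset.prod_mul_distrib, prod_l, hw.sumk] at h2
  simp only [Finset.prod_const, Finset.card_univ, Fintype.card_fin] at h2
  have h3 : ∀ i, Iso (u i) = (Real.sqrt (2 * Real.pi))⁻¹ * Real.exp (-(Q (u i)) ^ 2 / 2) := by
    intro i
    unfold Iso
    rw [if_pos ⟨(hu' i).1, (hu' i).2⟩, gaussianPDFReal]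
    simp
  have h4 : ∏ i, Iso (u i) = (Real.sqrt (2 * Real.pi))⁻¹ ^ d * Real.exp (-(‖S u‖ ^ 2 / 2)) := by
    simp only [h3]
    rw [Finset.prod_mul_distrib, ← Real.exp_sum]
    simp only [Finset.prod_const, Finset.card_univ, Fintype.card_fin]
    congr 2
    rw [EuclideanSpace.norm_sq_eq, ← Finset.sum_div]
    simp only [S, Real.norm_eq_abs, sq_abs]
    rw [Finset.sum_neg_distrib, neg_div]
  rw [h4] at h2
  have hs : 0 < Real.sqrt (2 * Real.pi) := by positivity
  have h5 : w.sig ^ d = (w.sig ^ d * ((Real.sqrt (2 * Real.pi))⁻¹ ^ d *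
      Real.exp (-(‖S u‖ ^ 2 / 2)))) * (Real.sqrt (2 * Real.pi) ^ d *
      Real.exp (‖S u‖ ^ 2 / 2)) := by
    have e1 : Real.exp (-(‖S u‖ ^ 2 / 2)) * Real.exp (‖S u‖ ^ 2 / 2) = 1 := by
      rw [← Real.exp_add]; simp
    have e2 : (Real.sqrt (2 * Real.pi))⁻¹ ^ d * Real.sqrt (2 * Real.pi) ^ d = 1 := by
      rw [← mul_pow, inv_mul_cancel₀ hs.ne', one_pow]
    calc w.sig ^ d = w.sig ^ d * ((Real.sqrt (2 * Real.pi))⁻¹ ^ d * Real.sqrt (2 * Real.pi) ^ d) *
          (Real.exp (-(‖S u‖ ^ 2 / 2)) * Real.exp (‖S u‖ ^ 2 / 2)) := by rw [e1, e2]; ring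
      _ = _ := by ring
  rw [h5]
  calc _ ≤ (2 ^ d * ((2:ℝ) ^ n)⁻¹) * (Real.sqrt (2 * Real.pi) ^ d *
      Real.exp (‖S u‖ ^ 2 / 2)) := mul_le_mul_of_nonneg_right h2 (by positivity)
    _ = _ := by unfold C0; rw [mul_pow]; ring

end Pool.Agent.H.MP_31d543_pr
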