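import Mathlib

set_option autoImplicit false

open MeasureTheory ProbabilityTheory
open scoped ENNReal

namespace Pool.Agent.H.MP_31d543_pr

/-- `W_p^p(μ, ν)`: the infimum over all couplings `π` of `μ` and `ν` of `∫ |x - y|^p dπ(x,y)`. -/
noncomputable def Wpp {E : Type*} [MeasurableSpace E] [PseudoEMetricSpace E] (p : ℝ)
    (μ ν : Measure E) : ℝ≥0∞ :=
  ⨅ (π : Measure (E × E)) (_ : π.map Prod.fst = μ) (_ : π.map Prod.snd = ν),
    ∫⁻ z, edist z.1 z.2 ^ p ∂π

/-- The empirical measure `(1/n) ∑ δ_{x_i}` of `n` points. -/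
noncomputable def empirical {E : Type*} [MeasurableSpace E] {n : ℕ} (x : Fin n → E) : Measure E :=
  (n : ℝ≥0∞)⁻¹ • ∑ i, Measure.dirac (x i)

end Pool.Agent.H.MP_31d543_pr
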