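import Pool.Agent.H.MP_31d543_pr.Defs
set_option autoImplicit false
open MeasureTheory ProbabilityTheory Set
open scoped ENNReal
namespace Pool.Agent.H.MP_31d543_pr

theorem pi_gaussian_density (d : ℕ) :
    (Measure.pi (fun _ : Fin d => gaussianReal 0 1)) =
      (volume : Measure (Fin d → ℝ)).withDensity
        (fun x => ENNReal.ofReal (∏ i, gaussianPDFReal 0 1 (x i))) := by
  refine (Measure.pi_eq ?_)
  intro s hs
  have hint : ∀ i, Integrable ((s i).indicator (gaussianPDFReal 0 1)) volume := fun i =>
    (integrable_gaussianPDFReal 0 1).indicator (hs i)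
  have hprod : Integrable (fun x : Fin d → ℝ =>
      ∏ i, (s i).indicator (gaussianPDFReal 0 1) (x i)) volume :=
    Integrable.fintype_prod hint
  have hind : ∀ x : Fin d → ℝ, (univ.pi s).indicator
      (fun x => ENNReal.ofReal (∏ i, gaussianPDFReal 0 1 (x i))) x =
      ENNReal.ofReal (∏ i, (s i).indicator (gaussianPDFReal 0 1) (x i)) := by
    intro x
    by_cases hx : x ∈ univ.pi s
    · rw [indicator_of_mem hx]
      congr 1
      refine Finset.prod_congr rfl fun i _ => ?_
      rw [indicator_of_mem (hx i (mem_univ i))]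
    · rw [indicator_of_notMem hx]
      simp only [mem_pi, mem_univ, true_implies, not_forall] at hx
      obtain ⟨i, hi⟩ := hx
      rw [Finset.prod_eq_zero (Finset.mem_univ i) (indicator_of_notMem hi _)]
      simp
  rw [withDensity_apply _ (MeasurableSet.univ_pi hs), ← lintegral_indicator (MeasurableSet.univ_pi hs)]
  simp_rw [hind]
  rw [← ofReal_integral_eq_lintegral_ofReal hprod
    (Filter.Eventually.of_forall fun x => Finset.prod_nonneg fun i _ =>
      indicator_nonneg (fun y _ => gaussianPDFReal_nonneg 0 1 y) _)]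
  rw [integral_fintype_prod_volume_eq_prod (fun i => (s i).indicator (gaussianPDFReal 0 1))]
  rw [ENNReal.ofReal_prod_of_nonneg (fun i _ => integral_nonneg fun y =>
      indicator_nonneg (fun y _ => gaussianPDFReal_nonneg 0 1 y) _)]
  refine Finset.prod_congr rfl fun i _ => ?_
  rw [integral_indicator (hs i), gaussianReal_apply_eq_integral _ one_ne_zero]

theorem stdGaussian_density (d : ℕ) :
    stdGaussian (EuclideanSpace ℝ (Fin d)) = (volume : Measure (EuclideanSpace ℝ (Fin d))).withDensity
      (fun x => ENNReal.ofReal ((Real.sqrt (2 * Real.pi))⁻¹ ^ d * Real.exp (-‖x‖^2/2))) := by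
  rw [← map_pi_eq_stdGaussian, pi_gaussian_density]
  have hmp := PiLp.volume_preserving_toLp (Fin d)
  ext s hs
  have hmeas : MeasurableEmbedding (@WithLp.toLp 2 (Fin d → ℝ)) :=
    (MeasurableEquiv.toLp 2 (Fin d → ℝ)).measurableEmbedding
  rw [hmeas.map_apply, withDensity_apply _ (hmeas.measurable hs), withDensity_apply _ hs]
  rw [← hmp.setLIntegral_comp_preimage_emb hmeas]
  refine lintegral_congr fun x => ?_
  congr 1
  simp only [gaussianPDFReal]
  rw [Finset.prod_mul_distrib, Finset.prod_const, ← Real.exp_sum]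
  simp only [Finset.card_univ, Fintype.card_fin, NNReal.coe_one, mul_one, sub_zero]
  congr 2
  rw [EuclideanSpace.norm_sq_eq, ← Finset.sum_div, Finset.sum_neg_distrib]
  simp

end Pool.Agent.H.MP_31d543_pr
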