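import Pool.Agent.H.MP_31d543_pr.Step

set_option autoImplicit false

open MeasureTheory ProbabilityTheory Set
open scoped ENNReal

namespace Pool.Agent.H.MP_31d543_pr

variable {d : ℕ} [NeZero d] {n : ℕ}

lemma measurable_cnt {s : Set (Fin d → ℝ)} (hs : MeasurableSet s) :
    Measurable (fun ω : Fin n → (Fin d → ℝ) => cnt s ω) := by
  unfold cnt
  exact Finset.measurable_sum _ (fun i _ =>
    (measurable_const.indicator hs).comp (measurable_pi_apply i))

lemma measurable_stepCell (p : ℝ) (k : ℕ) (w : Cell d) :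
    Measurable (fun ω : Fin n → (Fin d → ℝ) => stepCell p k w ω) := by
  unfold stepCell
  have h1 := measurable_cnt (n := n) w.lo.measurableSet_box
  have h2 := measurable_cnt (n := n) w.hi.measurableSet_box
  have h3 := measurable_cnt (n := n) w.measurableSet_box
  have h4 : Measurable (fun ω : Fin n → (Fin d → ℝ) =>
      ENNReal.ofReal |cnt w.lo.box ω - cnt w.hi.box ω| ^ p) := by
    have : Measurable (fun ω : Fin n → (Fin d → ℝ) => |cnt w.lo.box ω - cnt w.hi.box ω|) := by
      simpa [Real.norm_eq_abs] using (h1.sub h2).norm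
    exact this.ennreal_ofReal.pow_const p
  have h5 : Measurable (fun ω : Fin n → (Fin d → ℝ) =>
      ENNReal.ofReal |cnt w.box ω - n * ((2:ℝ) ^ k)⁻¹| ^ p) := by
    have : Measurable (fun ω : Fin n → (Fin d → ℝ) => |cnt w.box ω - n * ((2:ℝ) ^ k)⁻¹|) := by
      simpa [Real.norm_eq_abs] using (h3.sub_const _).norm
    exact this.ennreal_ofReal.pow_const p
  exact (((h4.add h5).const_mul _).const_mul _).const_mul _

lemma lam_real_cell {k : ℕ} {w : Cell d} (hw : w.Good k) :
    (lam d).real w.box = ((2:ℝ) ^ k)⁻¹ := by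
  rw [measureReal_def, lam_cell hw, ENNReal.toReal_ofReal (by positivity)]

lemma moment_diff {p : ℝ} (hp : 0 < p) {k : ℕ} {w : Cell d} (hw : w.Good k)
    (hnk : 1 ≤ (n:ℝ) * ((2:ℝ) ^ k)⁻¹) :
    ∫⁻ ω, ENNReal.ofReal |cnt w.lo.box ω - cnt w.hi.box ω| ^ p
      ∂(Measure.pi (fun _ : Fin n => lam d)) ≤
      ENNReal.ofReal (CM p * (n * ((2:ℝ) ^ k)⁻¹) ^ (p / 2)) := by
  let f : (Fin d → ℝ) → ℝ := fun u => w.lo.box.indicator (fun _ => (1:ℝ)) u -
    w.hi.box.indicator (fun _ => (1:ℝ)) u
  have hmlo := w.lo.measurableSet_box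
  have hmhi := w.hi.measurableSet_box
  have hf : Measurable f := (measurable_const.indicator hmlo).sub (measurable_const.indicator hmhi)
  have hilo : Integrable (w.lo.box.indicator (fun _ => (1:ℝ))) (lam d) :=
    (integrable_const (1:ℝ)).indicator hmlo
  have hihi : Integrable (w.hi.box.indicator (fun _ => (1:ℝ))) (lam d) :=
    (integrable_const (1:ℝ)).indicator hmhi
  have hf1 : ∀ u, |f u| ≤ 1 := by
    intro u
    by_cases h1 : u ∈ w.lo.box <;> by_cases h2 : u ∈ w.hi.box <;> simp [f, h1, h2]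
  have elo := lam_real_cell (lo_good hw)
  have ehi := lam_real_cell (hi_good hw)
  have hf0 : ∫ u, f u ∂(lam d) = 0 := by
    show ∫ u, (w.lo.box.indicator (fun _ => (1:ℝ)) u - w.hi.box.indicator (fun _ => (1:ℝ)) u)
      ∂(lam d) = 0
    rw [integral_sub hilo hihi, integral_indicator_const _ hmlo, integral_indicator_const _ hmhi,
      elo, ehi, sub_self]
  have hf2 : ∫ u, f u ^ 2 ∂(lam d) ≤ ((2:ℝ) ^ k)⁻¹ := by
    have e : ∀ u, f u ^ 2 = w.lo.box.indicator (fun _ => (1:ℝ)) u +
        w.hi.box.indicator (fun _ => (1:ℝ)) u := by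
      intro u
      by_cases h1 : u ∈ w.lo.box
      · have h2 : u ∉ w.hi.box := fun h2 => (Set.disjoint_left.1 (box_disjoint w)) h1 h2
        simp [f, h1, h2]
      · by_cases h2 : u ∈ w.hi.box <;> simp [f, h1, h2]
    simp only [e]
    rw [integral_add hilo hihi, integral_indicator_const _ hmlo, integral_indicator_const _ hmhi,
      elo, ehi, pow_succ, mul_inv]
    simp only [smul_eq_mul, mul_one]
    apply le_of_eq
    ring
  have h := moment_bound (lam d) n hf hf1 hf0 hf2 hnk hp
  refine le_trans (le_of_eq ?_) h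
  congr 1
  funext ω
  congr 3
  unfold cnt
  rw [← Finset.sum_sub_distrib]

lemma moment_cnt {p : ℝ} (hp : 0 < p) {k : ℕ} {w : Cell d} (hw : w.Good k)
    (hnk : 1 ≤ (n:ℝ) * ((2:ℝ) ^ k)⁻¹) :
    ∫⁻ ω, ENNReal.ofReal |cnt w.box ω - n * ((2:ℝ) ^ k)⁻¹| ^ p
      ∂(Measure.pi (fun _ : Fin n => lam d)) ≤
      ENNReal.ofReal (CM p * (n * ((2:ℝ) ^ k)⁻¹) ^ (p / 2)) := by
  set q : ℝ := ((2:ℝ) ^ k)⁻¹ with hq
  have hq0 : 0 ≤ q := by positivity
  have hq1 : q ≤ 1 := inv_le_one_of_one_le₀ (one_le_pow₀ (by norm_num))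
  let f : (Fin d → ℝ) → ℝ := fun u => w.box.indicator (fun _ => (1:ℝ)) u - q
  have hm := w.measurableSet_box
  have hf : Measurable f := (measurable_const.indicator hm).sub_const _
  have hi : Integrable (w.box.indicator (fun _ => (1:ℝ))) (lam d) :=
    (integrable_const (1:ℝ)).indicator hm
  have hf1 : ∀ u, |f u| ≤ 1 := by
    intro u
    by_cases h1 : u ∈ w.box
    · simp only [f, h1, Set.indicator_of_mem]
      rw [abs_of_nonneg (by linarith)]; linarith
    · simp only [f, h1, not_false_eq_true, Set.indicator_of_notMem]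
      rw [zero_sub, abs_neg, abs_of_nonneg hq0]; exact hq1
  have e := lam_real_cell hw
  have hf0 : ∫ u, f u ∂(lam d) = 0 := by
    show ∫ u, (w.box.indicator (fun _ => (1:ℝ)) u - q) ∂(lam d) = 0
    rw [integral_sub hi (integrable_const q), integral_indicator_const _ hm, e]
    simp [hq]
  have hf2 : ∫ u, f u ^ 2 ∂(lam d) ≤ q := by
    have e2 : ∀ u, f u ^ 2 = (1 - 2 * q) * w.box.indicator (fun _ => (1:ℝ)) u + q ^ 2 := by
      intro u
      by_cases h1 : u ∈ w.box
      · simp only [f, h1, Set.indicator_of_mem]; ring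
      · simp only [f, h1, not_false_eq_true, Set.indicator_of_notMem]; ring
    simp only [e2]
    rw [integral_add (hi.const_mul _) (integrable_const _), integral_const_mul,
      integral_indicator_const _ hm, e]
    simp only [smul_eq_mul, mul_one, integral_const, probReal_univ, one_mul]
    nlinarith
  have h := moment_bound (lam d) n hf hf1 hf0 hf2 hnk hp
  refine le_trans (le_of_eq ?_) h
  congr 1
  funext ω
  congr 3
  unfold cnt
  rw [Finset.sum_sub_distrib]
  simp

lemma expect_stepCell {p : ℝ} (hp : 1 ≤ p) {k : ℕ} {w : Cell d} (hw : w.Good k)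
    (hn : 0 < n) (hnk : 1 ≤ (n:ℝ) * ((2:ℝ) ^ k)⁻¹) :
    ∫⁻ ω, stepCell p k w ω ∂(Measure.pi (fun _ : Fin n => lam d)) ≤
      ENNReal.ofReal w.sig ^ p * (CP p * ENNReal.ofReal
        (4 ^ p * CM p * (1 / n * (n * ((2:ℝ) ^ k)⁻¹) ^ (1 - p / 2)))) := by
  have hp0 : 0 < p := by linarith
  have hn' : (0:ℝ) < n := by exact_mod_cast hn
  set m : ℝ := n * ((2:ℝ) ^ k)⁻¹ with hm
  have hm0 : 0 < m := by linarith
  have h1 := measurable_cnt (n := n) w.lo.measurableSet_box
  have h2 := measurable_cnt (n := n) w.hi.measurableSet_box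
  have h3 := measurable_cnt (n := n) w.measurableSet_box
  have h4 : Measurable (fun ω : Fin n → (Fin d → ℝ) =>
      ENNReal.ofReal |cnt w.lo.box ω - cnt w.hi.box ω| ^ p) := by
    have : Measurable (fun ω : Fin n → (Fin d → ℝ) => |cnt w.lo.box ω - cnt w.hi.box ω|) := by
      simpa [Real.norm_eq_abs] using (h1.sub h2).norm
    exact this.ennreal_ofReal.pow_const p
  have h5 : Measurable (fun ω : Fin n → (Fin d → ℝ) =>
      ENNReal.ofReal |cnt w.box ω - m| ^ p) := by
    have : Measurable (fun ω : Fin n → (Fin d → ℝ) => |cnt w.box ω - m|) := by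
      simpa [Real.norm_eq_abs] using (h3.sub_const _).norm
    exact this.ennreal_ofReal.pow_const p
  have h45 : Measurable (fun ω : Fin n → (Fin d → ℝ) =>
      (ENNReal.ofReal |cnt w.lo.box ω - cnt w.hi.box ω| ^ p +
        ENNReal.ofReal |cnt w.box ω - m| ^ p)) := h4.add h5
  unfold stepCell
  rw [lintegral_const_mul _ ((h45.const_mul _).const_mul _),
    lintegral_const_mul _ (h45.const_mul _), lintegral_const_mul _ h45, lintegral_add_left h4]
  have hb1 := moment_diff hp0 hw hnk
  have hb2 := moment_cnt hp0 hw hnk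
  have hCM := CM_nonneg hp0
  calc ENNReal.ofReal (2 * w.sig) ^ p * (CP p *
        (ENNReal.ofReal (1 / n * (m / 2) ^ (1 - p)) *
          (∫⁻ ω, ENNReal.ofReal |cnt w.lo.box ω - cnt w.hi.box ω| ^ p
            ∂(Measure.pi (fun _ : Fin n => lam d)) +
          ∫⁻ ω, ENNReal.ofReal |cnt w.box ω - m| ^ p ∂(Measure.pi (fun _ : Fin n => lam d)))))
      ≤ ENNReal.ofReal (2 * w.sig) ^ p * (CP p *
        (ENNReal.ofReal (1 / n * (m / 2) ^ (1 - p)) *
          (ENNReal.ofReal (CM p * m ^ (p / 2)) + ENNReal.ofReal (CM p * m ^ (p / 2))))) := by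
        refine mul_le_mul' le_rfl (mul_le_mul' le_rfl (mul_le_mul' le_rfl (add_le_add hb1 hb2)))
    _ = ENNReal.ofReal w.sig ^ p * (CP p * (ENNReal.ofReal (2 ^ p) *
        (ENNReal.ofReal (1 / n * (m / 2) ^ (1 - p)) *
          (ENNReal.ofReal (CM p * m ^ (p / 2)) + ENNReal.ofReal (CM p * m ^ (p / 2)))))) := by
        rw [mul_comm 2 w.sig, ENNReal.ofReal_mul w.sig_nonneg,
          ENNReal.mul_rpow_of_nonneg _ _ hp0.le,
          ENNReal.ofReal_rpow_of_nonneg (by norm_num : (0:ℝ) ≤ 2) hp0.le]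
        ring
    _ = _ := by
        rw [← ENNReal.ofReal_add (by positivity) (by positivity),
          ← ENNReal.ofReal_mul (by positivity), ← ENNReal.ofReal_mul (by positivity)]
        congr 3
        have e1 : (m / 2) ^ (1 - p) = m ^ (1 - p) * (2 ^ p / 2) := by
          rw [Real.div_rpow hm0.le (by norm_num), Real.rpow_sub (by norm_num : (0:ℝ) < 2),
            Real.rpow_one]
          field_simp
        have e2 : m ^ (1 - p / 2) = m ^ (1 - p) * m ^ (p / 2) := by
          rw [← Real.rpow_add hm0]; congr 1; ring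
        have e3 : (4:ℝ) ^ p = 2 ^ p * 2 ^ p := by
          rw [← Real.mul_rpow (by norm_num) (by norm_num)]; norm_num
        rw [e1, e2, e3]
        ring

end Pool.Agent.H.MP_31d543_pr
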