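import Pool.Agent.H.MP_31d543_pr.Density
set_option autoImplicit false
open MeasureTheory ProbabilityTheory Set
open scoped ENNReal
namespace Pool.Agent.H.MP_31d543_pr

theorem coupling_lower {d n : ℕ} (p : ℝ) (hp : 0 ≤ p)
    (X : Fin n → EuclideanSpace ℝ (Fin d)) (ν : Measure (EuclideanSpace ℝ (Fin d)))
    (eps : ℝ) (A : Set (EuclideanSpace ℝ (Fin d))) (hA : MeasurableSet A) :
    ∫⁻ y, {y | y ∈ A ∧ ∀ i, eps ≤ dist (X i) y}.indicator (fun _ => ENNReal.ofReal eps ^ p) y ∂ν
      ≤ Wpp p (empirical X) ν := by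
  have hm : MeasurableSet {y | y ∈ A ∧ ∀ i, eps ≤ dist (X i) y} := by
    refine hA.inter ?_
    have : {y | ∀ i, eps ≤ dist (X i) y} = ⋂ i, {y | eps ≤ dist (X i) y} := by
      ext y; simp
    show MeasurableSet {y | ∀ i, eps ≤ dist (X i) y}
    rw [this]
    exact MeasurableSet.iInter fun i => measurableSet_le measurable_const (by fun_prop)
  unfold Wpp
  refine le_iInf fun π => le_iInf fun h1 => le_iInf fun h2 => ?_
  rw [← h2, lintegral_map (measurable_const.indicator hm) measurable_snd]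
  have hae : ∀ᵐ z ∂π, z.1 ∈ range X := by
    have hr : MeasurableSet (range X)ᶜ := (finite_range X).measurableSet.compl
    have h0 : empirical X (range X)ᶜ = 0 := by
      unfold empirical
      simp [hr]
    rw [← h1, Measure.map_apply measurable_fst hr] at h0
    exact h0
  refine lintegral_mono_ae ?_
  filter_upwards [hae] with z hz
  obtain ⟨i, hi⟩ := hz
  by_cases hz2 : z.2 ∈ {y | y ∈ A ∧ ∀ i, eps ≤ dist (X i) y}
  · rw [indicator_of_mem hz2, edist_dist]
    refine ENNReal.rpow_le_rpow (ENNReal.ofReal_le_ofReal ?_) hp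
    rw [← hi]; exact hz2.2 i
  · rw [indicator_of_notMem hz2]; exact bot_le

theorem tonelli_lower {d n : ℕ} (p : ℝ)
    (μ : Measure (EuclideanSpace ℝ (Fin d))) [IsProbabilityMeasure μ]
    (eps : ℝ) (A : Set (EuclideanSpace ℝ (Fin d))) (hA : MeasurableSet A) (a : ℝ≥0∞)
    (ha : ∀ y ∈ A, μ (Metric.ball y eps) ≤ a) :
    (Measurable fun X : Fin n → EuclideanSpace ℝ (Fin d) =>
      ∫⁻ y, {y | y ∈ A ∧ ∀ i, eps ≤ dist (X i) y}.indicator
        (fun _ => ENNReal.ofReal eps ^ p) y ∂μ) ∧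
    ENNReal.ofReal eps ^ p * (1 - a)^n * μ A ≤
    ∫⁻ X, ∫⁻ y, {y | y ∈ A ∧ ∀ i, eps ≤ dist (X i) y}.indicator
        (fun _ => ENNReal.ofReal eps ^ p) y ∂μ
      ∂(Measure.pi (fun _ : Fin n => μ)) := by
  set T : Set ((Fin n → EuclideanSpace ℝ (Fin d)) × EuclideanSpace ℝ (Fin d)) :=
    {q | q.2 ∈ A ∧ ∀ i, eps ≤ dist (q.1 i) q.2} with hT
  have hTm : MeasurableSet T := by
    have e : T = (Prod.snd ⁻¹' A) ∩ ⋂ i, {q : (Fin n → EuclideanSpace ℝ (Fin d)) × EuclideanSpace ℝ (Fin d) |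
        eps ≤ dist (q.1 i) q.2} := by
      ext q; simp [hT]
    rw [e]
    refine (measurable_snd hA).inter ?_
    exact MeasurableSet.iInter fun i => measurableSet_le measurable_const
      (((measurable_pi_apply i).comp measurable_fst).dist measurable_snd)
  have hfun : ∀ (X : Fin n → EuclideanSpace ℝ (Fin d)) (y : EuclideanSpace ℝ (Fin d)),
      {y | y ∈ A ∧ ∀ i, eps ≤ dist (X i) y}.indicator (fun _ => ENNReal.ofReal eps ^ p) y =
      T.indicator (fun _ => ENNReal.ofReal eps ^ p) (X, y) := by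
    intro X y
    by_cases h : y ∈ {y | y ∈ A ∧ ∀ i, eps ≤ dist (X i) y}
    · rw [indicator_of_mem h, indicator_of_mem (show (X, y) ∈ T from h)]
    · rw [indicator_of_notMem h, indicator_of_notMem (show (X, y) ∉ T from h)]
  simp_rw [hfun]
  have hmeas : Measurable (T.indicator (fun _ => ENNReal.ofReal eps ^ p)) :=
    measurable_const.indicator hTm
  refine ⟨hmeas.lintegral_prod_right', ?_⟩
  rw [lintegral_lintegral_swap (f := fun X y => T.indicator (fun _ => ENNReal.ofReal eps ^ p) (X, y))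
    hmeas.aemeasurable]
  have key : ∀ y, A.indicator (fun _ => ENNReal.ofReal eps ^ p * (1 - a)^n) y ≤
      ∫⁻ X, T.indicator (fun _ => ENNReal.ofReal eps ^ p) (X, y)
        ∂(Measure.pi (fun _ : Fin n => μ)) := by
    intro y
    by_cases hy : y ∈ A
    · rw [indicator_of_mem hy]
      have e : ∀ X : Fin n → EuclideanSpace ℝ (Fin d),
          T.indicator (fun _ => ENNReal.ofReal eps ^ p) (X, y) =
          (univ.pi (fun _ : Fin n => (Metric.ball y eps)ᶜ)).indicator
            (fun _ => ENNReal.ofReal eps ^ p) X := by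
        intro X
        have : (X, y) ∈ T ↔ X ∈ univ.pi (fun _ : Fin n => (Metric.ball y eps)ᶜ) := by
          simp [hT, hy, Metric.mem_ball]
        by_cases h : (X, y) ∈ T
        · rw [indicator_of_mem h, indicator_of_mem (this.1 h)]
        · rw [indicator_of_notMem h, indicator_of_notMem (fun h' => h (this.2 h'))]
      simp_rw [e]
      rw [lintegral_indicator_const (MeasurableSet.univ_pi fun _ => measurableSet_ball.compl),
        Measure.pi_pi, Finset.prod_const, Finset.card_univ, Fintype.card_fin,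
        prob_compl_eq_one_sub measurableSet_ball]
      gcongr
      exact ha y hy
    · rw [indicator_of_notMem hy]; exact bot_le
  calc ENNReal.ofReal eps ^ p * (1 - a)^n * μ A
      = ∫⁻ y, A.indicator (fun _ => ENNReal.ofReal eps ^ p * (1 - a)^n) y ∂μ := by
        rw [lintegral_indicator_const hA]
    _ ≤ _ := lintegral_mono key

/-- Lower bound on the Gaussian measure of the shell. -/
theorem shell_lower (d : ℕ) (hd : 2 ≤ d) : ∃ c : ℝ, 0 < c ∧ ∀ r : ℝ, 1 ≤ r →
    ENNReal.ofReal (c * r ^ (d - 2) * Real.exp (-r^2/2)) ≤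
      stdGaussian (EuclideanSpace ℝ (Fin d)) {y | r ≤ ‖y‖ ∧ ‖y‖ < r + 1/r} := by
  have : Nonempty (Fin d) := ⟨⟨0, by omega⟩⟩
  set c : ℝ := (Real.sqrt (2 * Real.pi))⁻¹ ^ d with hc
  have hc0 : 0 < c := by positivity
  set V : ℝ := (volume : Measure (EuclideanSpace ℝ (Fin d))).real (Metric.ball 0 1) with hV
  have hV0 : 0 < V := by
    refine ENNReal.toReal_pos (Metric.measure_ball_pos _ _ one_pos).ne' measure_ball_lt_top.ne
  have hVe : (volume : Measure (EuclideanSpace ℝ (Fin d))) (Metric.ball 0 1) = ENNReal.ofReal V := by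
    rw [hV, Measure.real, ENNReal.ofReal_toReal measure_ball_lt_top.ne]
  refine ⟨c * Real.exp (-(3/2)) * d * V, by positivity, fun r hr => ?_⟩
  have hr0 : 0 < r := by linarith
  set A : Set (EuclideanSpace ℝ (Fin d)) := {y | r ≤ ‖y‖ ∧ ‖y‖ < r + 1/r} with hA
  have hAe : A = Metric.ball 0 (r + 1/r) \ Metric.ball 0 r := by
    ext y; simp [hA, and_comm]
  have hAm : MeasurableSet A := by
    rw [hAe]; exact measurableSet_ball.diff measurableSet_ball
  have hvol : ENNReal.ofReal (d * r^(d-2) * V) ≤ volume A := by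
    rw [hAe, measure_sdiff (Metric.ball_subset_ball (by
        have : 0 < 1 / r := by positivity
        linarith)) measurableSet_ball.nullMeasurableSet measure_ball_lt_top.ne]
    rw [Measure.addHaar_ball _ _ (by positivity : (0:ℝ) ≤ r + 1/r),
      Measure.addHaar_ball _ _ (by positivity : (0:ℝ) ≤ r),
      finrank_euclideanSpace, Fintype.card_fin, hVe, ← ENNReal.ofReal_mul (by positivity),
      ← ENNReal.ofReal_mul (by positivity), ← ENNReal.ofReal_sub _ (by positivity)]
    refine ENNReal.ofReal_le_ofReal ?_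
    have h1 : r ^ d + d * r^(d-2) ≤ (r + 1/r)^d := by
      have e : r + 1/r = r * (1 + 1/r^2) := by field_simp
      rw [e, mul_pow]
      have hb := one_add_mul_le_pow (a := 1/r^2) (by
        have : 0 < 1/r^2 := by positivity
        linarith) d
      have e2 : r^d = r^(d-2) * r^2 := by rw [← pow_add]; congr 1; omega
      calc r ^ d + d * r^(d-2) = r^d * (1 + d * (1/r^2)) := by
            rw [e2]; field_simp
        _ ≤ _ := mul_le_mul_of_nonneg_left hb (by positivity)
    nlinarith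
  rw [stdGaussian_density, withDensity_apply _ hAm]
  calc ENNReal.ofReal (c * Real.exp (-(3/2)) * d * V * r ^ (d - 2) * Real.exp (-r^2/2))
      = ENNReal.ofReal (c * (Real.exp (-(3/2)) * Real.exp (-r^2/2))) *
        ENNReal.ofReal (d * r^(d-2) * V) := by
        rw [← ENNReal.ofReal_mul (by positivity)]; congr 1; ring
    _ ≤ ENNReal.ofReal (c * (Real.exp (-(3/2)) * Real.exp (-r^2/2))) * volume A := by gcongr
    _ = ∫⁻ _ in A, ENNReal.ofReal (c * (Real.exp (-(3/2)) * Real.exp (-r^2/2))) := by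
        rw [setLIntegral_const]
    _ ≤ _ := by
        refine setLIntegral_mono' hAm fun y hy => ?_
        refine ENNReal.ofReal_le_ofReal ?_
        rw [← Real.exp_add]
        refine mul_le_mul_of_nonneg_left (Real.exp_le_exp.2 ?_) hc0.le
        have h2 : ‖y‖^2 ≤ (r + 1/r)^2 := by
          have := hy.2
          gcongr
        have h3 : (r + 1/r)^2 = r^2 + 2 + 1/r^2 := by field_simp; ring
        have h4 : 1/r^2 ≤ 1 := by
          rw [div_le_one (by positivity)]; nlinarith
        linarith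

/-- Upper bound on the Gaussian measure of a small ball. -/
theorem ball_upper (d : ℕ) (hd : 2 ≤ d) : ∃ C : ℝ, 0 < C ∧ ∀ r : ℝ, 1 ≤ r →
    ∀ y : EuclideanSpace ℝ (Fin d), r ≤ ‖y‖ →
    stdGaussian (EuclideanSpace ℝ (Fin d)) (Metric.ball y (1/r)) ≤
    ENNReal.ofReal (C * (1/r) ^ d * Real.exp (-r^2/2)) := by
  have : Nonempty (Fin d) := ⟨⟨0, by omega⟩⟩
  set c : ℝ := (Real.sqrt (2 * Real.pi))⁻¹ ^ d with hc
  have hc0 : 0 < c := by positivity
  set V : ℝ := (volume : Measure (EuclideanSpace ℝ (Fin d))).real (Metric.ball 0 1) with hV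
  have hV0 : 0 < V := by
    refine ENNReal.toReal_pos (Metric.measure_ball_pos _ _ one_pos).ne' measure_ball_lt_top.ne
  have hVe : (volume : Measure (EuclideanSpace ℝ (Fin d))) (Metric.ball 0 1) = ENNReal.ofReal V := by
    rw [hV, Measure.real, ENNReal.ofReal_toReal measure_ball_lt_top.ne]
  refine ⟨c * Real.exp 1 * V, by positivity, fun r hr y hy => ?_⟩
  have hr0 : 0 < r := by linarith
  rw [stdGaussian_density, withDensity_apply _ measurableSet_ball]
  calc _ ≤ ∫⁻ _ in Metric.ball y (1/r), ENNReal.ofReal (c * (Real.exp 1 * Real.exp (-r^2/2))) := by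
        refine setLIntegral_mono' measurableSet_ball fun z hz => ?_
        refine ENNReal.ofReal_le_ofReal ?_
        rw [← Real.exp_add]
        refine mul_le_mul_of_nonneg_left (Real.exp_le_exp.2 ?_) hc0.le
        have h1 : r - 1/r ≤ ‖z‖ := by
          have h := Metric.mem_ball.1 hz
          rw [dist_comm, dist_eq_norm] at h
          have := norm_sub_norm_le y z
          linarith
        have h0 : 0 ≤ r - 1/r := by
          have : 1/r ≤ 1 := by rw [div_le_one hr0]; exact hr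
          linarith
        have h2 : (r - 1/r)^2 ≤ ‖z‖^2 := by gcongr
        have h3 : (r - 1/r)^2 = r^2 - 2 + 1/r^2 := by field_simp; ring
        have h4 : 0 ≤ 1/r^2 := by positivity
        linarith
    _ = ENNReal.ofReal (c * (Real.exp 1 * Real.exp (-r^2/2))) * volume (Metric.ball y (1/r)) := by
        rw [setLIntegral_const]
    _ = _ := by
        rw [Measure.addHaar_ball _ _ (by positivity), finrank_euclideanSpace, Fintype.card_fin, hVe,
          ← ENNReal.ofReal_mul (by positivity), ← ENNReal.ofReal_mul (by positivity)]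
        congr 1; ring

theorem lower_bound (d : ℕ) (hd : 2 ≤ d) (p : ℝ) (hp : 1 ≤ p) : ∃ c : ℝ, 0 < c ∧
    ∀ᶠ n : ℕ in Filter.atTop, ∃ g : (Fin n → EuclideanSpace ℝ (Fin d)) → ℝ≥0∞, Measurable g ∧
      (∀ X, g X ≤ Wpp p (empirical X) (stdGaussian (EuclideanSpace ℝ (Fin d)))) ∧
      ENNReal.ofReal (c * Real.log n ^ ((d:ℝ) - 1 - p/2) / n) ≤
        ∫⁻ X, g X ∂(Measure.pi (fun _ : Fin n => stdGaussian (EuclideanSpace ℝ (Fin d)))) := by
  obtain ⟨c₂, hc₂, hshell⟩ := shell_lower d hd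
  obtain ⟨C₁, hC₁, hball⟩ := ball_upper d hd
  refine ⟨2 ^ (-(p/2)) * (Real.exp (-C₁) / 2) * c₂, by positivity, ?_⟩
  have hlogtop : Filter.Tendsto (fun n : ℕ => Real.log n) Filter.atTop Filter.atTop :=
    Real.tendsto_log_atTop.comp tendsto_natCast_atTop_atTop
  have hL1 : ∀ᶠ n : ℕ in Filter.atTop, 1 ≤ Real.log n := hlogtop.eventually_ge_atTop 1
  have hL2 : ∀ᶠ n : ℕ in Filter.atTop, d * Real.log (Real.log n) ≤ Real.log n := by
    have h := (Real.isLittleO_log_id_atTop.const_mul_left (d:ℝ)).bound (one_pos)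
    have h' := hlogtop.eventually h
    filter_upwards [h', hL1] with n hn h1
    simp only [one_mul, id_eq, Real.norm_eq_abs] at hn
    calc (d:ℝ) * Real.log (Real.log n) ≤ |(d:ℝ) * Real.log (Real.log n)| := le_abs_self _
      _ ≤ |Real.log n| := hn
      _ = Real.log n := abs_of_nonneg (by linarith)
  have hE : ∀ᶠ n : ℕ in Filter.atTop, Real.exp (-C₁) / 2 ≤ (1 + (-C₁) / n) ^ n := by
    have h := Real.tendsto_one_add_div_pow_exp (-C₁)
    exact h.eventually (eventually_ge_nhds (by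
      have := Real.exp_pos (-C₁)
      linarith))
  have hn1 : ∀ᶠ n : ℕ in Filter.atTop, C₁ ≤ n :=
    (tendsto_natCast_atTop_atTop (R := ℝ)).eventually_ge_atTop C₁
  filter_upwards [hL1, hL2, hE, hn1] with n hL1 hL2 hE hn1
  set L : ℝ := Real.log n with hL
  have hL0 : 0 < L := by linarith
  have hn0 : 0 < (n:ℝ) := lt_of_lt_of_le hC₁ hn1
  set r : ℝ := Real.sqrt (2 * L - d * Real.log L) with hr
  have hr2 : r^2 = 2 * L - d * Real.log L := by
    rw [hr, Real.sq_sqrt]; linarith
  have hr2L : L ≤ r^2 := by rw [hr2]; linarith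
  have hr0' : 0 ≤ r := Real.sqrt_nonneg _
  have hr1 : 1 ≤ r := by
    nlinarith
  have hr0 : 0 < r := by linarith
  have hlogL : 0 ≤ Real.log L := Real.log_nonneg hL1
  have hr2L' : r^2 ≤ 2 * L := by
    rw [hr2]
    have : 0 ≤ (d:ℝ) * Real.log L := by positivity
    linarith
  have hexp : Real.exp (-r^2/2) = L ^ ((d:ℝ)/2) / n := by
    rw [Real.rpow_def_of_pos hL0]
    conv_rhs => rw [← Real.exp_log hn0, ← Real.exp_sub]
    congr 1
    rw [hr2, ← hL]; ring
  set μ := stdGaussian (EuclideanSpace ℝ (Fin d)) with hμ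
  set A : Set (EuclideanSpace ℝ (Fin d)) := {y | r ≤ ‖y‖ ∧ ‖y‖ < r + 1/r} with hA
  have hAm : MeasurableSet A :=
    (measurableSet_le measurable_const measurable_norm).inter
      (measurableSet_lt measurable_norm measurable_const)
  have ha : ∀ y ∈ A, μ (Metric.ball y (1/r)) ≤ ENNReal.ofReal (C₁ / n) := by
    intro y hy
    refine (hball r hr1 y hy.1).trans (ENNReal.ofReal_le_ofReal ?_)
    rw [hexp]
    have h1 : (1/r)^d ≤ (L ^ ((d:ℝ)/2))⁻¹ := by
      rw [one_div, inv_pow]
      refine inv_anti₀ (by positivity) ?_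
      calc L ^ ((d:ℝ)/2) ≤ (r^2) ^ ((d:ℝ)/2) := Real.rpow_le_rpow hL0.le hr2L (by positivity)
        _ = r ^ d := by
          rw [← Real.rpow_natCast r 2, ← Real.rpow_mul hr0.le, ← Real.rpow_natCast r d]
          congr 1; push_cast; ring
    calc C₁ * (1/r)^d * (L ^ ((d:ℝ)/2) / n) ≤ C₁ * (L ^ ((d:ℝ)/2))⁻¹ * (L ^ ((d:ℝ)/2) / n) := by
          gcongr
      _ = C₁ / n := by
          have : L ^ ((d:ℝ)/2) ≠ 0 := by positivity
          field_simp
  obtain ⟨hgm, hgi⟩ := tonelli_lower (n := n) p μ (1/r) A hAm (ENNReal.ofReal (C₁ / n)) ha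
  refine ⟨_, hgm, fun X => coupling_lower p (by linarith) X μ (1/r) A hAm, ?_⟩
  refine le_trans ?_ hgi
  have hA' := hshell r hr1
  rw [← hA, hexp] at hA'
  have h1 : ENNReal.ofReal (Real.exp (-C₁) / 2) ≤ (1 - ENNReal.ofReal (C₁ / n)) ^ n := by
    rw [← ENNReal.ofReal_one, ← ENNReal.ofReal_sub _ (by positivity),
      ← ENNReal.ofReal_pow (by
        have : C₁ / n ≤ 1 := by rw [div_le_one hn0]; exact hn1
        linarith)]
    refine ENNReal.ofReal_le_ofReal ?_
    calc _ ≤ _ := hE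
      _ = _ := by congr 1; ring
  have h2 : ENNReal.ofReal (2 ^ (-(p/2)) * L ^ (-(p/2))) ≤ ENNReal.ofReal (1/r) ^ p := by
    rw [ENNReal.ofReal_rpow_of_pos (by positivity)]
    refine ENNReal.ofReal_le_ofReal ?_
    rw [← Real.mul_rpow (by norm_num) hL0.le, one_div, Real.inv_rpow hr0.le,
      Real.rpow_neg (by positivity)]
    refine inv_anti₀ (by positivity) ?_
    calc r ^ p = (r^2) ^ (p/2) := by
          rw [← Real.rpow_natCast r 2, ← Real.rpow_mul hr0.le]
          congr 1; push_cast; ring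
      _ ≤ (2 * L) ^ (p/2) := Real.rpow_le_rpow (by positivity) hr2L' (by linarith)
  have h3 : ENNReal.ofReal (c₂ * L ^ ((d:ℝ) - 1) / n) ≤ μ A := by
    refine le_trans (ENNReal.ofReal_le_ofReal ?_) hA'
    have h4 : L ^ (((d:ℝ) - 2)/2) ≤ r ^ (d - 2) := by
      calc L ^ (((d:ℝ) - 2)/2) ≤ (r^2) ^ (((d:ℝ) - 2)/2) :=
            Real.rpow_le_rpow hL0.le hr2L (by
              have : (2:ℝ) ≤ d := by exact_mod_cast hd
              linarith)
        _ = r ^ (d - 2) := by
          rw [← Real.rpow_natCast r 2, ← Real.rpow_mul hr0.le, ← Real.rpow_natCast r (d - 2),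
            Nat.cast_sub hd]
          congr 1; push_cast; ring
    have h5 : L ^ ((d:ℝ) - 1) = L ^ (((d:ℝ) - 2)/2) * L ^ ((d:ℝ)/2) := by
      rw [← Real.rpow_add hL0]; congr 1; ring
    rw [h5]
    calc c₂ * (L ^ (((d:ℝ) - 2)/2) * L ^ ((d:ℝ)/2)) / n
        = c₂ * L ^ (((d:ℝ) - 2)/2) * (L ^ ((d:ℝ)/2) / n) := by ring
      _ ≤ c₂ * r ^ (d - 2) * (L ^ ((d:ℝ)/2) / n) := by gcongr
  calc ENNReal.ofReal (2 ^ (-(p/2)) * (Real.exp (-C₁) / 2) * c₂ * L ^ ((d:ℝ) - 1 - p/2) / n)
      = ENNReal.ofReal (2 ^ (-(p/2)) * L ^ (-(p/2))) * ENNReal.ofReal (Real.exp (-C₁) / 2) *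
        ENNReal.ofReal (c₂ * L ^ ((d:ℝ) - 1) / n) := by
        rw [← ENNReal.ofReal_mul (by positivity), ← ENNReal.ofReal_mul (by positivity)]
        congr 1
        have : L ^ ((d:ℝ) - 1 - p/2) = L ^ (-(p/2)) * L ^ ((d:ℝ) - 1) := by
          rw [← Real.rpow_add hL0]; congr 1; ring
        rw [this]; ring
    _ ≤ _ := by gcongr

end Pool.Agent.H.MP_31d543_pr
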