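import Pool.Agent.H.MP_31d543_pr.Upper
import Pool.Agent.H.MP_31d543_pr.Lower

set_option autoImplicit false

open MeasureTheory ProbabilityTheory Set
open scoped ENNReal

universe u

namespace Pool.Agent.H.MP_31d543_pr

variable {d : ℕ} {n : ℕ}

/-- Coordinatewise distribution function, the inverse of `S`. -/
noncomputable def T (x : EuclideanSpace ℝ (Fin d)) : Fin d → ℝ := fun i => Phi (x i)

lemma measurable_T : Measurable (T : EuclideanSpace ℝ (Fin d) → (Fin d → ℝ)) :=
  measurable_pi_lambda _ (fun i => Phi_measurable.comp (by fun_prop))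

lemma S_T (x : EuclideanSpace ℝ (Fin d)) : S (T x) = x := by
  ext i
  simp [S, T, Q_Phi]

lemma T_mem (x : EuclideanSpace ℝ (Fin d)) : T x ∈ (root d).box := by
  rw [Cell.mem_box]
  intro i
  have h := Phi_mem (x i)
  simp only [root, Cell.l, T, pow_zero, inv_one, zero_add]
  exact ⟨h.1.le, h.2⟩

lemma map_T : (stdGaussian (EuclideanSpace ℝ (Fin d))).map T = lam d := by
  rw [← map_pi_eq_stdGaussian, Measure.map_map measurable_T (WithLp.measurable_toLp 2 (Fin d → ℝ))]
  have e : (T : EuclideanSpace ℝ (Fin d) → (Fin d → ℝ)) ∘ (WithLp.toLp 2) =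
      fun v i => Phi (v i) := rfl
  have hP : ∀ i : Fin d, IsProbabilityMeasure ((gaussianReal 0 1).map Phi) := fun _ =>
    Measure.isProbabilityMeasure_map Phi_measurable.aemeasurable
  rw [e, Measure.pi_map_pi (fun i => Phi_measurable.aemeasurable)]
  simp only [map_Phi]
  rfl

lemma empirical_T (X : Fin n → EuclideanSpace ℝ (Fin d)) :
    (empirical (fun i => T (X i))).map S = empirical X := by
  unfold empirical
  rw [Measure.map_smul, map_finsetSum' _ _ measurable_S]
  congr 1
  apply Finset.sum_congr rfl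
  intro i _
  rw [Measure.map_dirac' measurable_S, S_T]

theorem upper_bound (hd : 2 ≤ d) {p : ℝ} (hp : (d:ℝ) < p) : ∃ C : ℝ, 0 < C ∧
    ∀ n : ℕ, 2 ≤ n → ∃ g : (Fin n → EuclideanSpace ℝ (Fin d)) → ℝ≥0∞, Measurable g ∧
      (∀ X, Wpp p (empirical X) (stdGaussian (EuclideanSpace ℝ (Fin d))) ≤ g X) ∧
      ∫⁻ X, g X ∂(Measure.pi (fun _ : Fin n => stdGaussian (EuclideanSpace ℝ (Fin d)))) ≤
        ENNReal.ofReal (C * (Real.log n ^ ((d:ℝ) - 1 - p / 2) / n)) := by
  have hd0 : NeZero d := ⟨by omega⟩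
  have hd2 : (2:ℝ) ≤ d := by exact_mod_cast hd
  have hp1 : 1 ≤ p := by linarith
  obtain ⟨C, hC0, hC⟩ := upper_core (d := d) hd hp
  refine ⟨C, hC0, fun n hn => ?_⟩
  obtain ⟨K, hK⟩ := hC n hn
  have hm : Measurable (fun (X : Fin n → EuclideanSpace ℝ (Fin d)) (i : Fin n) => T (X i)) :=
    measurable_pi_lambda _ (fun i => measurable_T.comp (measurable_pi_apply i))
  refine ⟨fun X => Fbound p K (fun i => T (X i)), (measurable_Fbound p K).comp hm, ?_, ?_⟩
  · intro X
    have h := Wpp_le_Fbound hp1 (by omega : 0 < n) K (fun i => T (X i)) (fun i => T_mem (X i))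
    rw [map_S_lam, empirical_T] at h
    exact h
  · have e : (Measure.pi (fun _ : Fin n => stdGaussian (EuclideanSpace ℝ (Fin d)))).map
        (fun X i => T (X i)) = Measure.pi (fun _ : Fin n => lam d) := by
      have hP : ∀ i : Fin n, IsProbabilityMeasure
          ((stdGaussian (EuclideanSpace ℝ (Fin d))).map T) := fun _ =>
        Measure.isProbabilityMeasure_map measurable_T.aemeasurable
      rw [Measure.pi_map_pi (fun i => measurable_T.aemeasurable)]
      simp only [map_T]
    rw [← e, lintegral_map (measurable_Fbound p K) hm] at hK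
    exact hK

lemma empirical_eq_map {E : Type*} [MeasurableSpace E] (X : Fin n → E) :
    empirical X = ((n : ℝ≥0∞)⁻¹ • Measure.count : Measure (Fin n)).map X := by
  rw [Measure.map_smul]
  unfold empirical
  congr 1
  rw [Measure.count, Measure.sum_fintype, map_finsetSum' _ _ (measurable_of_finite X)]
  apply Finset.sum_congr rfl
  intro i _
  rw [Measure.map_dirac' (measurable_of_finite X)]

lemma Wpp_empirical_le (p : ℝ) (X Y : Fin n → EuclideanSpace ℝ (Fin d)) :
    Wpp p (empirical X) (empirical Y) ≤ (n : ℝ≥0∞)⁻¹ * ∑ i, edist (X i) (Y i) ^ p := by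
  rw [empirical_eq_map, empirical_eq_map]
  refine (Wpp_map_le _ (measurable_of_finite X) (measurable_of_finite Y)).trans ?_
  rw [lintegral_smul_measure, lintegral_count, tsum_fintype, smul_eq_mul]

lemma finite_empirical (hn : 0 < n) {E : Type*} [MeasurableSpace E] (X : Fin n → E) :
    IsFiniteMeasure (empirical X) := by
  constructor
  have : (n : ℝ≥0∞) ≠ 0 := by simpa using hn.ne'
  rw [empirical_eq_map, Measure.map_apply (measurable_of_finite X) MeasurableSet.univ]
  simp only [preimage_univ, Measure.smul_apply, smul_eq_mul]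
  exact ENNReal.mul_lt_top (ENNReal.inv_lt_top.2 (by exact_mod_cast hn)) (measure_lt_top _ _)

/-- The map `x ↦ W_p^p(empirical x, μ)` is measurable. -/
theorem measurable_Wpp {p : ℝ} (hp : 1 ≤ p) (hn : 0 < n) (μ : Measure (EuclideanSpace ℝ (Fin d))) :
    Measurable (fun X : Fin n → EuclideanSpace ℝ (Fin d) => Wpp p (empirical X) μ) := by
  have hp0 : 0 < p := by linarith
  have hq : 0 < 1 / p := by positivity
  have hlsc : LowerSemicontinuous (fun X : Fin n → EuclideanSpace ℝ (Fin d) =>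
      Wpp p (empirical X) μ ^ (1 / p)) := by
    intro X₀ a ha
    have hcont : Continuous (fun X : Fin n → EuclideanSpace ℝ (Fin d) =>
        ((n : ℝ≥0∞)⁻¹ * ∑ i, edist (X₀ i) (X i) ^ p) ^ (1 / p) + a) := by
      refine Continuous.add ?_ continuous_const
      refine (ENNReal.continuous_rpow_const).comp ?_
      refine (ENNReal.continuous_const_mul (ENNReal.inv_ne_top.2 (by simpa using hn.ne'))).comp ?_
      refine continuous_finsetSum _ (fun i _ => ?_)
      refine (ENNReal.continuous_rpow_const).comp ?_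
      exact continuous_const.edist (continuous_apply i)
    have h0 : ((n : ℝ≥0∞)⁻¹ * ∑ i, edist (X₀ i) (X₀ i) ^ p) ^ (1 / p) + a <
        Wpp p (empirical X₀) μ ^ (1 / p) := by
      simpa [ENNReal.zero_rpow_of_pos hp0, ENNReal.zero_rpow_of_pos (inv_pos.2 hp0)] using ha
    filter_upwards [hcont.continuousAt.eventually (gt_mem_nhds h0)] with X hX
    by_contra hcon
    push Not at hcon
    have hf1 := finite_empirical hn X₀
    have hf2 := finite_empirical hn X
    have h1 := Wpp_triangle hp (empirical X₀) (empirical X) μ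
    have h2 : Wpp p (empirical X₀) (empirical X) ^ (1 / p) ≤
        ((n : ℝ≥0∞)⁻¹ * ∑ i, edist (X₀ i) (X i) ^ p) ^ (1 / p) :=
      ENNReal.rpow_le_rpow (Wpp_empirical_le p X₀ X) hq.le
    exact absurd (h1.trans (add_le_add h2 hcon)) (not_le.2 hX)
  have h := hlsc.measurable.pow_const p
  have e : (fun X : Fin n → EuclideanSpace ℝ (Fin d) => (Wpp p (empirical X) μ ^ (1 / p)) ^ p) =
      fun X => Wpp p (empirical X) μ := by
    funext X
    rw [← ENNReal.rpow_mul, one_div, inv_mul_cancel₀ hp0.ne', ENNReal.rpow_one]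
  rwa [e] at h

/-- Two-sided rate, for an arbitrary independent sample. -/
theorem main (d : ℕ) (hd : 2 ≤ d) (p : ℝ) (hp : (d:ℝ) < p) :
    ∃ c C : ℝ, 0 < c ∧ 0 < C ∧ ∃ N : ℕ, ∀ n : ℕ, N ≤ n →
      ∀ (Ω : Type u) [MeasurableSpace Ω] (P : Measure Ω) [IsProbabilityMeasure P]
        (X : Fin n → Ω → EuclideanSpace ℝ (Fin d)),
        (∀ i, Measurable (X i)) → iIndepFun X P →
        (∀ i, P.map (X i) = stdGaussian (EuclideanSpace ℝ (Fin d))) →
        Measurable (fun ω => Wpp p (empirical (fun i => X i ω))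
          (stdGaussian (EuclideanSpace ℝ (Fin d)))) ∧
        ENNReal.ofReal (c * (Real.log n ^ ((d:ℝ) - 1 - p / 2) / n)) ≤
          ∫⁻ ω, Wpp p (empirical (fun i => X i ω)) (stdGaussian (EuclideanSpace ℝ (Fin d))) ∂P ∧
        ∫⁻ ω, Wpp p (empirical (fun i => X i ω)) (stdGaussian (EuclideanSpace ℝ (Fin d))) ∂P ≤
          ENNReal.ofReal (C * (Real.log n ^ ((d:ℝ) - 1 - p / 2) / n)) := by
  have hd2 : (2:ℝ) ≤ d := by exact_mod_cast hd
  have hp1 : 1 ≤ p := by linarith
  obtain ⟨c, hc0, hc⟩ := lower_bound d hd p hp1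
  obtain ⟨C, hC0, hC⟩ := upper_bound hd hp
  obtain ⟨N, hN⟩ := Filter.eventually_atTop.1 hc
  refine ⟨c, C, hc0, hC0, max N 2, fun n hn Ω _ P _ X hXm hXi hXl => ?_⟩
  have hn1 : N ≤ n := (le_max_left _ _).trans hn
  have hn2 : 2 ≤ n := (le_max_right _ _).trans hn
  have hn0 : 0 < n := by omega
  set μ := stdGaussian (EuclideanSpace ℝ (Fin d)) with hμ
  have hmX : Measurable (fun ω i => X i ω) := measurable_pi_lambda _ hXm
  have hlaw : P.map (fun ω i => X i ω) = Measure.pi (fun _ : Fin n => μ) := by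
    rw [(iIndepFun_iff_map_fun_eq_pi_map (fun i => (hXm i).aemeasurable)).1 hXi]
    simp only [hXl]
  have hmW := measurable_Wpp (d := d) hp1 hn0 μ
  have hint : ∫⁻ ω, Wpp p (empirical (fun i => X i ω)) μ ∂P =
      ∫⁻ x, Wpp p (empirical x) μ ∂(Measure.pi (fun _ : Fin n => μ)) := by
    rw [← hlaw, lintegral_map hmW hmX]
  refine ⟨hmW.comp hmX, ?_, ?_⟩
  · obtain ⟨g, hg, hgW, hgi⟩ := hN n hn1
    rw [hint, ← mul_div_assoc]
    exact hgi.trans (lintegral_mono hgW)
  · obtain ⟨g, hg, hgW, hgi⟩ := hC n hn2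
    rw [hint]
    exact (lintegral_mono hgW).trans hgi

end Pool.Agent.H.MP_31d543_pr
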