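import Mathlib

set_option autoImplicit false

namespace Pool.Agent.H.MP_31d543_pr

lemma geom_sum {κ : ℝ} (hκ : 0 < κ) (g : ℝ) : ∃ C : ℝ, 0 < C ∧ ∀ K : ℕ,
    ∑ k ∈ Finset.range K, (2:ℝ) ^ (κ * k) * ((k:ℝ) + 1) ^ g ≤
      C * ((2:ℝ) ^ (κ * K) * ((K:ℝ) + 1) ^ g) := by
  set N : ℕ := ⌈|g|⌉₊ with hN
  set r : ℝ := (2:ℝ) ^ (-κ) with hr
  have hr0 : 0 < r := by positivity
  have hr1 : r < 1 := by
    rw [hr]
    exact Real.rpow_lt_one_of_one_lt_of_neg (by norm_num) (by linarith)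
  have hsum : Summable (fun i : ℕ => ((i:ℝ) ^ N * r ^ i)) :=
    summable_pow_mul_geometric_of_norm_lt_one N (by rwa [Real.norm_of_nonneg hr0.le])
  have hsum2 : Summable (fun i : ℕ => (((i + 1 : ℕ):ℝ) + 1) ^ N * r ^ (i + 1)) := by
    have h1 : Summable (fun i : ℕ => (((i + 2 : ℕ):ℝ) ^ N * r ^ (i + 2))) :=
      (summable_nat_add_iff 2).2 hsum
    have h2 := h1.mul_left r⁻¹
    refine h2.congr (fun i => ?_)
    push_cast
    rw [pow_succ r (i + 1)]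
    field_simp
    ring
  set T : ℝ := ∑' i : ℕ, (((i + 1 : ℕ):ℝ) + 1) ^ N * r ^ (i + 1) with hT
  have hT0 : 0 ≤ T := tsum_nonneg (fun i => by positivity)
  refine ⟨T + 1, by linarith, ?_⟩
  intro K
  have hK : (0:ℝ) < (K:ℝ) + 1 := by positivity
  have hterm : ∀ k ∈ Finset.range K, (2:ℝ) ^ (κ * k) * ((k:ℝ) + 1) ^ g ≤
      ((2:ℝ) ^ (κ * K) * ((K:ℝ) + 1) ^ g) *
        ((((K - 1 - k + 1 : ℕ):ℝ) + 1) ^ N * r ^ (K - 1 - k + 1)) := by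
    intro k hk
    have hkK : k < K := Finset.mem_range.1 hk
    have e : K - 1 - k + 1 = K - k := by omega
    rw [e]
    have hk0 : (0:ℝ) < (k:ℝ) + 1 := by positivity
    have hcast : ((K - k : ℕ):ℝ) = (K:ℝ) - k := by
      rw [Nat.cast_sub hkK.le]
    have hkK' : (k:ℝ) + 1 ≤ K := by exact_mod_cast hkK
    -- powers of two
    have h2 : (2:ℝ) ^ (κ * k) = (2:ℝ) ^ (κ * K) * r ^ (K - k) := by
      rw [hr, ← Real.rpow_natCast, ← Real.rpow_mul (by norm_num), ← Real.rpow_add (by norm_num),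
        hcast]
      congr 1
      ring
    -- polynomial factor
    have hratio1 : 1 ≤ ((K:ℝ) + 1) / ((k:ℝ) + 1) := by
      rw [one_le_div hk0]; linarith
    have hratio2 : ((K:ℝ) + 1) / ((k:ℝ) + 1) ≤ ((K - k : ℕ):ℝ) + 1 := by
      rw [div_le_iff₀ hk0, hcast]
      have : (0:ℝ) ≤ k := Nat.cast_nonneg k
      nlinarith
    have h3 : ((k:ℝ) + 1) ^ g ≤ ((K:ℝ) + 1) ^ g * (((K - k : ℕ):ℝ) + 1) ^ N := by
      have e1 : ((k:ℝ) + 1) ^ g = ((K:ℝ) + 1) ^ g * (((K:ℝ) + 1) / ((k:ℝ) + 1)) ^ (-g) := by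
        rw [Real.div_rpow hK.le hk0.le, Real.rpow_neg hK.le, Real.rpow_neg hk0.le]
        have := Real.rpow_pos_of_pos hK g
        have := Real.rpow_pos_of_pos hk0 g
        field_simp
      rw [e1]
      apply mul_le_mul_of_nonneg_left _ (by positivity)
      calc (((K:ℝ) + 1) / ((k:ℝ) + 1)) ^ (-g) ≤ (((K:ℝ) + 1) / ((k:ℝ) + 1)) ^ (N:ℝ) := by
            apply Real.rpow_le_rpow_of_exponent_le hratio1
            calc -g ≤ |g| := neg_le_abs g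
              _ ≤ (N:ℝ) := Nat.le_ceil _
        _ = (((K:ℝ) + 1) / ((k:ℝ) + 1)) ^ N := Real.rpow_natCast _ _
        _ ≤ (((K - k : ℕ):ℝ) + 1) ^ N := pow_le_pow_left₀ (by positivity) hratio2 N
    rw [h2]
    calc (2:ℝ) ^ (κ * K) * r ^ (K - k) * ((k:ℝ) + 1) ^ g
        ≤ (2:ℝ) ^ (κ * K) * r ^ (K - k) * (((K:ℝ) + 1) ^ g * (((K - k : ℕ):ℝ) + 1) ^ N) :=
          mul_le_mul_of_nonneg_left h3 (by positivity)
      _ = _ := by ring
  calc ∑ k ∈ Finset.range K, (2:ℝ) ^ (κ * k) * ((k:ℝ) + 1) ^ g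
      ≤ ∑ k ∈ Finset.range K, ((2:ℝ) ^ (κ * K) * ((K:ℝ) + 1) ^ g) *
        ((((K - 1 - k + 1 : ℕ):ℝ) + 1) ^ N * r ^ (K - 1 - k + 1)) := Finset.sum_le_sum hterm
    _ = ((2:ℝ) ^ (κ * K) * ((K:ℝ) + 1) ^ g) * ∑ k ∈ Finset.range K,
        ((((k + 1 : ℕ):ℝ) + 1) ^ N * r ^ (k + 1)) := by
        rw [← Finset.mul_sum, Finset.sum_range_reflect
          (fun i => (((i + 1 : ℕ):ℝ) + 1) ^ N * r ^ (i + 1)) K]
    _ ≤ ((2:ℝ) ^ (κ * K) * ((K:ℝ) + 1) ^ g) * T := by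
        apply mul_le_mul_of_nonneg_left _ (by positivity)
        exact hsum2.sum_le_tsum _ (fun i _ => by positivity)
    _ ≤ _ := by
        have : 0 ≤ (2:ℝ) ^ (κ * K) * ((K:ℝ) + 1) ^ g := by positivity
        nlinarith

end Pool.Agent.H.MP_31d543_pr
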