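import Pool.Agent.H.MP_31d543_pr.Unif

set_option autoImplicit false

open MeasureTheory Set Real
open scoped ENNReal

namespace Pool.Agent.H.MP_31d543_pr

lemma tau_symm {θ v : ℝ} (hv : v ∈ Ioo (0:ℝ) 1) : tau (1 - θ) (1 - v) = 1 - tau θ v := by
  obtain ⟨hv0, hv1⟩ := hv
  unfold tau
  rcases lt_trichotomy v θ with h | h | h
  · rw [if_neg (by linarith), if_pos h.le]
    congr 1; congr 1 <;> ring
  · subst h
    rw [if_pos le_rfl, if_pos le_rfl]
    have : 1 - v ≠ 0 := by linarith
    field_simp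
    norm_num
  · rw [if_pos (by linarith), if_neg (by linarith)]
    ring

lemma log_tau_right {θ v : ℝ} (h0 : 0 ≤ θ) (h1 : θ ≤ 1) (hv : v ∈ Ioo (0:ℝ) 1) :
    |log (1 - tau θ v) - log (1 - v)| ≤ 2 * |2 * θ - 1| * (1 - log (1 - v)) := by
  obtain ⟨hv0, hv1⟩ := hv
  have hτ := tau_mem h0 h1 ⟨hv0, hv1⟩
  have hlog : log (1 - v) ≤ 0 := log_nonpos (by linarith) (by linarith)
  have h1v : 0 < 1 - v := by linarith
  have h1τ : 0 < 1 - tau θ v := by linarith [hτ.2]
  rcases le_or_gt v θ with h | h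
  · -- v ≤ θ
    have hθ : 0 < θ := lt_of_lt_of_le hv0 h
    have hτe : tau θ v = v / (2 * θ) := by simp [tau, h]
    rcases le_or_gt θ (1 / 2) with h2 | h2
    · have habs : |2 * θ - 1| = 1 - 2 * θ := by rw [abs_of_nonpos (by linarith)]; ring
      have hτv : v ≤ tau θ v := by
        rw [hτe, le_div_iff₀ (by positivity)]
        nlinarith
      have hτh : tau θ v ≤ 1 / 2 := by
        rw [hτe, div_le_iff₀ (by positivity)]
        linarith
      have hnn : log (1 - tau θ v) - log (1 - v) ≤ 0 := by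
        have := log_le_log h1τ (by linarith : 1 - tau θ v ≤ 1 - v)
        linarith
      rw [abs_of_nonpos hnn, neg_sub, ← log_div h1v.ne' h1τ.ne', habs]
      have h3 : log ((1 - v) / (1 - tau θ v)) ≤ (1 - v) / (1 - tau θ v) - 1 :=
        log_le_sub_one_of_pos (by positivity)
      have h4 : (1 - v) / (1 - tau θ v) - 1 = (tau θ v - v) / (1 - tau θ v) := by
        field_simp; ring
      have h5 : (tau θ v - v) / (1 - tau θ v) ≤ 2 * (tau θ v - v) := by
        rw [div_le_iff₀ h1τ]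
        nlinarith
      have h6 : 2 * (tau θ v - v) ≤ 1 - 2 * θ := by
        have : 2 * (tau θ v - v) = (v / θ) * (1 - 2 * θ) := by
          rw [hτe]; field_simp
        rw [this]
        have hvθ : v / θ ≤ 1 := by rw [div_le_one hθ]; exact h
        nlinarith
      nlinarith
    · have habs : |2 * θ - 1| = 2 * θ - 1 := abs_of_pos (by linarith)
      have hτv : tau θ v ≤ v := by
        rw [hτe, div_le_iff₀ (by positivity)]
        nlinarith
      have hnn : 0 ≤ log (1 - tau θ v) - log (1 - v) := by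
        have := log_le_log h1v (by linarith : 1 - v ≤ 1 - tau θ v)
        linarith
      rw [abs_of_nonneg hnn, habs]
      rcases le_or_gt v (3 / 4) with h3 | h3
      · rw [← log_div h1τ.ne' h1v.ne']
        have h4 : log ((1 - tau θ v) / (1 - v)) ≤ (1 - tau θ v) / (1 - v) - 1 :=
          log_le_sub_one_of_pos (by positivity)
        have h5 : (1 - tau θ v) / (1 - v) - 1 = (v - tau θ v) / (1 - v) := by
          field_simp; ring
        have h6 : (v - tau θ v) / (1 - v) ≤ 4 * (v - tau θ v) := by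
          rw [div_le_iff₀ h1v]
          nlinarith
        have h7 : 4 * (v - tau θ v) ≤ 2 * (2 * θ - 1) := by
          have : 4 * (v - tau θ v) = 2 * (v / θ) * (2 * θ - 1) := by
            rw [hτe]; field_simp; ring
          rw [this]
          have hvθ : v / θ ≤ 1 := by rw [div_le_one hθ]; exact h
          have : 0 < 2 * θ - 1 := by linarith
          nlinarith
        nlinarith
      · have h4 : log (1 - tau θ v) ≤ 0 := log_nonpos h1τ.le (by linarith [hτ.1])
        nlinarith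
  · -- θ < v
    have hθ : 0 < 1 - θ := by linarith
    have hτe : 1 - tau θ v = (1 - v) / (2 * (1 - θ)) := by simp [tau, not_le.2 h]
    have e : log (1 - tau θ v) - log (1 - v) = - log (2 * (1 - θ)) := by
      rw [hτe, log_div h1v.ne' (by positivity)]; ring
    rw [e, abs_neg]
    rcases le_or_gt θ (1 / 2) with h2 | h2
    · have habs : |2 * θ - 1| = 1 - 2 * θ := by rw [abs_of_nonpos (by linarith)]; ring
      have h3 : log (2 * (1 - θ)) ≤ 2 * (1 - θ) - 1 := log_le_sub_one_of_pos (by positivity)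
      rw [abs_of_nonneg (log_nonneg (by linarith)), habs]
      nlinarith
    · have habs : |2 * θ - 1| = 2 * θ - 1 := abs_of_pos (by linarith)
      have hneg : log (2 * (1 - θ)) ≤ 0 := log_nonpos (by positivity) (by linarith)
      rw [abs_of_nonpos hneg, habs]
      rcases le_or_gt θ (3 / 4) with h3 | h3
      · have h4 : log (2 * (1 - θ))⁻¹ ≤ (2 * (1 - θ))⁻¹ - 1 :=
          log_le_sub_one_of_pos (by positivity)
        rw [log_inv] at h4
        have h5 : (2 * (1 - θ))⁻¹ - 1 ≤ 2 * (2 * θ - 1) := by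
          have : (2 * (1 - θ))⁻¹ - 1 = (2 * θ - 1) / (2 * (1 - θ)) := by
            field_simp; ring
          rw [this, div_le_iff₀ (by positivity)]
          nlinarith
        nlinarith
      · have h4 : log (1 - v) ≤ log (1 - θ) := log_le_log h1v (by linarith)
        have h5 : log (2 * (1 - θ)) = log 2 + log (1 - θ) := log_mul (by norm_num) hθ.ne'
        have h6 : 0 < log 2 := log_pos (by norm_num)
        nlinarith

lemma log_tau_left {θ v : ℝ} (h0 : 0 ≤ θ) (h1 : θ ≤ 1) (hv : v ∈ Ioo (0:ℝ) 1) :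
    |log (tau θ v) - log v| ≤ 2 * |2 * θ - 1| * (1 - log v) := by
  have h := log_tau_right (θ := 1 - θ) (v := 1 - v) (by linarith) (by linarith)
    ⟨by linarith [hv.2], by linarith [hv.1]⟩
  rw [tau_symm hv, sub_sub_cancel, sub_sub_cancel] at h
  have e : |2 * (1 - θ) - 1| = |2 * θ - 1| := by rw [← abs_neg]; congr 1; ring
  rwa [e] at h

/-- The logit function. -/
noncomputable def logit (v : ℝ) : ℝ := log (v / (1 - v))

lemma logit_eq {v : ℝ} (hv : v ∈ Ioo (0:ℝ) 1) : logit v = log v - log (1 - v) :=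
  log_div hv.1.ne' (by linarith [hv.2])

lemma logit_tau {θ v : ℝ} (h0 : 0 ≤ θ) (h1 : θ ≤ 1) (hv : v ∈ Ioo (0:ℝ) 1) :
    |logit (tau θ v) - logit v| ≤ 2 * |2 * θ - 1| * (2 - log v - log (1 - v)) := by
  have h2 := log_tau_right h0 h1 hv
  have h3 := log_tau_left h0 h1 hv
  rw [logit_eq hv, logit_eq (tau_mem h0 h1 hv)]
  calc |log (tau θ v) - log (1 - tau θ v) - (log v - log (1 - v))|
      = |(log (tau θ v) - log v) - (log (1 - tau θ v) - log (1 - v))| := by congr 1; ring
    _ ≤ |log (tau θ v) - log v| + |log (1 - tau θ v) - log (1 - v)| := abs_sub _ _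
    _ ≤ _ := by linarith

lemma abs_logit_le {v : ℝ} (hv : v ∈ Ioo (0:ℝ) 1) : |logit v| ≤ 2 - log v - log (1 - v) := by
  rw [logit_eq hv]
  have h1 : log v ≤ 0 := log_nonpos hv.1.le hv.2.le
  have h2 : log (1 - v) ≤ 0 := log_nonpos (by linarith [hv.2]) (by linarith [hv.1])
  rw [abs_le]; constructor <;> linarith

lemma psi_finite {p : ℝ} (hp : 0 < p) :
    ∫⁻ v, ENNReal.ofReal (2 - log v - log (1 - v)) ^ p ∂lam1 < ∞ := by
  set ε : ℝ := 1 / (2 * p) with hε
  have hε0 : 0 < ε := by positivity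
  have hbound : ∀ v ∈ Ioo (0:ℝ) 1, ENNReal.ofReal (2 - log v - log (1 - v)) ^ p ≤
      ENNReal.ofReal ((2 * (1 + 1 / ε)) ^ p * (v ^ (-(1/2):ℝ) + (1 - v) ^ (-(1/2):ℝ))) := by
    intro v hv
    have hv0 : 0 < v := hv.1
    have hv1 : 0 < 1 - v := by linarith [hv.2]
    have h1 : -log v ≤ v ^ (-ε) / ε := by
      have := Real.log_le_rpow_div (x := v⁻¹) (by positivity) hε0
      rwa [log_inv, Real.inv_rpow hv0.le, ← Real.rpow_neg hv0.le] at this
    have h2 : -log (1 - v) ≤ (1 - v) ^ (-ε) / ε := by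
      have := Real.log_le_rpow_div (x := (1 - v)⁻¹) (by positivity) hε0
      rwa [log_inv, Real.inv_rpow hv1.le, ← Real.rpow_neg hv1.le] at this
    have h3 : 1 ≤ v ^ (-ε) := Real.one_le_rpow_of_pos_of_le_one_of_nonpos hv0 hv.2.le (by linarith)
    have h4 : 1 ≤ (1 - v) ^ (-ε) :=
      Real.one_le_rpow_of_pos_of_le_one_of_nonpos hv1 (by linarith) (by linarith)
    have hl1 : log v ≤ 0 := log_nonpos hv.1.le hv.2.le
    have hl2 : log (1 - v) ≤ 0 := log_nonpos (by linarith [hv.2]) (by linarith [hv.1])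
    have h5 : 2 - log v - log (1 - v) ≤ (1 + 1 / ε) * (v ^ (-ε) + (1 - v) ^ (-ε)) := by
      have : (1 + 1 / ε) * (v ^ (-ε) + (1 - v) ^ (-ε)) =
        (v ^ (-ε) + (1 - v) ^ (-ε)) + (v ^ (-ε) / ε + (1 - v) ^ (-ε) / ε) := by ring
      rw [this]; linarith
    have hnn : 0 ≤ 2 - log v - log (1 - v) := by linarith
    rw [ENNReal.ofReal_rpow_of_nonneg hnn hp.le]
    apply ENNReal.ofReal_le_ofReal
    have ha : 0 ≤ v ^ (-ε) := by positivity
    have hb : 0 ≤ (1 - v) ^ (-ε) := by positivity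
    calc (2 - log v - log (1 - v)) ^ p
        ≤ ((1 + 1 / ε) * (v ^ (-ε) + (1 - v) ^ (-ε))) ^ p :=
          Real.rpow_le_rpow hnn h5 hp.le
      _ ≤ ((2 * (1 + 1 / ε)) * max (v ^ (-ε)) ((1 - v) ^ (-ε))) ^ p := by
          apply Real.rpow_le_rpow (by positivity) _ hp.le
          have h6 := le_max_left (v ^ (-ε)) ((1 - v) ^ (-ε))
          have h7 := le_max_right (v ^ (-ε)) ((1 - v) ^ (-ε))
          have h8 : 0 < 1 + 1 / ε := by positivity
          nlinarith
      _ = (2 * (1 + 1 / ε)) ^ p * (max (v ^ (-ε)) ((1 - v) ^ (-ε))) ^ p :=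
          Real.mul_rpow (by positivity) (by positivity)
      _ ≤ (2 * (1 + 1 / ε)) ^ p * (v ^ (-(1/2):ℝ) + (1 - v) ^ (-(1/2):ℝ)) := by
          apply mul_le_mul_of_nonneg_left _ (by positivity)
          have e1 : (v ^ (-ε)) ^ p = v ^ (-(1/2):ℝ) := by
            rw [← Real.rpow_mul hv0.le]; congr 1; rw [hε]; field_simp
          have e2 : ((1 - v) ^ (-ε)) ^ p = (1 - v) ^ (-(1/2):ℝ) := by
            rw [← Real.rpow_mul hv1.le]; congr 1; rw [hε]; field_simp
          have p1 : 0 ≤ v ^ (-(1/2):ℝ) := by positivity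
          have p2 : 0 ≤ (1 - v) ^ (-(1/2):ℝ) := by positivity
          rcases max_choice (v ^ (-ε)) ((1 - v) ^ (-ε)) with h | h
          · rw [h, e1]; linarith
          · rw [h, e2]; linarith
  have hint1 : IntegrableOn (fun v : ℝ => v ^ (-(1/2):ℝ)) (Ioo 0 1) := by
    have := (intervalIntegral.intervalIntegrable_rpow' (a := 0) (b := 1)
      (by norm_num : (-1:ℝ) < -(1/2)))
    rw [intervalIntegrable_iff_integrableOn_Ioo_of_le zero_le_one] at this
    exact this
  have hint2 : IntegrableOn (fun v : ℝ => (1 - v) ^ (-(1/2):ℝ)) (Ioo 0 1) := by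
    have := (intervalIntegral.intervalIntegrable_rpow' (a := 0) (b := 1)
      (by norm_num : (-1:ℝ) < -(1/2))).comp_sub_left 1
    simp only [sub_zero, sub_self] at this
    have this' := this.symm
    rw [intervalIntegrable_iff_integrableOn_Ioo_of_le zero_le_one] at this'
    exact this'
  have hint : IntegrableOn (fun v : ℝ => (2 * (1 + 1 / ε)) ^ p *
      (v ^ (-(1/2):ℝ) + (1 - v) ^ (-(1/2):ℝ))) (Ioo 0 1) := (hint1.add hint2).const_mul _
  calc ∫⁻ v, ENNReal.ofReal (2 - log v - log (1 - v)) ^ p ∂lam1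
      ≤ ∫⁻ v in Ioo (0:ℝ) 1, ENNReal.ofReal ((2 * (1 + 1 / ε)) ^ p *
          (v ^ (-(1/2):ℝ) + (1 - v) ^ (-(1/2):ℝ))) := by
        apply lintegral_mono_ae
        filter_upwards [ae_restrict_mem measurableSet_Ioo] with v hv using hbound v hv
    _ < ∞ := by
        refine lt_of_le_of_lt ?_ hint.2
        apply lintegral_mono
        intro v
        exact Real.ofReal_le_enorm _

end Pool.Agent.H.MP_31d543_pr
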