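import Mathlib

set_option autoImplicit false

open MeasureTheory Set
open scoped ENNReal

namespace Pool.Agent.H.MP_31d543_pr

lemma rpow_le_exp {p x : ℝ} (hp : 0 < p) (hx : 0 ≤ x) : x ^ p ≤ p ^ p * Real.exp x := by
  have h1 : x / p ≤ Real.exp (x / p) := by
    have := Real.add_one_le_exp (x / p)
    linarith
  have h2 : x ≤ p * Real.exp (x / p) := by
    rw [div_le_iff₀ hp] at h1
    linarith
  calc x ^ p ≤ (p * Real.exp (x / p)) ^ p := Real.rpow_le_rpow hx h2 hp.le
    _ = p ^ p * Real.exp x := by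
        rw [Real.mul_rpow hp.le (Real.exp_pos _).le, ← Real.exp_mul]
        congr 2
        field_simp

/-- Exponential moment of a sum of i.i.d. centred bounded variables. -/
lemma exp_moment {α : Type*} [MeasurableSpace α] (P : Measure α) [IsProbabilityMeasure P]
    (n : ℕ) {f : α → ℝ} (hf : Measurable f) (hf1 : ∀ a, |f a| ≤ 1) (hf0 : ∫ a, f a ∂P = 0)
    {q : ℝ} (hq : ∫ a, f a ^ 2 ∂P ≤ q) {t : ℝ} (ht : |t| ≤ 1) :
    ∫⁻ ω, ENNReal.ofReal (Real.exp (t * ∑ i, f (ω i))) ∂(Measure.pi (fun _ : Fin n => P)) ≤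
      ENNReal.ofReal (Real.exp (n * (t ^ 2 * q))) := by
  have hint0 : Integrable (fun a => f a) P :=
    Integrable.of_bound hf.aestronglyMeasurable 1 (Filter.Eventually.of_forall hf1)
  have hint2 : Integrable (fun a => f a ^ 2) P := by
    refine Integrable.of_bound (hf.pow_const 2).aestronglyMeasurable 1
      (Filter.Eventually.of_forall (fun a => ?_))
    rw [Real.norm_eq_abs, abs_pow]
    exact pow_le_one₀ (abs_nonneg _) (hf1 a)
  have hinte : Integrable (fun a => Real.exp (t * f a)) P := by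
    refine Integrable.of_bound ((hf.const_mul t).exp).aestronglyMeasurable (Real.exp 1)
      (Filter.Eventually.of_forall (fun a => ?_))
    rw [Real.norm_eq_abs, abs_of_pos (Real.exp_pos _)]
    apply Real.exp_le_exp.2
    calc t * f a ≤ |t * f a| := le_abs_self _
      _ = |t| * |f a| := abs_mul _ _
      _ ≤ 1 * 1 := mul_le_mul ht (hf1 a) (abs_nonneg _) zero_le_one
      _ = 1 := one_mul 1
  have hI1 : Integrable (fun a => 1 + t * f a) P := (integrable_const 1).add (hint0.const_mul t)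
  have hI2 : Integrable (fun a => t ^ 2 * f a ^ 2) P := hint2.const_mul (t ^ 2)
  have hI3 : Integrable (fun a => 1 + t * f a + t ^ 2 * f a ^ 2) P := hI1.add hI2
  have hone : ∫ a, Real.exp (t * f a) ∂P ≤ Real.exp (t ^ 2 * q) := by
    calc ∫ a, Real.exp (t * f a) ∂P ≤ ∫ a, (1 + t * f a + t ^ 2 * f a ^ 2) ∂P := by
          apply integral_mono hinte hI3
          intro a
          have h1 : |t * f a| ≤ 1 := by
            rw [abs_mul]
            exact mul_le_one₀ ht (abs_nonneg _) (hf1 a)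
          have h2 := abs_le.1 (Real.abs_exp_sub_one_sub_id_le h1)
          simp only
          nlinarith [h2.2]
      _ = 1 + t ^ 2 * ∫ a, f a ^ 2 ∂P := by
          rw [integral_add hI1 hI2, integral_add (integrable_const 1) (hint0.const_mul t),
            integral_const_mul, integral_const_mul, hf0]
          simp
      _ ≤ 1 + t ^ 2 * q := by
          have : 0 ≤ t ^ 2 := sq_nonneg t
          nlinarith [mul_le_mul_of_nonneg_left hq this]
      _ ≤ Real.exp (t ^ 2 * q) := by
          have := Real.add_one_le_exp (t ^ 2 * q)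
          linarith
  have hprod : ∀ ω : Fin n → α, Real.exp (t * ∑ i, f (ω i)) = ∏ i, Real.exp (t * f (ω i)) := by
    intro ω
    rw [← Real.exp_sum, Finset.mul_sum]
  have hinteg : Integrable (fun ω : Fin n → α => ∏ i, Real.exp (t * f (ω i)))
      (Measure.pi (fun _ : Fin n => P)) :=
    Integrable.fintype_prod (f := fun (_ : Fin n) a => Real.exp (t * f a)) (fun _ => hinte)
  simp only [hprod]
  rw [← ofReal_integral_eq_lintegral_ofReal hinteg (Filter.Eventually.of_forall
    (fun ω => Finset.prod_nonneg (fun i _ => (Real.exp_pos _).le)))]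
  apply ENNReal.ofReal_le_ofReal
  rw [integral_fintype_prod_eq_prod (f := fun (_ : Fin n) a => Real.exp (t * f a)),
    Finset.prod_const, Finset.card_univ, Fintype.card_fin]
  calc (∫ a, Real.exp (t * f a) ∂P) ^ n ≤ Real.exp (t ^ 2 * q) ^ n :=
        pow_le_pow_left₀ (integral_nonneg (fun a => (Real.exp_pos _).le)) hone n
    _ = Real.exp (n * (t ^ 2 * q)) := by rw [← Real.exp_nat_mul]

/-- Moment constant. -/
noncomputable def CM (p : ℝ) : ℝ := p ^ p * (2 * Real.exp 1)

lemma CM_nonneg {p : ℝ} (hp : 0 < p) : 0 ≤ CM p := by unfold CM; positivity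

/-- Rosenthal-type moment bound. -/
lemma moment_bound {α : Type*} [MeasurableSpace α] (P : Measure α) [IsProbabilityMeasure P]
    (n : ℕ) {f : α → ℝ} (hf : Measurable f) (hf1 : ∀ a, |f a| ≤ 1) (hf0 : ∫ a, f a ∂P = 0)
    {q : ℝ} (hq : ∫ a, f a ^ 2 ∂P ≤ q) (hnq : 1 ≤ n * q) {p : ℝ} (hp : 0 < p) :
    ∫⁻ ω, ENNReal.ofReal |∑ i, f (ω i)| ^ p ∂(Measure.pi (fun _ : Fin n => P)) ≤
      ENNReal.ofReal (CM p * (n * q) ^ (p / 2)) := by
  set m : ℝ := n * q with hm
  have hm0 : 0 < m := by linarith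
  set t : ℝ := (Real.sqrt m)⁻¹ with ht
  have hsq : 1 ≤ Real.sqrt m := by rw [Real.one_le_sqrt]; exact hnq
  have ht0 : 0 < t := by positivity
  have ht1 : |t| ≤ 1 := by rw [abs_of_pos ht0, ht]; exact inv_le_one_of_one_le₀ hsq
  have htm : t ^ 2 * m = 1 := by
    rw [ht, inv_pow, Real.sq_sqrt hm0.le]
    field_simp
  have hexp : ∀ s : ℝ, |s| ≤ 1 → s ^ 2 * m = 1 →
      ∫⁻ ω, ENNReal.ofReal (Real.exp (s * ∑ i, f (ω i))) ∂(Measure.pi (fun _ : Fin n => P)) ≤
        ENNReal.ofReal (Real.exp 1) := by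
    intro s hs hs2
    refine (exp_moment P n hf hf1 hf0 hq hs).trans (ENNReal.ofReal_le_ofReal ?_)
    apply Real.exp_le_exp.2
    rw [← hs2, hm]
    apply le_of_eq; ring
  have hpt : ∀ ω : Fin n → α, ENNReal.ofReal |∑ i, f (ω i)| ^ p ≤
      ENNReal.ofReal (p ^ p * m ^ (p / 2)) *
        (ENNReal.ofReal (Real.exp (t * ∑ i, f (ω i))) +
          ENNReal.ofReal (Real.exp ((-t) * ∑ i, f (ω i)))) := by
    intro ω
    set x : ℝ := ∑ i, f (ω i) with hx
    rw [ENNReal.ofReal_rpow_of_nonneg (abs_nonneg _) hp.le,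
      ← ENNReal.ofReal_add (Real.exp_pos _).le (Real.exp_pos _).le,
      ← ENNReal.ofReal_mul (by positivity)]
    apply ENNReal.ofReal_le_ofReal
    have h1 : |x| = Real.sqrt m * (t * |x|) := by
      rw [ht]; field_simp
    have h2 : |x| ^ p = m ^ (p / 2) * (t * |x|) ^ p := by
      conv_lhs => rw [h1]
      rw [Real.mul_rpow (by positivity) (by positivity), Real.sqrt_eq_rpow, ← Real.rpow_mul hm0.le]
      congr 2
      ring
    have h3 : (t * |x|) ^ p ≤ p ^ p * Real.exp (t * |x|) := rpow_le_exp hp (by positivity)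
    have h4 : Real.exp (t * |x|) ≤ Real.exp (t * x) + Real.exp ((-t) * x) := by
      rcases le_total 0 x with h | h
      · rw [abs_of_nonneg h]
        linarith [Real.exp_pos ((-t) * x)]
      · rw [abs_of_nonpos h]
        have : t * -x = (-t) * x := by ring
        rw [this]
        linarith [Real.exp_pos (t * x)]
    rw [h2]
    calc m ^ (p / 2) * (t * |x|) ^ p ≤ m ^ (p / 2) * (p ^ p * Real.exp (t * |x|)) :=
          mul_le_mul_of_nonneg_left h3 (by positivity)
      _ = p ^ p * m ^ (p / 2) * Real.exp (t * |x|) := by ring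
      _ ≤ _ := mul_le_mul_of_nonneg_left h4 (by positivity)
  have hmeas : ∀ s : ℝ, Measurable (fun ω : Fin n → α =>
      ENNReal.ofReal (Real.exp (s * ∑ i, f (ω i)))) := by
    intro s
    exact ((Finset.measurable_sum _ (fun i _ =>
      hf.comp (measurable_pi_apply i))).const_mul s).exp.ennreal_ofReal
  calc ∫⁻ ω, ENNReal.ofReal |∑ i, f (ω i)| ^ p ∂(Measure.pi (fun _ : Fin n => P))
      ≤ ∫⁻ ω, ENNReal.ofReal (p ^ p * m ^ (p / 2)) *
        (ENNReal.ofReal (Real.exp (t * ∑ i, f (ω i))) +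
          ENNReal.ofReal (Real.exp ((-t) * ∑ i, f (ω i))))
            ∂(Measure.pi (fun _ : Fin n => P)) := lintegral_mono hpt
    _ ≤ ENNReal.ofReal (p ^ p * m ^ (p / 2)) *
          (ENNReal.ofReal (Real.exp 1) + ENNReal.ofReal (Real.exp 1)) := by
        have hm2 : Measurable (fun ω : Fin n → α =>
            (ENNReal.ofReal (Real.exp (t * ∑ i, f (ω i))) +
              ENNReal.ofReal (Real.exp ((-t) * ∑ i, f (ω i))))) := (hmeas t).add (hmeas (-t))
        rw [lintegral_const_mul _ hm2, lintegral_add_left (hmeas t)]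
        gcongr
        · exact hexp t ht1 htm
        · exact hexp (-t) (by rwa [abs_neg]) (by rw [neg_sq]; exact htm)
    _ = ENNReal.ofReal (CM p * m ^ (p / 2)) := by
        rw [← ENNReal.ofReal_add (Real.exp_pos _).le (Real.exp_pos _).le,
          ← ENNReal.ofReal_mul (by positivity)]
        congr 1
        unfold CM
        ring

end Pool.Agent.H.MP_31d543_pr
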