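import Mathlib

set_option autoImplicit false

open MeasureTheory ProbabilityTheory

namespace Pool.Agent.H.MP_31d543_pr

/-- The standard normal distribution function. -/
noncomputable def Phi (x : ℝ) : ℝ := cdf (gaussianReal 0 1) x

/-- The standard normal quantile function (inverse of `Phi` on `(0,1)`, junk outside). -/
noncomputable def Q (u : ℝ) : ℝ := by
  classical
  exact if h : ∃ x, Phi x = u then Classical.choose h else 0

/-- The Gaussian isoperimetric profile, extended by `0` outside `(0,1)`. -/
noncomputable def Iso (u : ℝ) : ℝ := by
  classical
  exact if 0 < u ∧ u < 1 then gaussianPDFReal 0 1 (Q u) else 0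

/-- The length scale of the quantile interval `(α, α + l)`. -/
noncomputable def scale (α l : ℝ) : ℝ := l / (2 * Iso (α + l / 2))

end Pool.Agent.H.MP_31d543_pr
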