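import Pool.Agent.H.MP_31d543_pr.Count
import Pool.Agent.H.MP_31d543_pr.Moment

set_option autoImplicit false

open MeasureTheory ProbabilityTheory Set
open scoped ENNReal

namespace Pool.Agent.H.MP_31d543_pr

section General

variable {E : Type*} [MeasurableSpace E] [PseudoEMetricSpace E] {p : ℝ}

lemma Wpp_comm_le (μ ν : Measure E) : Wpp p μ ν ≤ Wpp p ν μ := by
  conv_rhs => unfold Wpp
  refine le_iInf fun π => le_iInf fun h₁ => le_iInf fun h₂ => ?_
  refine (Wpp_le_of_coupling (π.map Prod.swap) ?_ ?_).trans ?_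
  · rw [Measure.map_map measurable_fst measurable_swap]
    exact h₂
  · rw [Measure.map_map measurable_snd measurable_swap]
    exact h₁
  · refine (lintegral_map_le _ _).trans (le_of_eq ?_)
    simp only [Prod.fst_swap, Prod.snd_swap, edist_comm]

lemma Wpp_comm (μ ν : Measure E) : Wpp p μ ν = Wpp p ν μ :=
  le_antisymm (Wpp_comm_le _ _) (Wpp_comm_le _ _)

lemma Wpp_smul_le (hp : 0 < p) (c : ℝ≥0∞) (hc : c ≠ ∞) (μ ν : Measure E) :
    Wpp p (c • μ) (c • ν) ≤ c * Wpp p μ ν := by
  rcases eq_or_ne c 0 with rfl | hc0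
  · simp [Wpp_self hp]
  have e : c * Wpp p μ ν = ⨅ (π : Measure (E × E)) (_ : π.map Prod.fst = μ)
      (_ : π.map Prod.snd = ν), c * ∫⁻ z, edist z.1 z.2 ^ p ∂π := by
    unfold Wpp
    simp only [ENNReal.mul_iInf_of_ne hc0 hc]
  rw [e]
  refine le_iInf fun π => le_iInf fun h₁ => le_iInf fun h₂ => ?_
  refine (Wpp_le_of_coupling (c • π) ?_ ?_).trans ?_
  · rw [Measure.map_smul, h₁]
  · rw [Measure.map_smul, h₂]
  · rw [lintegral_smul_measure, smul_eq_mul]

end General

/-! ### Counting -/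

section Counting

variable {α : Type*} [MeasurableSpace α] {n : ℕ}

/-- The number of sample points in `s`, as a real number. -/
noncomputable def cnt (s : Set α) (ω : Fin n → α) : ℝ := ∑ i, s.indicator (fun _ => (1:ℝ)) (ω i)

omit [MeasurableSpace α] in
lemma cnt_nonneg (s : Set α) (ω : Fin n → α) : 0 ≤ cnt s ω :=
  Finset.sum_nonneg (fun i _ => Set.indicator_nonneg (fun _ _ => zero_le_one) _)

omit [MeasurableSpace α] in
lemma cnt_union {s t : Set α} (h : Disjoint s t) (ω : Fin n → α) :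
    cnt (s ∪ t) ω = cnt s ω + cnt t ω := by
  unfold cnt
  rw [← Finset.sum_add_distrib]
  apply Finset.sum_congr rfl
  intro i _
  rw [Set.indicator_union_of_disjoint h]

omit [MeasurableSpace α] in
lemma cnt_all {s : Set α} {ω : Fin n → α} (h : ∀ i, ω i ∈ s) : cnt s ω = n := by
  unfold cnt
  rw [Finset.sum_congr rfl (fun i _ => Set.indicator_of_mem (h i) _)]
  simp

lemma empirical_apply {s : Set α} (hs : MeasurableSet s) (ω : Fin n → α) :
    empirical ω s = ENNReal.ofReal (cnt s ω / n) := by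
  unfold empirical cnt
  rw [Measure.smul_apply, Measure.finsetSum_apply, smul_eq_mul, div_eq_inv_mul]
  rcases Nat.eq_zero_or_pos n with rfl | hn
  · simp
  rw [ENNReal.ofReal_mul (by positivity), ENNReal.ofReal_inv_of_pos (by exact_mod_cast hn),
    ENNReal.ofReal_natCast, ENNReal.ofReal_sum_of_nonneg
      (fun i _ => Set.indicator_nonneg (fun _ _ => zero_le_one) _)]
  congr 1
  apply Finset.sum_congr rfl
  intro i _
  rw [Measure.dirac_apply' _ hs]
  by_cases h : ω i ∈ s
  · simp [h]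
  · simp [h]

lemma empirical_lintegral (ω : Fin n → α) {F : α → ℝ≥0∞} (hF : Measurable F) :
    ∫⁻ a, F a ∂(empirical ω) = (n:ℝ≥0∞)⁻¹ * ∑ i, F (ω i) := by
  unfold empirical
  rw [lintegral_smul_measure, lintegral_finsetSum_measure, smul_eq_mul]
  congr 1
  apply Finset.sum_congr rfl
  intro i _
  rw [lintegral_dirac' _ hF]

lemma lintegral_empirical_lintegral (P : Measure α) [IsProbabilityMeasure P] (hn : 0 < n)
    {F : α → ℝ≥0∞} (hF : Measurable F) :
    ∫⁻ ω, ∫⁻ a, F a ∂(empirical ω) ∂(Measure.pi (fun _ : Fin n => P)) = ∫⁻ a, F a ∂P := by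
  simp only [empirical_lintegral _ hF]
  have hm : ∀ i : Fin n, Measurable (fun ω : Fin n → α => F (ω i)) := fun i =>
    hF.comp (measurable_pi_apply i)
  rw [lintegral_const_mul _ (Finset.measurable_sum _ (fun i _ => hm i)),
    lintegral_finsetSum _ (fun i _ => hm i)]
  have : ∀ i : Fin n, ∫⁻ ω, F (ω i) ∂(Measure.pi (fun _ : Fin n => P)) = ∫⁻ a, F a ∂P :=
    fun i => (measurePreserving_eval (fun _ : Fin n => P) i).lintegral_comp hF
  simp only [this, Finset.sum_const, Finset.card_univ, Fintype.card_fin, nsmul_eq_mul]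
  rw [← mul_assoc, ENNReal.inv_mul_cancel (by exact_mod_cast hn.ne') (ENNReal.natCast_ne_top n),
    one_mul]

lemma measurable_empirical_lintegral {F : α → ℝ≥0∞} (hF : Measurable F) :
    Measurable (fun ω : Fin n → α => ∫⁻ a, F a ∂(empirical ω)) := by
  simp only [empirical_lintegral _ hF]
  exact (Finset.measurable_sum _ (fun i _ => hF.comp (measurable_pi_apply i))).const_mul _

end Counting

/-- The elementary pointwise inequality behind the expectation bound. -/
lemma ratio_bound {N D m n p : ℝ} (hN : 0 < N) (hD : |D| ≤ N) (hm : 0 < m) (hn : 0 < n)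
    (hp : 1 ≤ p) :
    N / n * |D / N| ^ p ≤ 1 / n * (m / 2) ^ (1 - p) * (|D| ^ p + |N - m| ^ p) := by
  have hp0 : 0 < p := by linarith
  have hm2 : 0 < m / 2 := by linarith
  have hDp : 0 ≤ |D| ^ p := by positivity
  have hNp : 0 ≤ |N - m| ^ p := by positivity
  rcases le_or_gt (m / 2) N with h | h
  · have h1 : N / n * |D / N| ^ p = 1 / n * N ^ (1 - p) * |D| ^ p := by
      rw [abs_div, Real.div_rpow (abs_nonneg _) (abs_nonneg _), abs_of_pos hN,
        Real.rpow_sub hN, Real.rpow_one]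
      ring
    rw [h1]
    have h2 : N ^ (1 - p) ≤ (m / 2) ^ (1 - p) :=
      Real.rpow_le_rpow_of_nonpos hm2 h (by linarith)
    calc 1 / n * N ^ (1 - p) * |D| ^ p ≤ 1 / n * (m / 2) ^ (1 - p) * |D| ^ p := by
          apply mul_le_mul_of_nonneg_right _ hDp
          exact mul_le_mul_of_nonneg_left h2 (by positivity)
      _ ≤ _ := by
          apply mul_le_mul_of_nonneg_left _ (by positivity)
          linarith
  · have h1 : |D / N| ^ p ≤ 1 := by
      apply Real.rpow_le_one (abs_nonneg _) _ hp0.le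
      rw [abs_div, abs_of_pos hN, div_le_one hN]
      exact hD
    have h2 : (m / 2) ^ p ≤ |N - m| ^ p := by
      apply Real.rpow_le_rpow hm2.le _ hp0.le
      rw [abs_of_nonpos (by linarith)]
      linarith
    calc N / n * |D / N| ^ p ≤ N / n * 1 :=
          mul_le_mul_of_nonneg_left h1 (by positivity)
      _ ≤ (m / 2) / n := by
          rw [mul_one]
          exact div_le_div_of_nonneg_right h.le hn.le
      _ = 1 / n * (m / 2) ^ (1 - p) * (m / 2) ^ p := by
          rw [mul_assoc, ← Real.rpow_add hm2]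
          simp
          ring
      _ ≤ 1 / n * (m / 2) ^ (1 - p) * |N - m| ^ p :=
          mul_le_mul_of_nonneg_left h2 (by positivity)
      _ ≤ _ := by
          apply mul_le_mul_of_nonneg_left _ (by positivity)
          linarith

variable {d : ℕ} [NeZero d] {n : ℕ}

/-- Contribution of a cell in the bound for one step. -/
noncomputable def stepCell (p : ℝ) (k : ℕ) (w : Cell d) (ω : Fin n → (Fin d → ℝ)) : ℝ≥0∞ :=
  ENNReal.ofReal (2 * w.sig) ^ p * (CP p *
    (ENNReal.ofReal (1 / n * (n * ((2:ℝ) ^ k)⁻¹ / 2) ^ (1 - p)) *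
      (ENNReal.ofReal |cnt w.lo.box ω - cnt w.hi.box ω| ^ p +
        ENNReal.ofReal |cnt w.box ω - n * ((2:ℝ) ^ k)⁻¹| ^ p)))

lemma Wpp_step_cell {p : ℝ} (hp : 1 ≤ p) (hn : 0 < n) {k : ℕ} {w : Cell d} (hw : w.Good k)
    (ω : Fin n → (Fin d → ℝ)) :
    Wpp p ((ENNReal.ofReal (cnt w.box ω / n) • cm w.a w.l).map S)
      ((ENNReal.ofReal (cnt w.lo.box ω / n) • cm w.lo.a w.lo.l +
        ENNReal.ofReal (cnt w.hi.box ω / n) • cm w.hi.a w.hi.l).map S) ≤
      stepCell p k w ω := by
  have hp0 : 0 < p := by linarith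
  have hn' : (0:ℝ) < n := by exact_mod_cast hn
  set N := cnt w.box ω with hN
  set N0 := cnt w.lo.box ω with hN0
  set N1 := cnt w.hi.box ω with hN1
  have hsum : N = N0 + N1 := by
    rw [hN, box_union w, cnt_union (box_disjoint w)]
  have h0 : 0 ≤ N0 := cnt_nonneg _ _
  have h1 : 0 ≤ N1 := cnt_nonneg _ _
  rcases (cnt_nonneg w.box ω).eq_or_lt with hz | hpos
  · rw [← hN] at hz
    have e0 : N0 = 0 := by linarith
    have e1 : N1 = 0 := by linarith
    rw [← hz, e0, e1]
    simp [Wpp_self hp0]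
  · rw [← hN] at hpos
    set θ := N0 / N with hθ
    have hθ0 : 0 ≤ θ := by positivity
    have hθ1 : θ ≤ 1 := by rw [hθ, div_le_one hpos]; linarith
    have e0 : ENNReal.ofReal (N0 / n) = ENNReal.ofReal (N / n) * ENNReal.ofReal θ := by
      rw [← ENNReal.ofReal_mul (by positivity)]
      congr 1
      rw [hθ]; field_simp
    have e1 : ENNReal.ofReal (N1 / n) = ENNReal.ofReal (N / n) * ENNReal.ofReal (1 - θ) := by
      rw [← ENNReal.ofReal_mul (by positivity)]
      congr 1
      rw [hθ]; field_simp; linarith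
    have e2 : (ENNReal.ofReal (N0 / n) • cm w.lo.a w.lo.l +
        ENNReal.ofReal (N1 / n) • cm w.hi.a w.hi.l) =
        ENNReal.ofReal (N / n) • (ENNReal.ofReal θ • cm w.a (halfL w.l w.dir) +
        ENNReal.ofReal (1 - θ) • cm (upA w.a w.l w.dir) (halfL w.l w.dir)) := by
      rw [smul_add, smul_smul, smul_smul, e0, e1, w.l_lo, w.l_hi]
      rfl
    rw [e2, Measure.map_smul, Measure.map_smul]
    refine (Wpp_smul_le hp0 _ ENNReal.ofReal_ne_top _ _).trans ?_
    have h3 := Wpp_cell_split hp0 hw.a0 w.l_pos hw.al w.dir hθ0 hθ1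
    refine (mul_le_mul' le_rfl h3).trans ?_
    have hsc : scale (w.a w.dir) (w.l w.dir) = w.sig := rfl
    rw [hsc]
    have hs := w.sig_nonneg
    unfold stepCell
    have hD : N0 - N1 = N * (2 * θ - 1) := by
      rw [hθ]; field_simp; linarith
    have hDle : |N0 - N1| ≤ N := by rw [abs_le]; constructor <;> linarith
    have hm : 0 < (n:ℝ) * ((2:ℝ) ^ k)⁻¹ := by positivity
    have h4 := ratio_bound (N := N) (D := N0 - N1) (m := n * ((2:ℝ) ^ k)⁻¹) (n := n) hpos hDle
      hm hn' hp
    have h5 : (N0 - N1) / N = 2 * θ - 1 := by rw [hD]; field_simp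
    rw [h5] at h4
    rw [ENNReal.ofReal_mul (by positivity : 0 ≤ 2 * w.sig),
      ENNReal.mul_rpow_of_nonneg _ _ hp0.le]
    calc ENNReal.ofReal (N / n) * (ENNReal.ofReal (2 * w.sig) ^ p *
          ENNReal.ofReal |2 * θ - 1| ^ p * CP p)
        = ENNReal.ofReal (2 * w.sig) ^ p * (CP p * (ENNReal.ofReal (N / n) *
            ENNReal.ofReal |2 * θ - 1| ^ p)) := by ring
      _ ≤ _ := by
          refine mul_le_mul' le_rfl (mul_le_mul' le_rfl ?_)
          rw [ENNReal.ofReal_rpow_of_nonneg (abs_nonneg _) hp0.le,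
            ENNReal.ofReal_rpow_of_nonneg (abs_nonneg _) hp0.le,
            ENNReal.ofReal_rpow_of_nonneg (abs_nonneg _) hp0.le,
            ← ENNReal.ofReal_mul (by positivity), ← ENNReal.ofReal_add (by positivity)
              (by positivity), ← ENNReal.ofReal_mul (by positivity)]
          exact ENNReal.ofReal_le_ofReal h4

end Pool.Agent.H.MP_31d543_pr
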