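import Pool.Agent.H.MP_31d543_pr.CellW

set_option autoImplicit false

open MeasureTheory ProbabilityTheory Set
open scoped ENNReal

namespace Pool.Agent.H.MP_31d543_pr

/-! ### Consequences of concavity of the profile -/

lemma Iso_mid_ge {a l u : ℝ} (ha : 0 ≤ a) (hal : a + l ≤ 1) (hu : u ∈ Icc a (a + l)) :
    Iso u ≤ 2 * Iso (a + l / 2) := by
  have h1 : u ∈ Icc (0:ℝ) 1 := ⟨ha.trans hu.1, hu.2.trans hal⟩
  have h2 : 2 * a + l - u ∈ Icc (0:ℝ) 1 := ⟨by linarith [hu.2], by linarith [hu.1]⟩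
  have h := Iso_concave.2 h1 h2 (by norm_num : (0:ℝ) ≤ 1 / 2) (by norm_num : (0:ℝ) ≤ 1 / 2)
    (by norm_num)
  simp only [smul_eq_mul] at h
  have e : 1 / 2 * u + 1 / 2 * (2 * a + l - u) = a + l / 2 := by ring
  rw [e] at h
  have := Iso_nonneg (2 * a + l - u)
  linarith

lemma Iso_mid_pos {a l : ℝ} (ha : 0 ≤ a) (hl : 0 < l) (hal : a + l ≤ 1) :
    0 < Iso (a + l / 2) := Iso_pos ⟨by linarith, by linarith⟩

lemma scale_mul_le {a l u : ℝ} (ha : 0 ≤ a) (hl : 0 < l) (hal : a + l ≤ 1)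
    (hu : u ∈ Icc a (a + l)) : scale a l * Iso u ≤ l := by
  have h1 := Iso_mid_pos ha hl hal
  have h2 := Iso_mid_ge ha hal hu
  unfold scale
  rw [div_mul_eq_mul_div, div_le_iff₀ (by positivity)]
  nlinarith

lemma scale_low {a l : ℝ} (ha : 0 ≤ a) (hl : 0 < l) (hal : a + l ≤ 1) :
    scale a (l / 2) ≤ scale a l := by
  have h1 := Iso_mid_pos ha hl hal
  have h2 : 0 < Iso (a + l / 2 / 2) := Iso_mid_pos ha (half_pos hl) (by linarith)
  have h := Iso_concave.2 (x := a) (y := a + l / 2) ⟨ha, by linarith⟩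
    ⟨by linarith, by linarith⟩ (by norm_num : (0:ℝ) ≤ 1 / 2) (by norm_num : (0:ℝ) ≤ 1 / 2)
    (by norm_num)
  simp only [smul_eq_mul] at h
  have e : 1 / 2 * a + 1 / 2 * (a + l / 2) = a + l / 2 / 2 := by ring
  rw [e] at h
  have := Iso_nonneg a
  unfold scale
  rw [div_le_div_iff₀ (by positivity) (by positivity)]
  nlinarith

lemma scale_up {a l : ℝ} (ha : 0 ≤ a) (hl : 0 < l) (hal : a + l ≤ 1) :
    scale (a + l / 2) (l / 2) ≤ scale a l := by
  have h1 := Iso_mid_pos ha hl hal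
  have h2 : 0 < Iso (a + l / 2 + l / 2 / 2) :=
    Iso_mid_pos (by linarith) (half_pos hl) (by linarith)
  have h := Iso_concave.2 (x := a + l / 2) (y := a + l) ⟨by linarith, by linarith⟩
    ⟨by linarith, by linarith⟩ (by norm_num : (0:ℝ) ≤ 1 / 2) (by norm_num : (0:ℝ) ≤ 1 / 2)
    (by norm_num)
  simp only [smul_eq_mul] at h
  have e : 1 / 2 * (a + l / 2) + 1 / 2 * (a + l) = a + l / 2 + l / 2 / 2 := by ring
  rw [e] at h
  have := Iso_nonneg (a + l)
  unfold scale
  rw [div_le_div_iff₀ (by positivity) (by positivity)]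
  nlinarith

/-- The growth constant of the profile. -/
noncomputable def cI : ℝ := Classical.choose Iso_growth

lemma cI_pos : 0 < cI := (Classical.choose_spec Iso_growth).1

lemma scale_growth {a : ℝ} {k : ℕ} (ha : 0 ≤ a) (hal : a + ((2:ℝ)^k)⁻¹ ≤ 1) :
    (k + 1) * scale a ((2:ℝ)^k)⁻¹ ^ 2 ≤ 1 / (4 * cI ^ 2) := by
  have hl : (0:ℝ) < ((2:ℝ)^k)⁻¹ := by positivity
  have hpos := Iso_mid_pos ha hl hal
  have e2 : ((2:ℝ)^(k+1))⁻¹ = ((2:ℝ)^k)⁻¹ / 2 := by rw [pow_succ, mul_inv]; ring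
  have h := (Classical.choose_spec Iso_growth).2 k (a + ((2:ℝ)^k)⁻¹ / 2)
    ⟨by rw [e2]; linarith, by rw [e2]; linarith⟩
  change cI * ((2:ℝ)^k)⁻¹ * Real.sqrt (k+1) ≤ _ at h
  have hc := cI_pos
  have hs : scale a ((2:ℝ)^k)⁻¹ * Real.sqrt (k + 1) ≤ 1 / (2 * cI) := by
    unfold scale
    rw [div_mul_eq_mul_div, div_le_div_iff₀ (by positivity) (by positivity)]
    nlinarith
  have hs0 : 0 ≤ scale a ((2:ℝ)^k)⁻¹ * Real.sqrt (k + 1) :=
    mul_nonneg (scale_nonneg _ _ hl.le) (Real.sqrt_nonneg _)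
  have hk : (0:ℝ) ≤ (k:ℝ) + 1 := by positivity
  calc (k + 1) * scale a ((2:ℝ)^k)⁻¹ ^ 2 = (scale a ((2:ℝ)^k)⁻¹ * Real.sqrt (k + 1)) ^ 2 := by
        rw [mul_pow, Real.sq_sqrt hk]; ring
    _ ≤ (1 / (2 * cI)) ^ 2 := pow_le_pow_left₀ hs0 hs 2
    _ = 1 / (4 * cI ^ 2) := by rw [div_pow, mul_pow]; norm_num

/-! ### The greedy tree of cells -/

variable {d : ℕ}

/-- A dyadic cell: lower corner and depths in each coordinate. -/
structure Cell (d : ℕ) where
  a : Fin d → ℝ
  k : Fin d → ℕ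

/-- Side lengths of a cell. -/
noncomputable def Cell.l (w : Cell d) (i : Fin d) : ℝ := ((2:ℝ) ^ (w.k i))⁻¹

/-- Length scales of a cell. -/
noncomputable def Cell.sc (w : Cell d) (i : Fin d) : ℝ := scale (w.a i) (w.l i)

variable [NeZero d]

/-- The direction of largest scale. -/
noncomputable def Cell.dir (w : Cell d) : Fin d := Classical.choose (Finite.exists_max w.sc)

lemma Cell.sc_le (w : Cell d) (i : Fin d) : w.sc i ≤ w.sc w.dir :=
  Classical.choose_spec (Finite.exists_max w.sc) i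

/-- The scale of a cell. -/
noncomputable def Cell.sig (w : Cell d) : ℝ := w.sc w.dir

/-- The lower child in the direction of largest scale. -/
noncomputable def Cell.lo (w : Cell d) : Cell d :=
  ⟨w.a, Function.update w.k w.dir (w.k w.dir + 1)⟩

/-- The upper child in the direction of largest scale. -/
noncomputable def Cell.hi (w : Cell d) : Cell d :=
  ⟨upA w.a w.l w.dir, Function.update w.k w.dir (w.k w.dir + 1)⟩

lemma Cell.l_pos {d : ℕ} (w : Cell d) (i : Fin d) : 0 < w.l i := by unfold Cell.l; positivity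

lemma Cell.l_lo (w : Cell d) : w.lo.l = halfL w.l w.dir := by
  funext i
  by_cases h : i = w.dir
  · subst h
    simp only [Cell.l, Cell.lo, halfL, Function.update_self, pow_succ, mul_inv]
    ring
  · simp [Cell.l, Cell.lo, halfL, h]

lemma Cell.l_hi (w : Cell d) : w.hi.l = halfL w.l w.dir := by
  funext i
  by_cases h : i = w.dir
  · subst h
    simp only [Cell.l, Cell.hi, halfL, Function.update_self, pow_succ, mul_inv]
    ring
  · simp [Cell.l, Cell.hi, halfL, h]

/-- The scale of the root cell (the whole cube). -/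
noncomputable def sig0 : ℝ := scale 0 1

/-- Invariants of the cells of the greedy tree at level `n`. -/
structure Cell.Good (n : ℕ) (w : Cell d) : Prop where
  a0 : ∀ i, 0 ≤ w.a i
  al : ∀ i, w.a i + w.l i ≤ 1
  sumk : ∑ i, w.k i = n
  sig_le : w.sig ≤ sig0
  inv1 : ∀ i, ∀ u ∈ Icc (w.a i) (w.a i + w.l i), w.sig * Iso u ≤ 2 * w.l i
  inv2 : ∀ i, (w.k i : ℝ) * w.sig ^ 2 ≤ 1 / (4 * cI ^ 2)

lemma Cell.sig_nonneg (w : Cell d) : 0 ≤ w.sig := scale_nonneg _ _ (w.l_pos _).le

/-- The root. -/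
def root (d : ℕ) : Cell d := ⟨fun _ => 0, fun _ => 0⟩

lemma root_good : (root d).Good 0 := by
  have hl : ∀ i, (root d).l i = 1 := by intro i; simp [Cell.l, root]
  have ha : ∀ i, (root d).a i = 0 := by intro i; rfl
  have hsig : (root d).sig = sig0 := by
    unfold Cell.sig Cell.sc sig0
    rw [hl, ha]
  refine ⟨fun i => le_of_eq (ha i).symm, fun i => by rw [ha, hl]; norm_num, by simp [root],
    hsig.le, ?_, ?_⟩
  · intro i u hu
    rw [ha, hl] at hu
    rw [hsig, hl]
    have := scale_mul_le (a := 0) (l := 1) le_rfl one_pos (by norm_num) hu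
    unfold sig0
    linarith
  · intro i
    have : 0 < cI := cI_pos
    simp only [root, Nat.cast_zero, zero_mul]
    positivity

lemma child_good {n : ℕ} {w w' : Cell d} (hw : w.Good n)
    (hk : w'.k = Function.update w.k w.dir (w.k w.dir + 1))
    (hl : w'.l = halfL w.l w.dir)
    (ha : ∀ i, i ≠ w.dir → w'.a i = w.a i)
    (had : w'.a w.dir = w.a w.dir ∨ w'.a w.dir = w.a w.dir + w.l w.dir / 2) :
    w'.Good (n + 1) ∧ w'.sig ≤ w.sig := by
  have hld : w'.l w.dir = w.l w.dir / 2 := by rw [hl]; simp [halfL]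
  have hlo : ∀ i, i ≠ w.dir → w'.l i = w.l i := by intro i hi; rw [hl]; simp [halfL, hi]
  have hlpos := w.l_pos w.dir
  have hsc : ∀ i, w'.sc i ≤ w.sig := by
    intro i
    by_cases hi : i = w.dir
    · subst hi
      unfold Cell.sc
      rw [hld]
      rcases had with h | h
      · rw [h]; exact scale_low (hw.a0 _) hlpos (hw.al _)
      · rw [h]; exact scale_up (hw.a0 _) hlpos (hw.al _)
    · unfold Cell.sc
      rw [hlo i hi, ha i hi]
      exact w.sc_le i
  have hsig : w'.sig ≤ w.sig := hsc _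
  refine ⟨⟨?_, ?_, ?_, hsig.trans hw.sig_le, ?_, ?_⟩, hsig⟩
  · intro i
    by_cases hi : i = w.dir
    · subst hi
      rcases had with h | h
      · rw [h]; exact hw.a0 _
      · rw [h]; have := hw.a0 w.dir; positivity
    · rw [ha i hi]; exact hw.a0 i
  · intro i
    by_cases hi : i = w.dir
    · subst hi
      rw [hld]
      have := hw.al w.dir
      rcases had with h | h <;> rw [h] <;> linarith
    · rw [ha i hi, hlo i hi]; exact hw.al i
  · rw [hk]
    rw [Finset.sum_update_of_mem (Finset.mem_univ _)]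
    have := hw.sumk
    rw [← Finset.add_sum_erase Finset.univ _ (Finset.mem_univ w.dir)] at this
    rw [Finset.sdiff_singleton_eq_erase]
    omega
  · intro i u hu
    by_cases hi : i = w.dir
    · subst hi
      rw [hld] at hu ⊢
      have hu' : u ∈ Icc (w.a w.dir) (w.a w.dir + w.l w.dir) := by
        rcases had with h | h <;> rw [h] at hu <;> constructor <;> linarith [hu.1, hu.2]
      have h1 := scale_mul_le (hw.a0 w.dir) hlpos (hw.al w.dir) hu'
      have h2 : w'.sig * Iso u ≤ w.sig * Iso u :=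
        mul_le_mul_of_nonneg_right hsig (Iso_nonneg u)
      have h3 : w.sig * Iso u ≤ w.l w.dir := h1
      linarith
    · rw [ha i hi, hlo i hi] at hu
      rw [hlo i hi]
      exact (mul_le_mul_of_nonneg_right hsig (Iso_nonneg u)).trans (hw.inv1 i u hu)
  · intro i
    have hs2 : w'.sig ^ 2 ≤ w.sig ^ 2 := pow_le_pow_left₀ w'.sig_nonneg hsig 2
    by_cases hi : i = w.dir
    · subst hi
      rw [hk, Function.update_self]
      push_cast
      have h1 := scale_growth (hw.a0 w.dir) (k := w.k w.dir) (hw.al w.dir)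
      have h2 : w.sig = scale (w.a w.dir) ((2:ℝ) ^ (w.k w.dir))⁻¹ := rfl
      rw [← h2] at h1
      have hk0 : (0:ℝ) ≤ (w.k w.dir : ℝ) + 1 := by positivity
      exact (mul_le_mul_of_nonneg_left hs2 hk0).trans h1
    · have : w'.k i = w.k i := by rw [hk]; simp [hi]
      rw [this]
      have hk0 : (0:ℝ) ≤ (w.k i : ℝ) := by positivity
      exact (mul_le_mul_of_nonneg_left hs2 hk0).trans (hw.inv2 i)

lemma lo_good {n : ℕ} {w : Cell d} (hw : w.Good n) : w.lo.Good (n + 1) :=
  (child_good hw rfl w.l_lo (fun _ _ => rfl) (Or.inl rfl)).1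

lemma hi_good {n : ℕ} {w : Cell d} (hw : w.Good n) : w.hi.Good (n + 1) :=
  (child_good hw rfl w.l_hi (fun i hi => by simp [Cell.hi, upA, hi])
    (Or.inr (by simp [Cell.hi, upA]))).1

/-- The greedy tree: `tree k m`, `m < 2 ^ k`, are the cells at level `k`. -/
noncomputable def tree : ℕ → ℕ → Cell d
  | 0, _ => root d
  | k + 1, m => if m % 2 = 0 then (tree k (m / 2)).lo else (tree k (m / 2)).hi

lemma tree_good (k m : ℕ) : (tree k m : Cell d).Good k := by
  induction k generalizing m with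
  | zero => exact root_good
  | succ k ih =>
    unfold tree
    split_ifs
    · exact lo_good (ih _)
    · exact hi_good (ih _)

lemma tree_even (k m : ℕ) : (tree (k + 1) (2 * m) : Cell d) = (tree k m).lo := by
  show (if (2 * m) % 2 = 0 then (tree k ((2 * m) / 2)).lo else (tree k ((2 * m) / 2)).hi) = _
  rw [if_pos (by omega), show (2 * m) / 2 = m by omega]

lemma tree_odd (k m : ℕ) : (tree (k + 1) (2 * m + 1) : Cell d) = (tree k m).hi := by
  show (if (2 * m + 1) % 2 = 0 then (tree k ((2 * m + 1) / 2)).lo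
    else (tree k ((2 * m + 1) / 2)).hi) = _
  rw [if_neg (by omega), show (2 * m + 1) / 2 = m by omega]

lemma sum_range_two_mul {M : Type*} [AddCommMonoid M] (n : ℕ) (f : ℕ → M) :
    ∑ m ∈ Finset.range (2 * n), f m = ∑ m ∈ Finset.range n, (f (2 * m) + f (2 * m + 1)) := by
  induction n with
  | zero => simp
  | succ n ih =>
    rw [show 2 * (n + 1) = 2 * n + 1 + 1 by ring, Finset.sum_range_succ, Finset.sum_range_succ,
      Finset.sum_range_succ, ih, add_assoc]

lemma sum_tree_succ {M : Type*} [AddCommMonoid M] (k : ℕ) (f : Cell d → M) :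
    ∑ m ∈ Finset.range (2 ^ (k + 1)), f (tree (k + 1) m) =
      ∑ m ∈ Finset.range (2 ^ k), (f (tree k m).lo + f (tree k m).hi) := by
  rw [pow_succ, mul_comm, sum_range_two_mul]
  apply Finset.sum_congr rfl
  intro m _
  rw [tree_even, tree_odd]

end Pool.Agent.H.MP_31d543_pr
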