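import Mathlib

set_option autoImplicit false

open MeasureTheory Set
open scoped ENNReal

namespace Pool.Agent.H.MP_31d543_pr

/-- The uniform distribution on `(0,1)`. -/
noncomputable def lam1 : Measure ℝ := volume.restrict (Ioo (0:ℝ) 1)

instance : IsProbabilityMeasure lam1 := ⟨by simp [lam1]⟩

lemma map_affine (a b c e : ℝ) (hc : 0 < c) :
    (volume.restrict (Ioo a b)).map (fun v => e + c * v) =
      ENNReal.ofReal c⁻¹ • volume.restrict (Ioo (e + c * a) (e + c * b)) := by
  have hm : Measurable (fun v : ℝ => e + c * v) := by fun_prop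
  have h1 : (volume : Measure ℝ).map (fun v : ℝ => e + c * v) = ENNReal.ofReal c⁻¹ • volume := by
    have : (fun v : ℝ => e + c * v) = (fun v => e + v) ∘ (fun v => c * v) := rfl
    rw [this, ← Measure.map_map (by fun_prop) (by fun_prop), Real.map_volume_mul_left hc.ne',
      Measure.map_smul, abs_of_pos (inv_pos.2 hc), map_add_left_eq_self]
  have h2 : (fun v : ℝ => e + c * v) ⁻¹' (Ioo (e + c * a) (e + c * b)) = Ioo a b := by
    ext v
    simp only [mem_preimage, mem_Ioo, add_lt_add_iff_left, mul_lt_mul_iff_right₀ hc]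
  rw [← h2, ← Measure.restrict_map hm measurableSet_Ioo, h1, Measure.restrict_smul]

/-- The monotone map sending the uniform distribution to the one with mass `θ` on `(0,1/2)`. -/
noncomputable def tau (θ v : ℝ) : ℝ := if v ≤ θ then v / (2 * θ) else 1 - (1 - v) / (2 * (1 - θ))

lemma measurable_tau (θ : ℝ) : Measurable (tau θ) := by
  unfold tau
  exact Measurable.ite measurableSet_Iic (by fun_prop) (by fun_prop)

lemma lam1_split {θ : ℝ} (h0 : 0 ≤ θ) (h1 : θ ≤ 1) :
    lam1 = volume.restrict (Ioo 0 θ) + volume.restrict (Ioo θ 1) := by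
  have e1 : (volume.restrict (Ioo (0:ℝ) 1)) = volume.restrict (Ioc 0 1) :=
    Measure.restrict_congr_set Ioo_ae_eq_Ioc
  have e2 : (volume.restrict (Ioo (0:ℝ) θ)) = volume.restrict (Ioc 0 θ) :=
    Measure.restrict_congr_set Ioo_ae_eq_Ioc
  have e3 : (volume.restrict (Ioo (θ:ℝ) 1)) = volume.restrict (Ioc θ 1) :=
    Measure.restrict_congr_set Ioo_ae_eq_Ioc
  rw [lam1, e1, e2, e3, ← Ioc_union_Ioc_eq_Ioc h0 h1,
    Measure.restrict_union (by
      rw [Set.disjoint_left]
      intro x hx hx'
      exact absurd hx.2 (not_le.2 hx'.1)) measurableSet_Ioc]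

lemma map_half : lam1.map (fun v => v / 2) = ENNReal.ofReal 2 • volume.restrict (Ioo 0 (1/2)) := by
  have := map_affine 0 1 (1/2) 0 (by norm_num)
  have e : (fun v : ℝ => 0 + 1 / 2 * v) = fun v => v / 2 := by funext v; ring
  rw [e] at this
  rw [lam1, this]
  norm_num

lemma map_half' : lam1.map (fun v => 1 / 2 + v / 2) =
    ENNReal.ofReal 2 • volume.restrict (Ioo (1/2) 1) := by
  have := map_affine 0 1 (1/2) (1/2) (by norm_num)
  have e : (fun v : ℝ => 1 / 2 + 1 / 2 * v) = fun v => 1 / 2 + v / 2 := by funext v; ring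
  rw [e] at this
  rw [lam1, this]
  norm_num

lemma map_tau {θ : ℝ} (h0 : 0 ≤ θ) (h1 : θ ≤ 1) :
    lam1.map (tau θ) = ENNReal.ofReal θ • lam1.map (fun v => v / 2) +
      ENNReal.ofReal (1 - θ) • lam1.map (fun v => 1 / 2 + v / 2) := by
  rw [map_half, map_half', lam1_split h0 h1, Measure.map_add _ _ (measurable_tau θ)]
  congr 1
  · rcases h0.eq_or_lt with rfl | h0'
    · simp
    · have e1 : (volume.restrict (Ioo 0 θ)).map (tau θ) =
          (volume.restrict (Ioo 0 θ)).map (fun v => 0 + (2 * θ)⁻¹ * v) := by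
        apply Measure.map_congr
        filter_upwards [ae_restrict_mem measurableSet_Ioo] with v hv
        simp only [tau, if_pos hv.2.le]
        field_simp
        ring
      rw [e1, map_affine _ _ _ _ (by positivity), smul_smul, ← ENNReal.ofReal_mul h0]
      congr 2
      · rw [inv_inv]; ring
      · congr 1 <;> field_simp <;> ring
  · rcases h1.eq_or_lt with rfl | h1'
    · simp
    · have hθ : 0 < 1 - θ := by linarith
      have e1 : (volume.restrict (Ioo θ 1)).map (tau θ) =
          (volume.restrict (Ioo θ 1)).map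
            (fun v => (1 - (2 * (1 - θ))⁻¹) + (2 * (1 - θ))⁻¹ * v) := by
        apply Measure.map_congr
        filter_upwards [ae_restrict_mem measurableSet_Ioo] with v hv
        simp only [tau, if_neg (not_le.2 hv.1)]
        field_simp
        ring
      rw [e1, map_affine _ _ _ _ (by positivity), smul_smul, ← ENNReal.ofReal_mul hθ.le]
      congr 2
      · rw [inv_inv]; ring
      · congr 1 <;> field_simp <;> ring

lemma tau_mem {θ v : ℝ} (h0 : 0 ≤ θ) (h1 : θ ≤ 1) (hv : v ∈ Ioo (0:ℝ) 1) :
    tau θ v ∈ Ioo (0:ℝ) 1 := by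
  obtain ⟨hv0, hv1⟩ := hv
  unfold tau
  split_ifs with h
  · have hθ : 0 < θ := lt_of_lt_of_le hv0 h
    refine ⟨by positivity, ?_⟩
    rw [div_lt_one (by positivity)]
    linarith
  · push Not at h
    have hθ : 0 < 1 - θ := by linarith
    have h2 : 0 < (1 - v) / (2 * (1 - θ)) := div_pos (by linarith) (by linarith)
    have h3 : (1 - v) / (2 * (1 - θ)) < 1 := by
      rw [div_lt_one (by positivity)]
      linarith
    exact ⟨by linarith, by linarith⟩

end Pool.Agent.H.MP_31d543_pr
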