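import Pool.Agent.H.MP_31d543_pr.Assemble
import Pool.Agent.H.MP_31d543_pr.Geom

set_option autoImplicit false

open MeasureTheory ProbabilityTheory Set
open scoped ENNReal

namespace Pool.Agent.H.MP_31d543_pr

variable {d : ℕ} [NeZero d] {n : ℕ}

lemma expect_Alevel {p : ℝ} (hp : 1 ≤ p) {Cs γ : ℝ}
    (hCs : ∀ n : ℕ, ∑ m ∈ Finset.range (2 ^ n), ENNReal.ofReal ((tree n m : Cell d).sig) ^ p ≤
      ENNReal.ofReal (Cs * ((n:ℝ) + 1) ^ γ)) (hn : 0 < n) {k : ℕ}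
    (hnk : 1 ≤ (n:ℝ) * ((2:ℝ) ^ k)⁻¹) :
    ∫⁻ ω, Alevel (d := d) p k ω ∂(Measure.pi (fun _ : Fin n => lam d)) ≤
      ENNReal.ofReal (Cs * ((k:ℝ) + 1) ^ γ) * (CP p * ENNReal.ofReal
        (4 ^ p * CM p * (1 / n * (n * ((2:ℝ) ^ k)⁻¹) ^ (1 - p / 2)))) := by
  unfold Alevel
  rw [lintegral_finsetSum _ (fun m _ => measurable_stepCell p k _)]
  calc ∑ m ∈ Finset.range (2 ^ k), ∫⁻ ω, stepCell p k (tree k m : Cell d) ω
        ∂(Measure.pi (fun _ : Fin n => lam d))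
      ≤ ∑ m ∈ Finset.range (2 ^ k), ENNReal.ofReal (tree k m : Cell d).sig ^ p *
        (CP p * ENNReal.ofReal
        (4 ^ p * CM p * (1 / n * (n * ((2:ℝ) ^ k)⁻¹) ^ (1 - p / 2)))) :=
        Finset.sum_le_sum (fun m _ => expect_stepCell hp (tree_good k m) hn hnk)
    _ = (∑ m ∈ Finset.range (2 ^ k), ENNReal.ofReal (tree k m : Cell d).sig ^ p) *
        (CP p * ENNReal.ofReal
        (4 ^ p * CM p * (1 / n * (n * ((2:ℝ) ^ k)⁻¹) ^ (1 - p / 2)))) := by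
        rw [Finset.sum_mul]
    _ ≤ _ := mul_le_mul' (hCs k) le_rfl

lemma expect_Rlevel {p : ℝ} (hp : 1 ≤ p) {Cs γ : ℝ}
    (hCs : ∀ n : ℕ, ∑ m ∈ Finset.range (2 ^ n), ENNReal.ofReal ((tree n m : Cell d).sig) ^ p ≤
      ENNReal.ofReal (Cs * ((n:ℝ) + 1) ^ γ)) (hn : 0 < n) (K : ℕ) :
    ∫⁻ ω, Rlevel (d := d) p K ω ∂(Measure.pi (fun _ : Fin n => lam d)) ≤
      ENNReal.ofReal ((2:ℝ) ^ K)⁻¹ * (ENNReal.ofReal (Cs * ((K:ℝ) + 1) ^ γ) * CD d p) := by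
  unfold Rlevel
  rw [lintegral_finsetSum _ (fun m _ => measurable_empirical_lintegral
    ((measurable_hcell p _).indicator (Cell.measurableSet_box _)))]
  calc ∑ m ∈ Finset.range (2 ^ K), ∫⁻ ω, ∫⁻ u', (tree K m : Cell d).box.indicator
        (hcell p (tree K m : Cell d)) u' ∂(empirical ω) ∂(Measure.pi (fun _ : Fin n => lam d))
      = ∑ m ∈ Finset.range (2 ^ K), ∫⁻ u', (tree K m : Cell d).box.indicator
        (hcell p (tree K m : Cell d)) u' ∂(lam d) := by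
        apply Finset.sum_congr rfl
        intro m _
        exact lintegral_empirical_lintegral (lam d) hn
          ((measurable_hcell p _).indicator (Cell.measurableSet_box _))
    _ ≤ ∑ m ∈ Finset.range (2 ^ K), ENNReal.ofReal ((2:ℝ) ^ K)⁻¹ *
        (ENNReal.ofReal (tree K m : Cell d).sig ^ p * CD d p) := by
        apply Finset.sum_le_sum
        intro m _
        have hg := tree_good (d := d) K m
        rw [lintegral_indicator (Cell.measurableSet_box _), restrict_cell hg,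
          lintegral_smul_measure, smul_eq_mul]
        refine mul_le_mul' le_rfl ?_
        exact cell_diam hp hg.a0 (Cell.l_pos _) hg.al (fun i => Cell.sc_le _ i)
    _ = ENNReal.ofReal ((2:ℝ) ^ K)⁻¹ *
        ((∑ m ∈ Finset.range (2 ^ K), ENNReal.ofReal (tree K m : Cell d).sig ^ p) * CD d p) := by
        rw [Finset.sum_mul, Finset.mul_sum]
    _ ≤ _ := mul_le_mul' le_rfl (mul_le_mul' (hCs K) le_rfl)

lemma rpow_mul4 {Z X Y W : ℝ} (hZ : 0 ≤ Z) (hX : 0 ≤ X) (hY : 0 ≤ Y) (hW : 0 ≤ W) (q : ℝ) :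
    (Z * (X * Y * W)) ^ q = Z ^ q * (X ^ q * Y ^ q * W ^ q) := by
  rw [Real.mul_rpow hZ (by positivity), Real.mul_rpow (by positivity) hW, Real.mul_rpow hX hY]

lemma rpow_mul3 {Z X Y : ℝ} (hZ : 0 ≤ Z) (hX : 0 ≤ X) (hY : 0 ≤ Y) (q : ℝ) :
    (Z * (X * Y)) ^ q = Z ^ q * (X ^ q * Y ^ q) := by
  rw [Real.mul_rpow hZ (by positivity), Real.mul_rpow hX hY]

lemma final_real {p γ a b Cg : ℝ} {n K : ℕ} (hp0 : 0 < p) (hn2 : 2 ≤ n)
    (h2K : (2:ℝ) ^ K ≤ n) (h2K1 : (n:ℝ) < 2 ^ (K + 1)) (ha0 : 0 ≤ a) (hb0 : 0 ≤ b)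
    (hCg0 : 0 ≤ Cg) :
    (a * Cg * ((n:ℝ) ^ (-(1 / p)) * ((K:ℝ) + 1) ^ (γ / p)) +
      b * ((n:ℝ) ^ (-(1 / p)) * ((K:ℝ) + 1) ^ (γ / p))) ^ p ≤
    (a * Cg + b + 1) ^ p * (2 / Real.log 2) ^ |γ| * (Real.log n ^ γ / n) := by
  have hlog2 : 0 < Real.log 2 := Real.log_pos (by norm_num)
  have hlog2' : Real.log 2 ≤ 1 := by have := Real.log_two_lt_d9; linarith
  have hn0 : (0:ℝ) < n := by positivity
  have hK1 : (0:ℝ) < (K:ℝ) + 1 := by positivity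
  have hB1 : 1 ≤ 2 / Real.log 2 := by rw [one_le_div hlog2]; linarith
  -- log comparison
  have hlogn : Real.log 2 ≤ Real.log n := Real.log_le_log (by norm_num) (by exact_mod_cast hn2)
  have hlogn0 : 0 < Real.log n := by linarith
  have hKle : (K:ℝ) + 1 ≤ 2 / Real.log 2 * Real.log n := by
    have h1 : (K:ℝ) * Real.log 2 ≤ Real.log n := by
      rw [← Real.log_pow]
      exact Real.log_le_log (by positivity) h2K
    rw [div_mul_eq_mul_div, le_div_iff₀ hlog2]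
    nlinarith
  have hKge : Real.log n ≤ (K:ℝ) + 1 := by
    have h1 : Real.log n ≤ ((K + 1 : ℕ):ℝ) * Real.log 2 := by
      rw [← Real.log_pow]
      exact Real.log_le_log hn0 h2K1.le
    push_cast at h1
    nlinarith
  have hlogpow : ((K:ℝ) + 1) ^ γ ≤ (2 / Real.log 2) ^ |γ| * Real.log n ^ γ := by
    rcases le_or_gt 0 γ with h | h
    · rw [abs_of_nonneg h, ← Real.mul_rpow (by linarith) hlogn0.le]
      exact Real.rpow_le_rpow hK1.le hKle h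
    · have h1 : ((K:ℝ) + 1) ^ γ ≤ Real.log n ^ γ :=
        Real.rpow_le_rpow_of_nonpos hlogn0 hKge h.le
      have h2 : 1 ≤ (2 / Real.log 2) ^ |γ| := Real.one_le_rpow hB1 (abs_nonneg _)
      have h3 : 0 ≤ Real.log n ^ γ := by positivity
      nlinarith
  have e1 : a * Cg * ((n:ℝ) ^ (-(1 / p)) * ((K:ℝ) + 1) ^ (γ / p)) +
      b * ((n:ℝ) ^ (-(1 / p)) * ((K:ℝ) + 1) ^ (γ / p)) =
      (a * Cg + b) * ((n:ℝ) ^ (-(1 / p)) * ((K:ℝ) + 1) ^ (γ / p)) := by ring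
  have e2 : ((n:ℝ) ^ (-(1 / p)) * ((K:ℝ) + 1) ^ (γ / p)) ^ p = (n:ℝ)⁻¹ * ((K:ℝ) + 1) ^ γ := by
    rw [Real.mul_rpow (by positivity) (by positivity), ← Real.rpow_mul hn0.le,
      ← Real.rpow_mul hK1.le, ← Real.rpow_neg_one]
    congr 2
    · field_simp
    · field_simp
  rw [e1, Real.mul_rpow (by positivity) (by positivity), e2]
  have h4 : (a * Cg + b) ^ p ≤ (a * Cg + b + 1) ^ p :=
    Real.rpow_le_rpow (by positivity) (by linarith) hp0.le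
  calc (a * Cg + b) ^ p * ((n:ℝ)⁻¹ * ((K:ℝ) + 1) ^ γ)
      ≤ (a * Cg + b + 1) ^ p * ((n:ℝ)⁻¹ * ((2 / Real.log 2) ^ |γ| * Real.log n ^ γ)) := by
        gcongr
    _ = _ := by ring

/-- The upper bound, in the coordinates of the cube. -/
theorem upper_core (hd : 2 ≤ d) {p : ℝ} (hp : (d:ℝ) < p) : ∃ C : ℝ, 0 < C ∧ ∀ n : ℕ, 2 ≤ n →
    ∃ K : ℕ, ∫⁻ ω, Fbound (d := d) p K ω ∂(Measure.pi (fun _ : Fin n => lam d)) ≤
      ENNReal.ofReal (C * (Real.log n ^ ((d:ℝ) - 1 - p / 2) / n)) := by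
  obtain ⟨Cs, hCs0, hCs⟩ := sum_sig_bound (d := d) hd hp
  have hd2 : (2:ℝ) ≤ d := by exact_mod_cast hd
  have hp2 : 2 < p := by linarith
  have hp1 : 1 ≤ p := by linarith
  have hp0 : 0 < p := by linarith
  set γ : ℝ := (d:ℝ) - 1 - p / 2 with hγ
  set κ : ℝ := 1 / 2 - 1 / p with hκ
  have hκ0 : 0 < κ := by
    rw [hκ, sub_pos]
    exact one_div_lt_one_div_of_lt (by norm_num) hp2
  obtain ⟨Cg, hCg0, hCg⟩ := geom_sum hκ0 (γ / p)
  set cP : ℝ := (CP p).toReal with hcP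
  have hcPe : CP p = ENNReal.ofReal cP := (ENNReal.ofReal_toReal (CP_lt_top hp0).ne).symm
  have hcP0 : 0 ≤ cP := ENNReal.toReal_nonneg
  set cD : ℝ := (CD d p).toReal with hcD
  have hcDe : CD d p = ENNReal.ofReal cD := (ENNReal.ofReal_toReal (CD_lt_top hp1).ne).symm
  have hcD0 : 0 ≤ cD := ENNReal.toReal_nonneg
  have hCM := CM_nonneg hp0
  set a : ℝ := (Cs * cP * (4 ^ p * CM p)) ^ (1 / p) with ha
  set b : ℝ := (Cs * cD * 2) ^ (1 / p) with hb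
  have ha0 : 0 ≤ a := by positivity
  have hb0 : 0 ≤ b := by positivity
  set B : ℝ := 2 / Real.log 2 with hB
  have hlog2 : 0 < Real.log 2 := Real.log_pos (by norm_num)
  have hlog2' : Real.log 2 ≤ 1 := by have := Real.log_two_lt_d9; linarith
  have hB1 : 1 ≤ B := by rw [hB, one_le_div hlog2]; linarith
  set A : ℝ := a * Cg + b + 1 with hA
  have hA0 : 0 < A := by positivity
  refine ⟨A ^ p * B ^ |γ|, by positivity, ?_⟩
  intro n hn2
  have hn : 0 < n := by omega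
  have hn0 : (0:ℝ) < n := by exact_mod_cast hn
  have hn1 : (1:ℝ) ≤ n := by exact_mod_cast hn
  set K : ℕ := Nat.log 2 n with hK
  refine ⟨K, ?_⟩
  have h2K : (2:ℝ) ^ K ≤ n := by
    have := Nat.pow_log_le_self 2 hn.ne'
    exact_mod_cast this
  have h2K1 : (n:ℝ) < 2 ^ (K + 1) := by
    have := Nat.lt_pow_succ_log_self (b := 2) (by norm_num) n
    exact_mod_cast this
  have hK1 : (0:ℝ) < (K:ℝ) + 1 := by positivity
  -- bound of each level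
  have hlev : ∀ k ∈ Finset.range K,
      (∫⁻ ω, Alevel (d := d) p k ω ∂(Measure.pi (fun _ : Fin n => lam d))) ^ (1 / p) ≤
        ENNReal.ofReal (a * (n:ℝ) ^ (-(1/2):ℝ) * ((2:ℝ) ^ (κ * k) * ((k:ℝ) + 1) ^ (γ / p))) := by
    intro k hk
    have hkK : k < K := Finset.mem_range.1 hk
    have h2k : (2:ℝ) ^ k ≤ n := (pow_le_pow_right₀ (by norm_num) hkK.le).trans h2K
    have h2k0 : (0:ℝ) < 2 ^ k := by positivity
    have hnk : 1 ≤ (n:ℝ) * ((2:ℝ) ^ k)⁻¹ := by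
      rw [← div_eq_mul_inv, one_le_div h2k0]; exact h2k
    have h1 := expect_Alevel hp1 hCs hn hnk
    rw [hcPe, ← ENNReal.ofReal_mul hcP0, ← ENNReal.ofReal_mul (by positivity)] at h1
    refine (ENNReal.rpow_le_rpow h1 (by positivity)).trans ?_
    rw [ENNReal.ofReal_rpow_of_nonneg (by positivity) (by positivity)]
    apply ENNReal.ofReal_le_ofReal
    apply le_of_eq
    have hk1 : (0:ℝ) < (k:ℝ) + 1 := by positivity
    have e1 : Cs * ((k:ℝ) + 1) ^ γ * (cP * (4 ^ p * CM p * (1 / n * (n * ((2:ℝ) ^ k)⁻¹) ^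
        (1 - p / 2)))) = (Cs * cP * (4 ^ p * CM p)) * (((k:ℝ) + 1) ^ γ *
          (1 / n * (n * ((2:ℝ) ^ k)⁻¹) ^ (1 - p / 2))) := by ring
    have e2 : ((n:ℝ) * ((2:ℝ) ^ k)⁻¹) ^ (1 - p / 2) =
        (n:ℝ) ^ (1 - p / 2) * (2:ℝ) ^ ((k:ℝ) * (p / 2 - 1)) := by
      rw [Real.mul_rpow hn0.le (by positivity), ← Real.rpow_natCast, ← Real.rpow_neg (by norm_num),
        ← Real.rpow_mul (by norm_num)]
      congr 2
      ring
    have e3 : (1:ℝ) / n = (n:ℝ) ^ (-1:ℝ) := by rw [Real.rpow_neg_one, one_div]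
    have e4 : ((k:ℝ) + 1) ^ γ * (1 / n * ((n:ℝ) * ((2:ℝ) ^ k)⁻¹) ^ (1 - p / 2)) =
        (((k:ℝ) + 1) ^ γ * (n:ℝ) ^ (-(p / 2))) * (2:ℝ) ^ ((k:ℝ) * (p / 2 - 1)) := by
      rw [e2, e3]
      have : (n:ℝ) ^ (-(p / 2)) = (n:ℝ) ^ (-1:ℝ) * (n:ℝ) ^ (1 - p / 2) := by
        rw [← Real.rpow_add hn0]; congr 1; ring
      rw [this]; ring
    rw [e1, e4, rpow_mul4 (by positivity) (by positivity) (by positivity) (by positivity),
      ← Real.rpow_mul hk1.le, ← Real.rpow_mul hn0.le, ← Real.rpow_mul (by norm_num : (0:ℝ) ≤ 2)]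
    have e5 : -(p / 2) * (1 / p) = -(1/2) := by field_simp
    have e6 : (k:ℝ) * (p / 2 - 1) * (1 / p) = κ * k := by rw [hκ]; field_simp
    have e7 : γ * (1 / p) = γ / p := by ring
    rw [e5, e6, e7, ← ha]
    ring
  have hsumlev : ∑ k ∈ Finset.range K,
      (∫⁻ ω, Alevel (d := d) p k ω ∂(Measure.pi (fun _ : Fin n => lam d))) ^ (1 / p) ≤
      ENNReal.ofReal (a * Cg * ((n:ℝ) ^ (-(1 / p)) * ((K:ℝ) + 1) ^ (γ / p))) := by
    refine (Finset.sum_le_sum hlev).trans ?_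
    rw [← ENNReal.ofReal_sum_of_nonneg (fun k _ => by positivity)]
    apply ENNReal.ofReal_le_ofReal
    rw [← Finset.mul_sum]
    have h1 : (2:ℝ) ^ (κ * K) ≤ (n:ℝ) ^ κ := by
      rw [mul_comm, Real.rpow_mul (by norm_num), Real.rpow_natCast]
      exact Real.rpow_le_rpow (by positivity) h2K hκ0.le
    have h2 : (n:ℝ) ^ (-(1/2):ℝ) * (n:ℝ) ^ κ = (n:ℝ) ^ (-(1 / p)) := by
      rw [← Real.rpow_add hn0]; congr 1; rw [hκ]; ring
    calc a * (n:ℝ) ^ (-(1/2):ℝ) * ∑ k ∈ Finset.range K, (2:ℝ) ^ (κ * k) * ((k:ℝ) + 1) ^ (γ / p)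
        ≤ a * (n:ℝ) ^ (-(1/2):ℝ) * (Cg * ((2:ℝ) ^ (κ * K) * ((K:ℝ) + 1) ^ (γ / p))) :=
          mul_le_mul_of_nonneg_left (hCg K) (by positivity)
      _ ≤ a * (n:ℝ) ^ (-(1/2):ℝ) * (Cg * ((n:ℝ) ^ κ * ((K:ℝ) + 1) ^ (γ / p))) := by gcongr
      _ = a * Cg * (((n:ℝ) ^ (-(1/2):ℝ) * (n:ℝ) ^ κ) * ((K:ℝ) + 1) ^ (γ / p)) := by ring
      _ = _ := by rw [h2]
  have hR : (∫⁻ ω, Rlevel (d := d) p K ω ∂(Measure.pi (fun _ : Fin n => lam d))) ^ (1 / p) ≤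
      ENNReal.ofReal (b * ((n:ℝ) ^ (-(1 / p)) * ((K:ℝ) + 1) ^ (γ / p))) := by
    have h1 := expect_Rlevel (n := n) hp1 hCs hn K
    rw [hcDe, ← ENNReal.ofReal_mul (by positivity), ← ENNReal.ofReal_mul (by positivity)] at h1
    refine (ENNReal.rpow_le_rpow h1 (by positivity)).trans ?_
    rw [ENNReal.ofReal_rpow_of_nonneg (by positivity) (by positivity)]
    apply ENNReal.ofReal_le_ofReal
    have h2 : ((2:ℝ) ^ K)⁻¹ ≤ 2 * (n:ℝ)⁻¹ := by
      rw [inv_le_comm₀ (by positivity) (by positivity), mul_inv, inv_inv]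
      rw [pow_succ] at h2K1
      linarith
    have h3 : b * ((n:ℝ) ^ (-(1 / p)) * ((K:ℝ) + 1) ^ (γ / p)) =
        ((Cs * cD * 2) * ((n:ℝ)⁻¹ * ((K:ℝ) + 1) ^ γ)) ^ (1 / p) := by
      rw [rpow_mul3 (by positivity) (by positivity) (by positivity), ← Real.rpow_mul hK1.le,
        Real.inv_rpow hn0.le, ← Real.rpow_neg hn0.le, hb]
      congr 3
      ring
    rw [h3]
    apply Real.rpow_le_rpow (by positivity) _ (by positivity)
    calc ((2:ℝ) ^ K)⁻¹ * (Cs * ((K:ℝ) + 1) ^ γ * cD)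
        ≤ (2 * (n:ℝ)⁻¹) * (Cs * ((K:ℝ) + 1) ^ γ * cD) :=
          mul_le_mul_of_nonneg_right h2 (by positivity)
      _ = _ := by ring
  have htot := (expect_Fbound (d := d) (n := n) hp1 K).trans (add_le_add hsumlev hR)
  rw [← ENNReal.ofReal_add (by positivity) (by positivity)] at htot
  have htot2 := ENNReal.rpow_le_rpow htot hp0.le
  rw [← ENNReal.rpow_mul, one_div, inv_mul_cancel₀ hp0.ne', ENNReal.rpow_one,
    ENNReal.ofReal_rpow_of_nonneg (by positivity) hp0.le] at htot2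
  refine htot2.trans (ENNReal.ofReal_le_ofReal ?_)
  have hfin := final_real (p := p) (γ := γ) (a := a) (b := b) (Cg := Cg) hp0 hn2 h2K h2K1
    ha0 hb0 hCg0.le
  rw [← one_div]
  exact hfin

end Pool.Agent.H.MP_31d543_pr
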